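import Pool.Agent.Y150.KN.G1

/-!
# Abelian varieties: the first cohomology (project KN, helper150)
-/

set_option autoImplicit false

open CategoryTheory AlgebraicGeometry

namespace Pool.Agent.Y150.KN

universe u v w

open Pool.Agent.H914 VarClass Obj

variable {k : Type u} [Field k] {𝒱 : VarClass k} {ops : CycleOps 𝒱} {W : Coh.{u, v} ops}
  {Γ : Type w} [Group Γ]

/-- The representation of `Γ` on the cohomology in degree `i`. -/
noncomputable def rep (A : GalAction W Γ) (X : 𝒱.Obj) (i : ℕ) :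
    Representation W.K Γ (W.gr X i) where
  toFun g := ((A.act X g).toLinearMap).restrict (fun _ ha => A.act_mem g ha)
  map_one' := by
    ext x
    simp
  map_mul' g h := by
    ext x
    simp

lemma coe_rep (A : GalAction W Γ) (X : 𝒱.Obj) (i : ℕ) (g : Γ) (x : W.gr X i) :
    (rep A X i g x : W.H X) = A.act X g (x : W.H X) := rfl

lemma pow_mem_gr (W : Coh.{u, v} ops) {X : 𝒱.Obj} {ξ : W.H X} (h : ξ ∈ W.gr X 2) (n : ℕ) :
    ξ ^ n ∈ W.gr X (2 * n) := by
  induction n with
  | zero => rw [pow_zero]; exact W.one_mem X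
  | succ n ih => rw [pow_succ, mul_add, mul_one]; exact W.mul_mem ih h

lemma pow_mem_alg (W : Coh.{u, v} ops) {X : 𝒱.Obj} {ξ : W.H X} (h : ξ ∈ W.algSpan X) (n : ℕ) :
    ξ ^ n ∈ W.algSpan X := by
  induction n with
  | zero => rw [pow_zero]; exact W.one_mem_alg X
  | succ n ih => rw [pow_succ]; exact W.mul_mem_alg ih h

section Forms

variable {K : Type v} [Field K] {V : Type v} [AddCommGroup V] [Module K V] {n : ℕ}
  {e e' : Module.Basis (Fin n) K V} {ψ : V →ₗ[K] V →ₗ[K] K}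
  (hee : ∀ i j, ψ (e i) (e' j) = if i = j then 1 else 0) (ρ : Representation K Γ V)
  (χ : Γ → K) (hρ : ∀ g x y, ψ (ρ g x) (ρ g y) = χ g * ψ x y)

/-- The endomorphisms commuting with the group. -/
def commAlg : Subalgebra K (Module.End K V) := Subalgebra.centralizer K (Set.range fun g => ρ g)

lemma mem_commAlg {ρ : Representation K Γ V} {a : Module.End K V} :
    a ∈ commAlg ρ ↔ ∀ g x, a (ρ g x) = ρ g (a x) := by
  rw [commAlg, Subalgebra.mem_centralizer_iff]
  constructor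
  · intro h g x
    have := congrArg (fun f : Module.End K V => f x) (h (ρ g) ⟨g, rfl⟩)
    exact this.symm
  · rintro h _ ⟨g, rfl⟩
    ext x
    exact (h g x).symm

include hee

/-- Every bilinear form is given by an endomorphism. -/
lemma exists_repr (b : V →ₗ[K] V →ₗ[K] K) : ∃ c : Module.End K V, ∀ x y, ψ (c x) y = b x y := by
  classical
  refine ⟨∑ j, ((b.flip (e' j))).smulRight (e j), fun x y => ?_⟩
  have h1 : ∀ j, ψ ((∑ j, ((b.flip (e' j))).smulRight (e j)) x) (e' j) = b x (e' j) := by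
    intro j
    rw [LinearMap.sum_apply, map_sum, LinearMap.sum_apply]
    simp only [LinearMap.smulRight_apply, map_smul, LinearMap.smul_apply, hee, smul_eq_mul]
    simp
  have h2 : ψ ((∑ j, ((b.flip (e' j))).smulRight (e j)) x) = b x := by
    apply e'.ext
    exact h1
  rw [h2]

/-- Adjoints exist. -/
lemma exists_adj (a : Module.End K V) : ∃ a' : Module.End K V, ∀ x y, ψ (a x) y = ψ x (a' y) := by
  classical
  refine ⟨∑ i, (ψ (a (e i))).smulRight (e' i), fun x y => ?_⟩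
  have h1 : ψ.flip ((∑ i, (ψ (a (e i))).smulRight (e' i)) y) = (ψ ∘ₗ a).flip y := by
    apply e.ext
    intro i
    rw [LinearMap.flip_apply, LinearMap.flip_apply, LinearMap.comp_apply, LinearMap.sum_apply,
      map_sum]
    simp only [LinearMap.smulRight_apply, map_smul, hee, smul_eq_mul]
    simp
  exact (congrArg (fun f => f x) h1).symm

omit hee in
lemma surj_rep (ρ : Representation K Γ V) (g : Γ) : Function.Surjective (ρ g) := fun x => ⟨ρ g⁻¹ x, by
  rw [← Module.End.mul_apply, ← _root_.map_mul, mul_inv_cancel, _root_.map_one]; rfl⟩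

include hρ

lemma adj_mem {a a' : Module.End K V} (ha : a ∈ commAlg ρ)
    (hadj : ∀ x y, ψ (a x) y = ψ x (a' y)) : a' ∈ commAlg ρ := by
  rw [mem_commAlg] at ha ⊢
  intro g y
  rw [← sub_eq_zero]
  apply psi_nondeg hee
  intro x
  obtain ⟨x', rfl⟩ := surj_rep ρ g x
  rw [map_sub, ← hadj, ha, hρ, hρ, hadj, sub_self]

lemma repr_mem {b : V →ₗ[K] V →ₗ[K] K} (hb : ∀ g x y, b (ρ g x) (ρ g y) = χ g * b x y)
    {c : Module.End K V} (hc : ∀ x y, ψ (c x) y = b x y) : c ∈ commAlg ρ := by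
  rw [mem_commAlg]
  intro g x
  rw [← sub_eq_zero]
  apply psi_nondeg' hee
  intro y
  obtain ⟨y', rfl⟩ := surj_rep ρ g y
  rw [map_sub, LinearMap.sub_apply, hc, hb, hρ, hc, sub_self]

/-- The condition of self-duality in terms of the form `ψ`. -/
lemma sd_of (hss : ∀ U, Stable ρ U → ∃ U', Stable ρ U' ∧ IsCompl U U') {U : Submodule K V}
    (hU : Stable ρ U) {b : V →ₗ[K] V →ₗ[K] K} (hb0 : ∃ x ∈ U, ∃ y ∈ U, b x y ≠ 0)
    (hb : ∀ g, ∀ x ∈ U, ∀ y ∈ U, b (ρ g x) (ρ g y) = χ g * b x y) :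
    ∃ c ∈ commAlg ρ, ∃ x ∈ U, ∃ y ∈ U, ψ (c x) y ≠ 0 := by
  obtain ⟨U', hU', hcompl⟩ := hss U hU
  -- the projection
  let p : V →ₗ[K] V := U.subtype ∘ₗ Submodule.projectionOnto U U' hcompl
  have hpU : ∀ x ∈ U, p x = x := by
    intro x hx
    change ((Submodule.projectionOnto U U' hcompl) x : V) = x
    exact congrArg Subtype.val (Submodule.projectionOnto_apply_left hcompl ⟨x, hx⟩)
  have hpU' : ∀ x ∈ U', p x = 0 := by
    intro x hx
    change ((Submodule.projectionOnto U U' hcompl) x : V) = 0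
    rw [Submodule.projectionOnto_apply_of_mem_right hcompl hx]
    rfl
  have hpm : ∀ x, p x ∈ U := fun x => Subtype.mem _
  have hpρ : ∀ g x, p (ρ g x) = ρ g (p x) := by
    intro g x
    obtain ⟨y, hy, z, hz, rfl⟩ : ∃ y ∈ U, ∃ z ∈ U', y + z = x := by
      have hx : x ∈ U ⊔ U' := by rw [hcompl.sup_eq_top]; trivial
      exact Submodule.mem_sup.1 hx
    rw [map_add, map_add, map_add, hpU y hy, hpU' z hz, hpU _ (hU g y hy), hpU' _ (hU' g z hz),
      add_zero, add_zero]
  let b' : V →ₗ[K] V →ₗ[K] K := b.compl₁₂ p p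
  have hb' : ∀ g x y, b' (ρ g x) (ρ g y) = χ g * b' x y := by
    intro g x y
    simp only [b', LinearMap.compl₁₂_apply, hpρ]
    exact hb g _ (hpm x) _ (hpm y)
  obtain ⟨c, hc⟩ := exists_repr hee b'
  obtain ⟨x, hx, y, hy, hxy⟩ := hb0
  refine ⟨c, repr_mem hee ρ χ hρ hb' hc, x, hx, y, hy, ?_⟩
  rw [hc]
  simpa [b', hpU x hx, hpU y hy] using hxy

end Forms

end Pool.Agent.Y150.KN
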