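import Pool.Agent.Y150.KN.AV1

/-!
# Abelian varieties: assembly (project KN, helper150)
-/

set_option autoImplicit false

open CategoryTheory AlgebraicGeometry

namespace Pool.Agent.Y150.KN

universe u v w

open Pool.Agent.H914 VarClass Obj

variable {k : Type u} [Field k] {𝒱 : VarClass k} {ops : CycleOps 𝒱} (W : Coh.{u, v} ops)

lemma gr_le_par (X : 𝒱.Obj) (i ε : ℕ) : W.gr X (2 * i + ε) ≤ par W X ε :=
  le_iSup (fun i => W.gr X (2 * i + ε)) i

/-- The operators on the first cohomology given by endomorphisms of the variety. -/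
def geomEnd (X : 𝒱.Obj) : Submodule W.K (Module.End W.K (W.gr X 1)) :=
  Submodule.span W.K {b | ∃ h : X ⟶ X, ∀ x : W.gr X 1, (b x : W.H X) = W.map h (x : W.H X)}

/-- Conjecture D for abelian varieties whose first cohomology has self-dual constituents, in terms
of cohomology classes. -/
theorem av_main (hQ : S_Q2.{v, w}) (hpw : S_pw.{u, v}) (hslot : S_slot.{u, v})
    (hgam : S_gam.{u, v, w}) (hswap : S_swap.{u, v}) (hnull : S_null.{u, v})
    (hsum : S_sum.{u, v}) (hav2 : S_av2.{u, v}) (hav3 : S_av3.{u, v}) (hav4 : S_av4.{u, v})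
    (σ : W.K →+* ℂ) {Γ : Type w} [Group Γ] (A : GalAction W Γ) (X : 𝒱.Obj) (hX : 0 < X.dim)
    (m : X.prod X ⟶ X)
    (hm : ∀ v ∈ W.gr X 1, W.map m v = W.map (fst X X) v + W.map (snd X X) v)
    (hgen : Algebra.adjoin W.K (W.gr X 1 : Set (W.H X)) = ⊤)
    {D : X.Cycles} (hD : X.IsCyc 1 D) (hD0 : W.tr X (W.cl X D ^ X.dim) ≠ 0)
    (hss : ∀ U, Stable (rep A X 1) U → ∃ U', Stable (rep A X 1) U' ∧ IsCompl U U')
    (hTate : ∀ a : Module.End W.K (W.gr X 1), (∀ g x, a (rep A X 1 g x) = rep A X 1 g (a x)) →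
      a ∈ geomEnd W X)
    (hSD : ∀ U, Stable (rep A X 1) U → U ≠ ⊥ →
      (∀ U' ≤ U, Stable (rep A X 1) U' → U' = ⊥ ∨ U' = U) →
      ∃ b : W.gr X 1 →ₗ[W.K] W.gr X 1 →ₗ[W.K] W.K, (∃ x ∈ U, ∃ y ∈ U, b x y ≠ 0) ∧
        ∀ g, ∀ x ∈ U, ∀ y ∈ U, b (rep A X 1 g x) (rep A X 1 g y) = (A.χ g : W.K) * b x y)
    {p : ℕ} {z : W.H X} (hzp : z ∈ W.gr X (2 * p)) (hz : z ∈ W.numTriv X) : z = 0 := by
  classical
  set ξ := W.cl X D with hξ
  have hξ2 : ξ ∈ W.gr X 2 := W.cl_mem hD
  have hξa : ξ ∈ W.algSpan X := W.cl_mem_alg hD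
  rcases Nat.eq_zero_or_pos p with rfl | hp
  · -- codimension zero
    rw [mul_zero, W.gr_zero, Submodule.mem_span_singleton] at hzp
    obtain ⟨c, rfl⟩ := hzp
    have h1 := hz.2 _ (pow_mem_alg W hξa X.dim)
    rw [smul_mul_assoc, one_mul, map_smul, smul_eq_mul, mul_eq_zero] at h1
    rcases h1 with h1 | h1
    · rw [h1, zero_smul]
    · exact absurd h1 hD0
  · set ζ := ξ ^ (X.dim - 1) with hζ
    have hζg : ζ ∈ W.gr X (2 * (X.dim - 1)) := pow_mem_gr W hξ2 _
    have hζa : ζ ∈ W.algSpan X := pow_mem_alg W hξa _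
    set ρ := rep A X 1 with hρdef
    obtain ⟨hnd, n, e, e', ψ, hee, hanti, hμ, hmul⟩ := hav2 W X m hX hm hgen ξ hξ2 hD0
    -- equivariance of the form
    have hρ : ∀ g x y, ψ (ρ g x) (ρ g y) = (A.χ g : W.K) * ψ x y := by
      intro g x y
      refine hmul (A.act X g : W.H X →ₐ[W.K] W.H X)
        (A.act (X.prod X) g : W.H (X.prod X) →ₐ[W.K] W.H (X.prod X)) (A.χ g : W.K) (ρ g)
        (fun a => A.act_map _ g a) (fun a => A.act_map _ g a) (fun a => A.act_map _ g a) ?_
        (fun x => rfl) (surj_rep ρ g) x y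
      have h1 := A.act_cl g hD
      rw [pow_one] at h1
      exact h1
    have hadj : ∀ a ∈ commAlg ρ, ∃ a' ∈ commAlg ρ, ∀ x y, ψ (a x) y = ψ x (a' y) := by
      intro a ha
      obtain ⟨a', ha'⟩ := exists_adj hee a
      exact ⟨a', adj_mem hee ρ _ hρ ha ha', ha'⟩
    -- the second form
    let j : W.gr X 1 →ₗ[W.K] W.H X := LinearMap.mulRight W.K ζ ∘ₗ (W.gr X 1).subtype
    have hj : ∀ x : W.gr X 1, j x = (x : W.H X) * ζ := fun x => rfl
    have hact : ∀ g, A.act X g ζ = (A.χ g : W.K) ^ (X.dim - 1) • ζ := by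
      intro g
      have h1 := A.act_cl g hD
      rw [pow_one] at h1
      rw [hζ, _root_.map_pow, hξ, h1, smul_pow]
    have hΓ : ∀ g, ∃ c : W.K, c ≠ 0 ∧ ∀ x, A.act X g (j x) = c • j (ρ g x) := by
      intro g
      refine ⟨(A.χ g : W.K) ^ (X.dim - 1), pow_ne_zero _ (Units.ne_zero _), fun x => ?_⟩
      rw [hj, hj, _root_.map_mul, hact, mul_smul_comm]
      rfl
    let τ : W.gr X 1 →ₗ[W.K] W.gr X 1 →ₗ[W.K] W.K :=
      LinearMap.mk₂ W.K (fun x y => W.tr X ((x : W.H X) * (y : W.H X) * ζ))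
        (fun x x' y => by
          rw [Submodule.coe_add, add_mul, add_mul, _root_.map_add])
        (fun c x y => by
          rw [Submodule.coe_smul, smul_mul_assoc, smul_mul_assoc, map_smul])
        (fun x y y' => by
          rw [Submodule.coe_add, mul_add, add_mul, _root_.map_add])
        (fun c x y => by
          rw [Submodule.coe_smul, mul_smul_comm, smul_mul_assoc, map_smul])
    have hτ : ∀ x y, τ x y = W.tr X ((x : W.H X) * (y : W.H X) * ζ) := fun x y => rfl
    have hτρ : ∀ g x y, τ (ρ g x) (ρ g y) = (A.χ g : W.K) * τ x y := by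
      intro g x y
      have h1 := A.tr_act X g ((x : W.H X) * (y : W.H X) * ζ)
      rw [_root_.map_mul (A.act X g), _root_.map_mul (A.act X g), hact, mul_smul_comm, map_smul,
        smul_eq_mul] at h1
      have h2 : (A.χ g : W.K) ^ X.dim = (A.χ g : W.K) ^ (X.dim - 1) * (A.χ g : W.K) := by
        rw [← pow_succ, Nat.sub_add_cancel hX]
      rw [h2, mul_assoc ((A.χ g : W.K) ^ (X.dim - 1))] at h1
      exact mul_left_cancel₀ (pow_ne_zero _ (Units.ne_zero (A.χ g))) h1
    obtain ⟨t, ht⟩ := exists_repr hee τ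
    have htE : t ∈ commAlg ρ := repr_mem hee ρ _ hρ hτρ ht
    have htinj : Function.Injective t := by
      rw [injective_iff_map_eq_zero]
      intro x hx
      apply Subtype.ext
      refine hnd x x.2 (fun y hy => ?_)
      have h1 := ht x ⟨y, hy⟩
      rw [hx, _root_.map_zero, LinearMap.zero_apply] at h1
      exact h1.symm
    have hE : ∀ a ∈ commAlg ρ, ∃ γ ∈ W.algSpan (X.prod X), ∀ x,
        W.push (fst X X) (γ * W.map (snd X X) (j x)) = j (a x) := by
      intro a ha
      -- the adjoint with respect to the second form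
      obtain ⟨t', ht'E, ht'⟩ := hadj t htE
      have ht'inj : Function.Injective t' := by
        rw [injective_iff_map_eq_zero]
        intro y hy
        apply psi_nondeg hee
        intro x
        obtain ⟨x', rfl⟩ := (LinearMap.injective_iff_surjective.1 htinj) x
        rw [ht', hy, _root_.map_zero]
      obtain ⟨s, hsE, hts, -⟩ := exists_inv ht'E ht'inj
      obtain ⟨b, hbE, hb⟩ := hadj (t * a) ((commAlg ρ).mul_mem htE ha)
      have h1 : ∀ x y, τ (a x) y = τ x ((s * b) y) := by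
        intro x y
        rw [← ht, ← ht, ht' x]
        have h2 := hb x y
        rw [Module.End.mul_apply] at h2
        rw [h2, Module.End.mul_apply]
        congr 1
        have h3 := congrArg (fun f : Module.End W.K (W.gr X 1) => f (b y)) hts
        exact h3.symm
      have h2 : s * b ∈ geomEnd W X :=
        hTate _ (mem_commAlg.1 ((commAlg ρ).mul_mem hsE hbE))
      exact hav4 W X ζ hζg hX a (s * b) h1 h2
    have hdiag : ∑ i, W.map (fst X X) (j (e i)) * W.map (snd X X) (j (e' i)) ∈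
        W.algSpan (X.prod X) := by
      have h1 : ∑ i, W.map (fst X X) (j (e i)) * W.map (snd X X) (j (e' i)) =
          (W.map m ξ - W.map (fst X X) ξ - W.map (snd X X) ξ) *
            (W.map (fst X X) ζ * W.map (snd X X) ζ) := by
        rw [hμ, Finset.sum_mul]
        refine Finset.sum_congr rfl (fun i _ => ?_)
        rw [hj, hj, _root_.map_mul, _root_.map_mul]
        have h2 := W.alg_comm (W.map_mem_alg (fst X X) hζa) (W.map (snd X X) (e' i : W.H X))
        rw [mul_assoc, ← mul_assoc (W.map (fst X X) ζ), h2]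
        simp only [mul_assoc]
      rw [h1]
      refine W.mul_mem_alg ?_ (W.mul_mem_alg (W.map_mem_alg _ hζa) (W.map_mem_alg _ hζa))
      exact Submodule.sub_mem _ (Submodule.sub_mem _ (W.map_mem_alg _ hξa)
        (W.map_mem_alg _ hξa)) (W.map_mem_alg _ hξa)
    -- the power of the variety
    obtain ⟨P, pr, hPW⟩ := hpw (k := k) (𝒱 := 𝒱) X (p + p) (by omega)
    have hP := hPW ops W
    obtain ⟨F, hF⟩ := hsum W X m hm P (p + p - 1) (fun i => pr (Fin.cast (by omega) i))
    have hF' : ∀ v ∈ W.gr X 1, W.map F v = ∑ i, W.map (pr i) v := by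
      intro v hv
      rw [hF v hv]
      exact Fintype.sum_equiv (finCongr (by omega)) _ _ (fun i => rfl)
    have hvan : frm W pr j (W.map F z) = 0 := by
      refine vanish hQ hslot hgam hswap hnull W σ A X (W.gr X 1) j ρ (commAlg ρ) ψ n e e' 0 1
        ((commAlg ρ).zero_mem) ((commAlg ρ).one_mem) (zero_add 1) ?_ ?_ ?_ hee ?_ hadj ?_ ?_ hE
        hΓ hdiag hP (W.map_mem_num F hz)
      · intro x
        rw [LinearMap.zero_apply, _root_.map_zero]
        exact Submodule.zero_mem _
      · intro x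
        apply gr_le_par W X (X.dim - 1) 1
        rw [hj, add_comm]
        exact W.mul_mem x.2 hζg
      · intro i
        exact Or.inr ⟨rfl, rfl, rfl, rfl⟩
      · refine ⟨(-1 : W.K) • 1, (commAlg ρ).smul_mem (commAlg ρ).one_mem _, fun x y => ?_⟩
        rw [hanti, LinearMap.smul_apply, Module.End.one_apply, map_smul, LinearMap.smul_apply,
          neg_smul, one_smul]
      · intro g
        refine ⟨(A.χ g : W.K) • 1, (commAlg ρ).smul_mem (commAlg ρ).one_mem _, fun x y => ?_⟩
        rw [hρ, LinearMap.smul_apply, Module.End.one_apply, map_smul, LinearMap.smul_apply,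
          smul_eq_mul]
      · intro U hU hU0 hirr
        obtain ⟨b, hb0, hb⟩ := hSD U hU hU0 hirr
        exact sd_of hee ρ _ hρ hss hU hb0 hb
    refine hav3 W X P pr hP (by omega) hX hgen ζ hζg hnd F hF' z ?_ ?_
    · rw [← two_mul]
      exact hzp
    · intro x hx
      have h1 := congrArg (fun f => f (fun i => (⟨x i, hx i⟩ : W.gr X 1))) hvan
      exact h1

end Pool.Agent.Y150.KN
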