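import Pool.Agent.H914R2.Weil

/-!
# Cohomology theories for varieties over an arbitrary field

The structure `Coh` is a Weil cohomology theory of the varieties over a field `k` without the axiom
on the degrees of zero-cycles (which has a different form over fields that are not algebraically
closed).
-/

set_option autoImplicit false

open CategoryTheory AlgebraicGeometry

namespace Pool.Agent.Y150.KN

universe u v w

open Pool.Agent.H914 VarClass Obj

variable {k : Type u} [Field k] {𝒱 : VarClass k}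

/-- A cohomology theory on the varieties of the class `𝒱` over the field `k`, with coefficients in a
field `K` of characteristic zero and with Tate twists suppressed, with Poincare duality, the
Kunneth formula and cycle class maps which are compatible with the operations `ops` on cycles. -/
structure Coh (ops : CycleOps 𝒱) extends WeilData.{u, v} 𝒱 where
  isPoincareAlgebra : ∀ X, IsPoincareAlgebra (gr X) X.dim (tr X)
  isFunctorial : IsFunctorial toWeilData
  isKunneth : ∀ X Y : 𝒱.Obj, IsKunneth (toWeilData.map (Obj.fst X Y))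
    (toWeilData.map (Obj.snd X Y)) (tr X) (tr Y) (tr (X.prod Y))
  isCompatible : IsCompatible ops toWeilData
  cl_mem : ∀ {X : 𝒱.Obj} {p : ℕ} {z : X.Cycles}, X.IsCyc p z → cl X z ∈ gr X (2 * p)
  cl_fund : ∀ X : 𝒱.Obj, cl X X.V.fundCycle = 1

variable {ops : CycleOps 𝒱}

namespace Coh

variable (W : Coh.{u, v} ops) {X Y Z : 𝒱.Obj}

instance finite (X : 𝒱.Obj) : Module.Finite W.K (W.H X) := (W.isPoincareAlgebra X).finite

lemma isInternal (X) : DirectSum.IsInternal (W.gr X) := (W.isPoincareAlgebra X).isInternal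
lemma one_mem (X) : (1 : W.H X) ∈ W.gr X 0 := (W.isPoincareAlgebra X).one_mem
lemma mul_mem {X} {i j : ℕ} {a b : W.H X} (ha : a ∈ W.gr X i) (hb : b ∈ W.gr X j) :
    a * b ∈ W.gr X (i + j) := (W.isPoincareAlgebra X).mul_mem ha hb
lemma comm {X} {i j : ℕ} {a b : W.H X} (ha : a ∈ W.gr X i) (hb : b ∈ W.gr X j) :
    a * b = (-1 : W.K) ^ (i * j) • (b * a) := (W.isPoincareAlgebra X).comm ha hb
lemma gr_zero (X) : W.gr X 0 = Submodule.span W.K {1} := (W.isPoincareAlgebra X).gr_zero
lemma gr_eq_bot (X) (i) (h : 2 * X.dim < i) : W.gr X i = ⊥ :=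
  (W.isPoincareAlgebra X).gr_eq_bot i h
lemma map_mem (f : X ⟶ Y) {i : ℕ} {a : W.H Y} (ha : a ∈ W.gr Y i) :
    W.map f a ∈ W.gr X i := (W.isFunctorial.isPullPush f).map_mem ha
lemma map_id (X : 𝒱.Obj) (a : W.H X) : W.map (𝟙 X) a = a := by
  rw [W.isFunctorial.map_id]; rfl
lemma map_comp (f : X ⟶ Y) (g : Y ⟶ Z) (a : W.H Z) :
    W.map (f ≫ g) a = W.map f (W.map g a) := by
  rw [W.isFunctorial.map_comp]; rfl
lemma tr_eq_zero {X} {i : ℕ} {a : W.H X} (ha : a ∈ W.gr X i) (hi : i ≠ 2 * X.dim) :
    W.tr X a = 0 := (W.isPoincareAlgebra X).tr_eq_zero ha hi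
lemma nondeg {X} (a : W.H X) (h : ∀ b, W.tr X (a * b) = 0) : a = 0 :=
  (W.isPoincareAlgebra X).nondeg a h
lemma tr_push (f : X ⟶ Y) (a : W.H X) (b : W.H Y) :
    W.tr Y (W.push f a * b) = W.tr X (a * W.map f b) :=
  (W.isFunctorial.isPullPush f).tr_push a b
lemma kunneth (X Y : 𝒱.Obj) :
    Function.Bijective (kunnethMap (W.map (Obj.fst X Y)) (W.map (Obj.snd X Y))) :=
  (W.isKunneth X Y).bijective
lemma tr_prod (a : W.H X) (b : W.H Y) :
    W.tr (X.prod Y) (W.map (Obj.fst X Y) a * W.map (Obj.snd X Y) b) = W.tr X a * W.tr Y b :=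
  (W.isKunneth X Y).tr_prod a b
lemma cl_mul (z w : X.Cycles) : W.cl X (ops.mul z w) = W.cl X z * W.cl X w :=
  W.isCompatible.cl_mul z w
lemma cl_pull (f : X ⟶ Y) (z : Y.Cycles) :
    W.cl X (ops.pull f z) = W.map f (W.cl Y z) := W.isCompatible.cl_pull f z
lemma cl_push (f : X ⟶ Y) (z : X.Cycles) :
    W.cl Y (ops.push f z) = W.push f (W.cl X z) := W.isCompatible.cl_push f z

lemma cl_smul (q : ℚ) (z : X.Cycles) : W.cl X (q • z) = (q : W.K) • W.cl X z := by
  have := map_ratCast_smul (W.cl X) ℚ W.K q z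
  simpa using this

/-- Induction over the homogeneous elements. -/
lemma gr_induction {p : W.H X → Prop} (hgr : ∀ i, ∀ a ∈ W.gr X i, p a)
    (hadd : ∀ a b, p a → p b → p (a + b)) (a : W.H X) : p a := by
  have ha : a ∈ iSup (W.gr X) := by rw [(W.isInternal X).submodule_iSup_eq_top]; trivial
  exact Submodule.iSup_induction (W.gr X) (motive := p) ha (fun i a ha => hgr i a ha)
    (hgr 0 0 (Submodule.zero_mem _)) hadd

lemma tr_ext {a b : W.H X} (h : ∀ c, W.tr X (a * c) = W.tr X (b * c)) : a = b := by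
  rw [← sub_eq_zero]
  apply W.nondeg
  intro c
  rw [sub_mul, map_sub, h, sub_self]

/-- Elements of even degree are central. -/
lemma even_comm {p : ℕ} {c : W.H X} (hc : c ∈ W.gr X (2 * p)) (a : W.H X) : c * a = a * c := by
  refine W.gr_induction (p := fun a => c * a = a * c) ?_ ?_ a
  · intro i a ha
    rw [W.comm hc ha, mul_assoc, pow_mul]
    simp
  · intro a b ha hb
    rw [mul_add, add_mul, ha, hb]

/-- Homogeneous elements of complementary degree detect homogeneous elements. -/
lemma eq_zero_of_gr {i l : ℕ} (hil : i + l = 2 * X.dim) {a : W.H X} (ha : a ∈ W.gr X i)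
    (h : ∀ b ∈ W.gr X l, W.tr X (a * b) = 0) : a = 0 := by
  apply W.nondeg
  intro b
  refine W.gr_induction (p := fun b => W.tr X (a * b) = 0) ?_ ?_ b
  · intro m b hb
    by_cases hm : m = l
    · subst hm
      exact h b hb
    · exact W.tr_eq_zero (W.mul_mem ha hb) (by omega)
  · intro b b' hb hb'
    rw [mul_add, map_add, hb, hb', add_zero]

lemma push_mul (f : X ⟶ Y) (a : W.H X) (b : W.H Y) :
    W.push f (a * W.map f b) = W.push f a * b := by
  apply W.tr_ext
  intro c
  rw [W.tr_push, mul_assoc, mul_assoc, W.tr_push, _root_.map_mul (W.map f)]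

/-- Traces are symmetric up to a sign. -/
lemma tr_rot {j : ℕ} {b : W.H X} (hb : b ∈ W.gr X j) (d : W.H X) :
    W.tr X (b * d) = (-1 : W.K) ^ j * W.tr X (d * b) := by
  refine W.gr_induction (p := fun d => W.tr X (b * d) = (-1 : W.K) ^ j * W.tr X (d * b)) ?_ ?_ d
  · intro i d hd
    by_cases h : j + i = 2 * X.dim
    · rw [W.comm hb hd, map_smul, smul_eq_mul]
      congr 1
      have h1 : (-1 : W.K) ^ (j * i) * (-1 : W.K) ^ (j * j) = 1 := by
        rw [← pow_add, ← mul_add, add_comm i j, h, ← mul_assoc, mul_comm j 2, mul_assoc, pow_mul]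
        simp
      have h2 : (-1 : W.K) ^ (j * j) = (-1 : W.K) ^ j := by
        rcases Nat.even_or_odd j with hj | hj
        · rw [hj.neg_one_pow, (hj.mul_left j).neg_one_pow]
        · rw [hj.neg_one_pow, (hj.mul hj).neg_one_pow]
      rw [h2] at h1
      have h3 : (-1 : W.K) ^ j * (-1 : W.K) ^ j = 1 := by
        rw [← pow_add, ← two_mul, pow_mul]
        simp
      calc (-1 : W.K) ^ (j * i) = (-1 : W.K) ^ (j * i) * ((-1 : W.K) ^ j * (-1 : W.K) ^ j) := by
            rw [h3, mul_one]
        _ = (-1 : W.K) ^ j := by rw [← mul_assoc, h1, one_mul]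
    · rw [W.tr_eq_zero (W.mul_mem hb hd) h, W.tr_eq_zero (W.mul_mem hd hb) (by omega), mul_zero]
  · intro d d' hd hd'
    rw [mul_add, add_mul, map_add, map_add, hd, hd', mul_add]

/-- The left projection formula. -/
lemma mul_push (f : X ⟶ Y) (b : W.H Y) (a : W.H X) :
    W.push f (W.map f b * a) = b * W.push f a := by
  refine W.gr_induction (p := fun b => W.push f (W.map f b * a) = b * W.push f a) ?_ ?_ b
  · intro j b hb
    apply W.tr_ext
    intro c
    rw [W.tr_push, mul_assoc, W.tr_rot (W.map_mem f hb), mul_assoc a, ← _root_.map_mul (W.map f),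
      ← W.tr_push, ← mul_assoc (W.push f a) c b, ← W.tr_rot hb, mul_assoc]
  · intro b b' hb hb'
    rw [_root_.map_add, add_mul, _root_.map_add, hb, hb', add_mul]

lemma push_id (a : W.H X) : W.push (𝟙 X) a = a := by
  apply W.tr_ext
  intro c
  rw [W.tr_push, W.map_id]

lemma push_comp (f : X ⟶ Y) (g : Y ⟶ Z) (a : W.H X) :
    W.push (f ≫ g) a = W.push g (W.push f a) := by
  apply W.tr_ext
  intro c
  rw [W.tr_push, W.tr_push, W.tr_push, W.map_comp]

lemma push_snd (a : W.H X) (b : W.H Y) :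
    W.push (snd X Y) (W.map (fst X Y) a * W.map (snd X Y) b) = W.tr X a • b := by
  apply W.tr_ext
  intro c
  rw [W.tr_push, mul_assoc, ← _root_.map_mul, W.tr_prod, smul_mul_assoc, map_smul, smul_eq_mul]

lemma push_fst (a : W.H X) (b : W.H Y) :
    W.push (fst X Y) (W.map (fst X Y) a * W.map (snd X Y) b) = W.tr Y b • a := by
  rw [W.mul_push]
  have h1 : W.push (fst X Y) (W.map (snd X Y) b) = W.tr Y b • (1 : W.H X) := by
    apply W.tr_ext
    intro c
    rw [W.tr_push]
    refine W.gr_induction (p := fun b => W.tr (X.prod Y) (W.map (snd X Y) b * W.map (fst X Y) c) =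
      W.tr X ((W.tr Y b • 1) * c)) ?_ ?_ b
    · intro j b hb
      rw [W.tr_rot (W.map_mem _ hb), W.tr_prod, smul_mul_assoc, one_mul, map_smul, smul_eq_mul]
      by_cases hj : j = 2 * Y.dim
      · rw [hj, pow_mul]
        simp [mul_comm]
      · rw [W.tr_eq_zero hb hj]
        simp
    · intro b b' hb hb'
      rw [_root_.map_add, add_mul, _root_.map_add, hb, hb', _root_.map_add, add_smul, add_mul,
        _root_.map_add]
  rw [h1, mul_smul_comm, mul_one]

lemma kunneth_induction {p : W.H (X.prod Y) → Prop}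
    (hadd : ∀ a b, p a → p b → p (a + b))
    (h : ∀ i j, ∀ a ∈ W.gr X i, ∀ b ∈ W.gr Y j, p (W.map (fst X Y) a * W.map (snd X Y) b))
    (c : W.H (X.prod Y)) : p c := by
  have h0 : p 0 := by
    have := h 0 0 0 (Submodule.zero_mem _) 0 (Submodule.zero_mem _)
    simpa using this
  obtain ⟨t, rfl⟩ := (W.kunneth X Y).2 c
  induction t using TensorProduct.induction_on with
  | zero => simpa using h0
  | add x y hx hy => rw [_root_.map_add]; exact hadd _ _ hx hy
  | tmul a b =>
    simp only [kunnethMap, TensorProduct.lift.tmul, LinearMap.compl₁₂_apply,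
      LinearMap.mul_apply', AlgHom.toLinearMap_apply]
    refine W.gr_induction
      (p := fun a => p (W.map (fst X Y) a * W.map (snd X Y) b)) ?_ ?_ a
    · intro i a ha
      refine W.gr_induction
        (p := fun b => p (W.map (fst X Y) a * W.map (snd X Y) b)) ?_ ?_ b
      · intro j b hb; exact h i j a ha b hb
      · intro b b' hb hb'; rw [_root_.map_add, mul_add]; exact hadd _ _ hb hb'
    · intro a a' ha ha'; rw [_root_.map_add, add_mul]; exact hadd _ _ ha ha'

/-! ## Algebraic classes -/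

/-- The combinations of classes of algebraic cycles with coefficients in the field `K`. -/
def algSpan (X : 𝒱.Obj) : Submodule W.K (W.H X) :=
  Submodule.span W.K {x | ∃ p z, X.IsCyc p z ∧ W.cl X z = x}

lemma cl_mem_alg {p : ℕ} {z : X.Cycles} (hz : X.IsCyc p z) : W.cl X z ∈ W.algSpan X :=
  Submodule.subset_span ⟨p, z, hz, rfl⟩

lemma one_mem_alg (X : 𝒱.Obj) : (1 : W.H X) ∈ W.algSpan X := by
  rw [← W.cl_fund X]
  exact W.cl_mem_alg X.V.fundCycle_mem

lemma mul_mem_alg {a b : W.H X} (ha : a ∈ W.algSpan X) (hb : b ∈ W.algSpan X) :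
    a * b ∈ W.algSpan X := by
  induction ha using Submodule.span_induction with
  | mem a ha =>
    obtain ⟨p, z, hz, rfl⟩ := ha
    induction hb using Submodule.span_induction with
    | mem b hb =>
      obtain ⟨q, y, hy, rfl⟩ := hb
      rw [← W.cl_mul]
      exact W.cl_mem_alg (ops.mul_mem hz hy)
    | zero => rw [mul_zero]; exact Submodule.zero_mem _
    | add x y _ _ hx hy => rw [mul_add]; exact Submodule.add_mem _ hx hy
    | smul c x _ hx => rw [mul_smul_comm]; exact Submodule.smul_mem _ _ hx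
  | zero => rw [zero_mul]; exact Submodule.zero_mem _
  | add x y _ _ hx hy => rw [add_mul]; exact Submodule.add_mem _ hx hy
  | smul c x _ hx => rw [smul_mul_assoc]; exact Submodule.smul_mem _ _ hx

lemma map_mem_alg (f : X ⟶ Y) {a : W.H Y} (ha : a ∈ W.algSpan Y) : W.map f a ∈ W.algSpan X := by
  induction ha using Submodule.span_induction with
  | mem a ha =>
    obtain ⟨p, z, hz, rfl⟩ := ha
    rw [← W.cl_pull]
    exact W.cl_mem_alg (ops.pull_mem f hz)
  | zero => rw [_root_.map_zero]; exact Submodule.zero_mem _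
  | add x y _ _ hx hy => rw [_root_.map_add]; exact Submodule.add_mem _ hx hy
  | smul c x _ hx => rw [map_smul]; exact Submodule.smul_mem _ _ hx

lemma push_mem_alg (f : X ⟶ Y) {a : W.H X} (ha : a ∈ W.algSpan X) :
    W.push f a ∈ W.algSpan Y := by
  induction ha using Submodule.span_induction with
  | mem a ha =>
    obtain ⟨p, z, hz, rfl⟩ := ha
    by_cases h : X.dim ≤ p + Y.dim
    · rw [← W.cl_push]
      exact W.cl_mem_alg (ops.push_mem f (q := p + Y.dim - X.dim) hz (by omega))
    · have h0 : W.push f (W.cl X z) = 0 := by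
        apply W.nondeg
        intro b
        rw [W.tr_push]
        refine W.gr_induction (p := fun b => W.tr X (W.cl X z * W.map f b) = 0) ?_ ?_ b
        · intro l b hb
          by_cases hl : 2 * Y.dim < l
          · rw [W.gr_eq_bot Y l hl, Submodule.mem_bot] at hb
            rw [hb, _root_.map_zero, mul_zero, _root_.map_zero]
          · exact W.tr_eq_zero (W.mul_mem (W.cl_mem hz) (W.map_mem f hb)) (by omega)
        · intro b b' hb hb'
          rw [_root_.map_add, mul_add, _root_.map_add, hb, hb', add_zero]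
      rw [h0]
      exact Submodule.zero_mem _
  | zero => rw [_root_.map_zero]; exact Submodule.zero_mem _
  | add x y _ _ hx hy => rw [_root_.map_add]; exact Submodule.add_mem _ hx hy
  | smul c x _ hx => rw [map_smul]; exact Submodule.smul_mem _ _ hx

/-- Algebraic classes are central. -/
lemma alg_comm {c : W.H X} (hc : c ∈ W.algSpan X) (a : W.H X) : c * a = a * c := by
  induction hc using Submodule.span_induction with
  | mem x hx =>
    obtain ⟨p, z, hz, rfl⟩ := hx
    exact W.even_comm (W.cl_mem hz) a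
  | zero => rw [zero_mul, mul_zero]
  | add x y _ _ hx hy => rw [add_mul, mul_add, hx, hy]
  | smul q x _ hx => rw [smul_mul_assoc, mul_smul_comm, hx]

/-- The numerically trivial combinations of algebraic classes. -/
def numTriv (X : 𝒱.Obj) : Submodule W.K (W.H X) where
  carrier := {z | z ∈ W.algSpan X ∧ ∀ w ∈ W.algSpan X, W.tr X (z * w) = 0}
  add_mem' := by
    rintro a b ⟨ha, ha'⟩ ⟨hb, hb'⟩
    refine ⟨Submodule.add_mem _ ha hb, fun w hw => ?_⟩
    rw [add_mul, _root_.map_add, ha' w hw, hb' w hw, add_zero]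
  zero_mem' := ⟨Submodule.zero_mem _, fun w _ => by rw [zero_mul, _root_.map_zero]⟩
  smul_mem' := by
    rintro c a ⟨ha, ha'⟩
    refine ⟨Submodule.smul_mem _ _ ha, fun w hw => ?_⟩
    rw [smul_mul_assoc, map_smul, ha' w hw, smul_zero]

lemma mem_numTriv {z : W.H X} :
    z ∈ W.numTriv X ↔ z ∈ W.algSpan X ∧ ∀ w ∈ W.algSpan X, W.tr X (z * w) = 0 := Iff.rfl

lemma mul_mem_num {z c : W.H X} (hz : z ∈ W.numTriv X) (hc : c ∈ W.algSpan X) :
    z * c ∈ W.numTriv X :=
  ⟨W.mul_mem_alg hz.1 hc, fun w hw => by rw [mul_assoc]; exact hz.2 _ (W.mul_mem_alg hc hw)⟩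

lemma push_mem_num (f : X ⟶ Y) {z : W.H X} (hz : z ∈ W.numTriv X) : W.push f z ∈ W.numTriv Y :=
  ⟨W.push_mem_alg f hz.1, fun w hw => by rw [W.tr_push]; exact hz.2 _ (W.map_mem_alg f hw)⟩

lemma map_mem_num (f : X ⟶ Y) {z : W.H Y} (hz : z ∈ W.numTriv Y) : W.map f z ∈ W.numTriv X :=
  ⟨W.map_mem_alg f hz.1, fun w hw => by
    rw [W.alg_comm (W.map_mem_alg f hz.1), ← W.tr_push, ← W.alg_comm hz.1]
    exact hz.2 _ (W.push_mem_alg f hw)⟩

end Coh

/-! ## Powers -/

/-- `P` with the projections `pr i` is a power of `X` as far as `W` is concerned. -/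
structure IsPw (W : Coh.{u, v} ops) (X P : 𝒱.Obj) {m : ℕ} (pr : Fin m → (P ⟶ X)) : Prop where
  tr_prod : ∀ a : Fin m → W.H X,
    W.tr P (List.ofFn fun i => W.map (pr i) (a i)).prod = ∏ i, W.tr X (a i)
  span : Submodule.span W.K
    {x | ∃ a : Fin m → W.H X, x = (List.ofFn fun i => W.map (pr i) (a i)).prod} = ⊤
  exists_map : ∀ (Y : 𝒱.Obj) (f : Fin m → (Y ⟶ X)), ∃ F : Y ⟶ P, ∀ i, F ≫ pr i = f i
  dim : P.dim = m * X.dim

/-- The multilinear form `x ↦ tr (z ∏ pr_i^* j (x i))` defined by a class on a power. -/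
noncomputable def frm (W : Coh.{u, v} ops) {X P : 𝒱.Obj} {m : ℕ} (pr : Fin m → (P ⟶ X))
    {V : Type v} [AddCommGroup V] [Module W.K V] (j : V →ₗ[W.K] W.H X) (z : W.H P) :
    MultilinearMap W.K (fun _ : Fin m => V) W.K :=
  (W.tr P ∘ₗ LinearMap.mulLeft W.K z).compMultilinearMap
    ((MultilinearMap.mkPiAlgebraFin W.K m (W.H P)).compLinearMap
      fun i => (W.map (pr i)).toLinearMap ∘ₗ j)

lemma frm_apply (W : Coh.{u, v} ops) {X P : 𝒱.Obj} {m : ℕ} (pr : Fin m → (P ⟶ X))
    {V : Type v} [AddCommGroup V] [Module W.K V] (j : V →ₗ[W.K] W.H X) (z : W.H P)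
    (x : Fin m → V) :
    frm W pr j z x = W.tr P (z * (List.ofFn fun i => W.map (pr i) (j (x i))).prod) := rfl

end Pool.Agent.Y150.KN
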