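import Pool.Agent.Y150.KN.Q1

/-!
# Filtrations and feasibility for spaces of forms (project KN, helper150)
-/

set_option autoImplicit false

namespace Pool.Agent.Y150.KN

open Matrix

universe v w

/-- The general form of the theorem in terms of representations: `V` is a representation of `Γ`
with a nondegenerate form `ψ` and `E` is an algebra of endomorphisms of `V` which is stable under
the adjunction with respect to `ψ`; exchanging the arguments of `ψ`, or letting a member of `Γ` act
on both arguments, amounts to applying an element of `E` to one argument; and no irreducible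
subrepresentation `U` of `V` satisfies `ψ (c x) y = 0` for all `c ∈ E` and `x, y ∈ U`. A space `S` of
multilinear forms on `V` which is stable under `Γ`, under `E` acting on one argument, and under the
exchange of the two halves of the arguments is zero if all complete contractions of the tensor
products of members of `S` vanish (`e'` is the dual basis of `e`). -/
def S_Q2 : Prop :=
  ∀ (K : Type v) [Field K] [CharZero K], (K →+* ℂ) →
    ∀ (V : Type v) [AddCommGroup V] [Module K V] (Γ : Type w) [Group Γ] (ρ : Representation K Γ V)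
      (E : Subalgebra K (Module.End K V)) (ψ : V →ₗ[K] V →ₗ[K] K) (n r : ℕ)
      (e e' : Module.Basis (Fin n) K V),
      (∀ i j, ψ (e i) (e' j) = if i = j then 1 else 0) →
      (∃ δ ∈ E, ∀ x y, ψ y x = ψ (δ x) y) →
      (∀ a ∈ E, ∃ a' ∈ E, ∀ x y, ψ (a x) y = ψ x (a' y)) →
      (∀ g, ∃ c ∈ E, ∀ x y, ψ (ρ g x) (ρ g y) = ψ (c x) y) →
      (∀ U, Stable ρ U → U ≠ ⊥ → (∀ U' ≤ U, Stable ρ U' → U' = ⊥ ∨ U' = U) →
        ∃ c ∈ E, ∃ x ∈ U, ∃ y ∈ U, ψ (c x) y ≠ 0) →
      ∀ S : Submodule K (MultilinearMap K (fun _ : Fin r ⊕ Fin r => V) K),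
        (∀ a ∈ E, ∀ f ∈ S, ∀ s,
          f.compLinearMap (Function.update (fun _ => LinearMap.id) s a) ∈ S) →
        (∀ g, ∀ f ∈ S, f.compLinearMap (fun _ => ρ g) ∈ S) →
        (∀ f ∈ S, f.domDomCongr (Equiv.sumComm (Fin r) (Fin r)) ∈ S) →
        (∀ k : ℕ, 0 < k → ∀ f : Fin k → MultilinearMap K (fun _ : Fin r ⊕ Fin r => V) K,
          (∀ t, f t ∈ S) → ∀ π : Equiv.Perm (Fin k × Fin r),
          ∑ I : Fin k × Fin r → Fin n,
            ∏ t, f t (Sum.elim (fun s => e (I (π (t, s)))) (fun s => e' (I (t, s)))) = 0) →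
        S = ⊥

section Fil

variable {L : Type v} [Field L] {n : ℕ}

/-- The steps of the filtration defined by a basis change and weights. -/
def fil (g : (Matrix (Fin n) (Fin n) L)ˣ) (w : Fin n → ℝ) (a : ℝ) : Submodule L (Fin n → L) where
  carrier := {x | ∀ i, ((g : Matrix (Fin n) (Fin n) L) *ᵥ x) i ≠ 0 → a ≤ w i}
  add_mem' := by
    intro x y hx hy i hi
    rw [Matrix.mulVec_add, Pi.add_apply] at hi
    by_cases h : ((g : Matrix (Fin n) (Fin n) L) *ᵥ x) i = 0
    · rw [h, zero_add] at hi
      exact hy i hi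
    · exact hx i h
  zero_mem' := by
    intro i hi
    rw [Matrix.mulVec_zero] at hi
    exact absurd rfl hi
  smul_mem' := by
    intro c x hx i hi
    rw [Matrix.mulVec_smul, Pi.smul_apply] at hi
    exact hx i (fun h => hi (by rw [h, smul_zero]))

variable {g g₂ : (Matrix (Fin n) (Fin n) L)ˣ} {w w₂ : Fin n → ℝ} {a : ℝ} {x : Fin n → L}

lemma mem_fil : x ∈ fil g w a ↔ ∀ i, ((g : Matrix (Fin n) (Fin n) L) *ᵥ x) i ≠ 0 → a ≤ w i :=
  Iff.rfl

lemma fil_le (h : ∀ j i, ((g₂ * g⁻¹ : (Matrix (Fin n) (Fin n) L)ˣ) : Matrix (Fin n) (Fin n) L)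
    j i ≠ 0 → w i ≤ w₂ j) : fil g w a ≤ fil g₂ w₂ a := by
  intro x hx j hj
  have h1 : (g₂ : Matrix (Fin n) (Fin n) L) *ᵥ x =
      ((g₂ * g⁻¹ : (Matrix (Fin n) (Fin n) L)ˣ) : Matrix (Fin n) (Fin n) L) *ᵥ
        ((g : Matrix (Fin n) (Fin n) L) *ᵥ x) := by
    rw [Matrix.mulVec_mulVec, ← Units.val_mul, inv_mul_cancel_right]
  rw [h1, Matrix.mulVec, dotProduct] at hj
  obtain ⟨i, -, hi⟩ := Finset.exists_ne_zero_of_sum_ne_zero hj
  exact (hx i (right_ne_zero_of_mul hi)).trans (h j i (left_ne_zero_of_mul hi))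

lemma mem_fil_mul {h : (Matrix (Fin n) (Fin n) L)ˣ} :
    x ∈ fil (g * h) w a ↔ (h : Matrix (Fin n) (Fin n) L) *ᵥ x ∈ fil g w a := by
  rw [mem_fil, mem_fil, Matrix.mulVec_mulVec, Units.val_mul]

/-- The columns of the inverse are in the filtration. -/
lemma col_mem (j : Fin n) :
    ((g⁻¹ : (Matrix (Fin n) (Fin n) L)ˣ) : Matrix (Fin n) (Fin n) L) *ᵥ Pi.single j 1 ∈
      fil g w (w j) := by
  intro i hi
  rw [Matrix.mulVec_mulVec, ← Units.val_mul, mul_inv_cancel, Units.val_one, Matrix.one_mulVec]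
    at hi
  by_cases h : i = j
  · rw [h]
  · exact absurd (Pi.single_eq_of_ne h _) hi

lemma col_ne (j : Fin n) :
    ((g⁻¹ : (Matrix (Fin n) (Fin n) L)ˣ) : Matrix (Fin n) (Fin n) L) *ᵥ Pi.single j 1 ≠ 0 := by
  intro h
  have h1 := congrArg (fun x => (g : Matrix (Fin n) (Fin n) L) *ᵥ x) h
  simp only [Matrix.mulVec_mulVec, ← Units.val_mul, mul_inv_cancel, Units.val_one,
    Matrix.one_mulVec, Matrix.mulVec_zero] at h1
  have h2 := congrFun h1 j
  rw [Pi.single_eq_same] at h2
  exact one_ne_zero h2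

/-- If all steps of the filtration with positive index vanish then no weight is positive. -/
lemma weight_le (h : ∀ a, 0 < a → fil g w a = ⊥) (j : Fin n) : w j ≤ 0 := by
  by_contra hj
  push Not at hj
  have h1 := col_mem (g := g) (w := w) j
  rw [h _ hj, Submodule.mem_bot] at h1
  exact col_ne j h1

end Fil

section FeasS

variable {K : Type v} [Field K] {V : Type v} [AddCommGroup V] [Module K V] {n r : ℕ}
  {e e' : Module.Basis (Fin n) K V} {L : Type v} [Field L] [Algebra K L]
  {S : Submodule K (MultilinearMap K (fun _ : Fin r ⊕ Fin r => V) K)}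

/-- Feasibility for all members of a space of forms. -/
def FeasS (e e' : Module.Basis (Fin n) K V) (L : Type v) [Field L] [Algebra K L]
    (S : Submodule K (MultilinearMap K (fun _ : Fin r ⊕ Fin r => V) K))
    (g : (Matrix (Fin n) (Fin n) L)ˣ) (w : Fin n → ℝ) : Prop :=
  ∀ f ∈ S, ∀ J I, (tp (Fin r) (g : Matrix (Fin n) (Fin n) L) *
    (zf e e' f).map (algebraMap K L) *
    tp (Fin r) ((g⁻¹ : (Matrix (Fin n) (Fin n) L)ˣ) : Matrix (Fin n) (Fin n) L)) J I ≠ 0 →
      ∑ s, w (I s) + 1 ≤ ∑ s, w (J s)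

lemma feas_iff {τ : Type} [Fintype τ] (b : Module.Basis τ K S)
    (g : (Matrix (Fin n) (Fin n) L)ˣ) (w : Fin n → ℝ) :
    Feas (fun t => (zf e e' (b t : MultilinearMap K (fun _ : Fin r ⊕ Fin r => V) K)).map
      (algebraMap K L)) g w ↔ FeasS e e' L S g w := by
  constructor
  · intro h f hf J I hne
    have h1 : (zf e e' f).map (algebraMap K L) = ∑ t, algebraMap K L (b.repr ⟨f, hf⟩ t) •
        (zf e e' (b t : MultilinearMap K (fun _ : Fin r ⊕ Fin r => V) K)).map
          (algebraMap K L) := by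
      have h2 : f = ∑ t, b.repr ⟨f, hf⟩ t •
          (b t : MultilinearMap K (fun _ : Fin r ⊕ Fin r => V) K) := by
        have h3 := congrArg Subtype.val (b.sum_repr ⟨f, hf⟩)
        rw [Submodule.coe_sum] at h3
        exact h3.symm
      ext J I
      conv_lhs => rw [h2]
      rw [Matrix.map_apply, zf_apply, _root_.sum_apply, map_sum, Matrix.sum_apply]
      refine Finset.sum_congr rfl (fun t _ => ?_)
      rw [_root_.smul_apply, smul_eq_mul, map_mul, Matrix.smul_apply, Matrix.map_apply,
        zf_apply, smul_eq_mul]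
    rw [h1, Finset.mul_sum, Finset.sum_mul, Matrix.sum_apply] at hne
    obtain ⟨t, -, ht⟩ := Finset.exists_ne_zero_of_sum_ne_zero hne
    rw [Matrix.mul_smul, Matrix.smul_mul, Matrix.smul_apply, smul_eq_mul] at ht
    exact h t J I (right_ne_zero_of_mul ht)
  · intro h t J I hne
    exact h _ (b t).2 J I hne

/-- Substitutions which preserve the space of forms. -/
lemma feasS_mul {g M : (Matrix (Fin n) (Fin n) L)ˣ} {w : Fin n → ℝ} (h : FeasS e e' L S g w)
    (hM : ∀ f ∈ S, ∃ f' ∈ S, tp (Fin r) (M : Matrix (Fin n) (Fin n) L) *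
      (zf e e' f).map (algebraMap K L) *
      tp (Fin r) ((M⁻¹ : (Matrix (Fin n) (Fin n) L)ˣ) : Matrix (Fin n) (Fin n) L) =
        (zf e e' f').map (algebraMap K L)) : FeasS e e' L S (g * M) w := by
  intro f hf J I hne
  obtain ⟨f', hf', h1⟩ := hM f hf
  apply h f' hf' J I
  rw [← h1]
  rw [_root_.mul_inv_rev, Units.val_mul, Units.val_mul, tp_mul, tp_mul] at hne
  simpa only [Matrix.mul_assoc] using hne

lemma comp_mem {E : Subalgebra K (Module.End K V)}
    (hSE : ∀ a ∈ E, ∀ f ∈ S, ∀ s,
      f.compLinearMap (Function.update (fun _ => LinearMap.id) s a) ∈ S)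
    {A : Fin r ⊕ Fin r → Module.End K V} (hA : ∀ i, A i ∈ E)
    {f : MultilinearMap K (fun _ : Fin r ⊕ Fin r => V) K} (hf : f ∈ S) :
    f.compLinearMap A ∈ S := by
  classical
  have key : ∀ T : Finset (Fin r ⊕ Fin r),
      f.compLinearMap (fun i => if i ∈ T then A i else LinearMap.id) ∈ S := by
    intro T
    induction T using Finset.induction_on with
    | empty =>
      have : f.compLinearMap (fun i => if i ∈ (∅ : Finset (Fin r ⊕ Fin r)) then A i
          else LinearMap.id) = f := by
        ext x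
        simp
      rw [this]
      exact hf
    | insert s T hs ih =>
      have h1 := hSE (A s) (hA s) _ ih s
      have h2 : (f.compLinearMap (fun i => if i ∈ T then A i else LinearMap.id)).compLinearMap
          (Function.update (fun _ => LinearMap.id) s (A s)) =
          f.compLinearMap (fun i => if i ∈ insert s T then A i else LinearMap.id) := by
        ext x
        simp only [MultilinearMap.compLinearMap_apply]
        congr 1
        funext i
        by_cases h : i = s
        · subst h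
          simp [hs]
        · simp [h]
      rwa [h2] at h1
  have h3 := key Finset.univ
  simpa using h3

end FeasS

section Dual

variable {K : Type v} [Field K] {V : Type v} [AddCommGroup V] [Module K V] {n : ℕ}
  {e e' : Module.Basis (Fin n) K V} {ψ : V →ₗ[K] V →ₗ[K] K}
  (hee : ∀ i j, ψ (e i) (e' j) = if i = j then 1 else 0)

include hee

lemma repr_e (x : V) (j : Fin n) : e.repr x j = ψ x (e' j) := by
  classical
  conv_rhs => rw [← e.sum_repr x]
  rw [map_sum, LinearMap.sum_apply]
  simp [hee]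

lemma repr_e' (y : V) (i : Fin n) : e'.repr y i = ψ (e i) y := by
  classical
  conv_rhs => rw [← e'.sum_repr y]
  rw [map_sum]
  simp [hee]

lemma toMatrix_adj {a a' : Module.End K V} (h : ∀ x y, ψ (a x) y = ψ x (a' y)) :
    (LinearMap.toMatrix e' e' a')ᵀ = LinearMap.toMatrix e e a := by
  ext i j
  rw [Matrix.transpose_apply, LinearMap.toMatrix_apply, LinearMap.toMatrix_apply,
    repr_e hee, repr_e' hee, h]

lemma psi_nondeg {x : V} (h : ∀ y, ψ y x = 0) : x = 0 := by
  apply e'.repr.injective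
  ext i
  rw [repr_e' hee, h, map_zero, Finsupp.zero_apply]

lemma psi_nondeg' {x : V} (h : ∀ y, ψ x y = 0) : x = 0 := by
  apply e.repr.injective
  ext i
  rw [repr_e hee, h, map_zero, Finsupp.zero_apply]

end Dual

section Unit

variable {K : Type v} [Field K] {V : Type v} [AddCommGroup V] [Module K V]
  [FiniteDimensional K V] {E : Subalgebra K (Module.End K V)}

/-- The inverse of an injective member of an algebra of endomorphisms. -/
lemma exists_inv {a : Module.End K V} (ha : a ∈ E) (hinj : Function.Injective a) :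
    ∃ b ∈ E, a * b = 1 ∧ b * a = 1 := by
  let f : E →ₗ[K] E :=
    { toFun := fun x => ⟨a * x, E.mul_mem ha x.2⟩
      map_add' := by
        intro x y
        ext v
        simp
      map_smul' := by
        intro c x
        ext v
        simp }
  have hf : Function.Injective f := by
    intro x y hxy
    ext v
    have h1 := congrArg (fun z : E => (z : Module.End K V) v) hxy
    exact hinj h1
  have hfd : FiniteDimensional K E := inferInstanceAs (FiniteDimensional K E.toSubmodule)
  obtain ⟨b, hb⟩ := (LinearMap.injective_iff_surjective (f := f)).1 hf 1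
  have h1 : a * (b : Module.End K V) = 1 := congrArg Subtype.val hb
  refine ⟨b, b.2, h1, ?_⟩
  ext v
  apply hinj
  have h2 := congrArg (fun z : Module.End K V => z (a v)) h1
  simpa using h2

lemma exists_shift [CharZero K] (a : Module.End K V) :
    ∃ s : K, Function.Injective (a + s • (1 : Module.End K V)) := by
  have h1 : (spectrum K a).Finite := Module.End.finite_spectrum a
  obtain ⟨s, hs⟩ := (Set.infinite_univ (α := K)).exists_notMem_finite h1
  refine ⟨-s, ?_⟩
  have h2 := hs.2
  rw [spectrum.notMem_iff] at h2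
  have h3 : a + (-s) • (1 : Module.End K V) = -(algebraMap K (Module.End K V) s - a) := by
    rw [Algebra.algebraMap_eq_smul_one, neg_smul]
    abel
  rw [h3]
  obtain ⟨u, hu⟩ := h2.neg
  rw [← hu]
  intro x y hxy
  have h4 := congrArg (fun z => (u⁻¹ : (Module.End K V)ˣ).1 z) hxy
  have h5 : ∀ z, (u⁻¹ : (Module.End K V)ˣ).1 ((u : Module.End K V) z) = z := by
    intro z
    rw [← Module.End.mul_apply]
    simp
  simpa [h5] using h4

/-- Existence of irreducible subrepresentations. -/
lemma exists_irred {Γ : Type w} [Group Γ] (ρ : Representation K Γ V) {F : Submodule K V}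
    (hF : Stable ρ F) (hne : F ≠ ⊥) : ∃ U ≤ F, Stable ρ U ∧ U ≠ ⊥ ∧
      ∀ U' ≤ U, Stable ρ U' → U' = ⊥ ∨ U' = U := by
  classical
  have h1 : {U : Submodule K V | U ≤ F ∧ Stable ρ U ∧ U ≠ ⊥}.Nonempty := ⟨F, le_rfl, hF, hne⟩
  obtain ⟨U, hU, hmin⟩ := WellFounded.has_min (wellFounded_lt (α := Submodule K V)) _ h1
  refine ⟨U, hU.1, hU.2.1, hU.2.2, fun U' hU' hst => ?_⟩
  by_contra hcon
  push Not at hcon
  exact hmin U' ⟨hU'.trans hU.1, hst, hcon.1⟩ (lt_of_le_of_ne hU' hcon.2)

end Unit

end Pool.Agent.Y150.KN
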