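import Pool.Agent.Y150.KN.Stm3
import Pool.Agent.Y150.KN.Q2

/-!
# Numerically trivial forms vanish (project KN, helper150)
-/

set_option autoImplicit false

open CategoryTheory AlgebraicGeometry

namespace Pool.Agent.Y150.KN

universe u v w

open Pool.Agent.H914 VarClass Obj

section

variable {k : Type u} [Field k] {𝒱 : VarClass k} {ops : CycleOps 𝒱} (W : Coh.{u, v} ops)
  {X P : 𝒱.Obj} {m : ℕ} (pr : Fin m → (P ⟶ X)) {V : Type v} [AddCommGroup V] [Module W.K V]
  (j : V →ₗ[W.K] W.H X)

lemma frm_add (z z' : W.H P) : frm W pr j (z + z') = frm W pr j z + frm W pr j z' := by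
  ext x
  rw [frm_apply, _root_.add_apply, frm_apply, frm_apply, add_mul, _root_.map_add]

lemma frm_smul (c : W.K) (z : W.H P) : frm W pr j (c • z) = c • frm W pr j z := by
  ext x
  rw [frm_apply, _root_.smul_apply, frm_apply, smul_mul_assoc, map_smul]

lemma frm_zero : frm W pr j 0 = 0 := by
  ext x
  rw [frm_apply, zero_mul, _root_.map_zero]
  rfl

/-- Iterated action on the factors. -/
lemma iter_slot (hslot : S_slot.{u, v}) (hP : IsPw W X P pr)
    {E : Subalgebra W.K (Module.End W.K V)}
    (hE : ∀ a ∈ E, ∃ γ ∈ W.algSpan (X.prod X), ∀ x,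
      W.push (fst X X) (γ * W.map (snd X X) (j x)) = j (a x))
    (T : Fin m → Module.End W.K V) (hT : ∀ i, T i ∈ E) {z : W.H P} (hz : z ∈ W.numTriv P) :
    ∃ z' ∈ W.numTriv P, (frm W pr j z).compLinearMap T = frm W pr j z' := by
  classical
  have key : ∀ s : Finset (Fin m), ∃ z' ∈ W.numTriv P,
      (frm W pr j z).compLinearMap (fun i => if i ∈ s then T i else LinearMap.id) =
        frm W pr j z' := by
    intro s
    induction s using Finset.induction_on with
    | empty =>
      refine ⟨z, hz, ?_⟩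
      ext x
      simp
    | insert a s ha ih =>
      obtain ⟨z', hz', h1⟩ := ih
      obtain ⟨γ, hγ, h2⟩ := hE (T a) (hT a)
      obtain ⟨z'', hz'', h3⟩ := hslot W X P pr hP V j γ hγ (T a) h2 a z' hz'
      refine ⟨z'', hz'', ?_⟩
      rw [← h3, ← h1]
      ext x
      simp only [MultilinearMap.compLinearMap_apply]
      congr 1
      funext i
      by_cases h : i = a
      · subst h
        simp [ha]
      · simp [h]
  obtain ⟨z', hz', h⟩ := key Finset.univ
  refine ⟨z', hz', ?_⟩
  rw [← h]
  simp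

end

/-- Numerically trivial classes on powers define the zero form. -/
theorem vanish (hQ : S_Q2.{v, w}) (hslot : S_slot.{u, v}) (hgam : S_gam.{u, v, w})
    (hswap : S_swap.{u, v}) (hnull : S_null.{u, v})
    {k : Type u} [Field k] {𝒱 : VarClass k} {ops : CycleOps 𝒱} (W : Coh.{u, v} ops)
    (σ : W.K →+* ℂ) {Γ : Type w} [Group Γ] (A : GalAction W Γ) (X : 𝒱.Obj)
    (V : Type v) [AddCommGroup V] [Module W.K V] (j : V →ₗ[W.K] W.H X)
    (ρ : Representation W.K Γ V) (E : Subalgebra W.K (Module.End W.K V))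
    (ψ : V →ₗ[W.K] V →ₗ[W.K] W.K) (n : ℕ) (e e' : Module.Basis (Fin n) W.K V)
    (ev od : Module.End W.K V) (hev : ev ∈ E) (hod : od ∈ E) (hsum : ev + od = 1)
    (hj0 : ∀ x, j (ev x) ∈ par W X 0) (hj1 : ∀ x, j (od x) ∈ par W X 1)
    (hhom : ∀ i, (ev (e i) = e i ∧ od (e i) = 0 ∧ ev (e' i) = e' i ∧ od (e' i) = 0) ∨
      (ev (e i) = 0 ∧ od (e i) = e i ∧ ev (e' i) = 0 ∧ od (e' i) = e' i))
    (hee : ∀ i j, ψ (e i) (e' j) = if i = j then 1 else 0)
    (hδ : ∃ δ ∈ E, ∀ x y, ψ y x = ψ (δ x) y)
    (hadj : ∀ a ∈ E, ∃ a' ∈ E, ∀ x y, ψ (a x) y = ψ x (a' y))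
    (hc : ∀ g, ∃ c ∈ E, ∀ x y, ψ (ρ g x) (ρ g y) = ψ (c x) y)
    (hSD : ∀ U, Stable ρ U → U ≠ ⊥ → (∀ U' ≤ U, Stable ρ U' → U' = ⊥ ∨ U' = U) →
      ∃ c ∈ E, ∃ x ∈ U, ∃ y ∈ U, ψ (c x) y ≠ 0)
    (hE : ∀ a ∈ E, ∃ γ ∈ W.algSpan (X.prod X), ∀ x,
      W.push (fst X X) (γ * W.map (snd X X) (j x)) = j (a x))
    (hΓ : ∀ g, ∃ c : W.K, c ≠ 0 ∧ ∀ x, A.act X g (j x) = c • j (ρ g x))
    (hdiag : ∑ i, W.map (fst X X) (j (e i)) * W.map (snd X X) (j (e' i)) ∈
      W.algSpan (X.prod X))
    {r : ℕ} {P : 𝒱.Obj} {pr : Fin (r + r) → (P ⟶ X)} (hP : IsPw W X P pr)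
    {z : W.H P} (hz : z ∈ W.numTriv P) : frm W pr j z = 0 := by
  classical
  -- the space of forms
  let S : Submodule W.K (MultilinearMap W.K (fun _ : Fin r ⊕ Fin r => V) W.K) :=
    { carrier := {f | ∃ z ∈ W.numTriv P, f = (frm W pr j z).domDomCongr finSumFinEquiv.symm}
      add_mem' := by
        rintro _ _ ⟨z, hz, rfl⟩ ⟨z', hz', rfl⟩
        refine ⟨z + z', Submodule.add_mem _ hz hz', ?_⟩
        rw [frm_add]
        rfl
      zero_mem' := ⟨0, Submodule.zero_mem _, by rw [frm_zero]; rfl⟩
      smul_mem' := by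
        rintro c _ ⟨z, hz, rfl⟩
        refine ⟨c • z, Submodule.smul_mem _ _ hz, ?_⟩
        rw [frm_smul]
        rfl }
  have hS : ∀ f, f ∈ S ↔ ∃ z ∈ W.numTriv P,
      f = (frm W pr j z).domDomCongr finSumFinEquiv.symm := fun f => Iff.rfl
  have hev2 : ∀ x, ev (ev x) = ev x := by
    intro x
    have h1 : ev * ev = ev := by
      apply e.ext
      intro i
      rw [Module.End.mul_apply]
      rcases hhom i with h | h
      · rw [h.1, h.1]
      · rw [h.1, _root_.map_zero]
    exact congrArg (fun f : Module.End W.K V => f x) h1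
  have hod2 : ∀ x, od (od x) = od x := by
    intro x
    have h1 : od * od = od := by
      apply e.ext
      intro i
      rw [Module.End.mul_apply]
      rcases hhom i with h | h
      · rw [h.2.1, _root_.map_zero]
      · rw [h.2.1, h.2.1]
    exact congrArg (fun f : Module.End W.K V => f x) h1
  -- the decomposition into homogeneous forms
  let Ty : Finset (Fin (r + r)) → Fin (r + r) → Module.End W.K V :=
    fun s i => if i ∈ s then ev else od
  have hTy : ∀ s i, Ty s i = ev ∨ Ty s i = od := by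
    intro s i
    by_cases h : i ∈ s
    · exact Or.inl (if_pos h)
    · exact Or.inr (if_neg h)
  have hTyE : ∀ s i, Ty s i ∈ E := by
    intro s i
    rcases hTy s i with h | h
    · rw [h]; exact hev
    · rw [h]; exact hod
  have hTy2 : ∀ s i x, Ty s i (Ty s i x) = Ty s i x := by
    intro s i x
    rcases hTy s i with h | h
    · rw [h]; exact hev2 x
    · rw [h]; exact hod2 x
  have hdec : ∀ z, ∀ x, frm W pr j z x = ∑ s, (frm W pr j z).compLinearMap (Ty s) x := by
    intro z x
    have h1 : x = (fun i => ev (x i)) + (fun i => od (x i)) := by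
      funext i
      rw [Pi.add_apply, ← LinearMap.add_apply, hsum]
      rfl
    conv_lhs => rw [h1]
    rw [MultilinearMap.map_add_univ]
    refine Finset.sum_congr rfl (fun s _ => ?_)
    rw [MultilinearMap.compLinearMap_apply]
    congr 1
    funext i
    by_cases h : i ∈ s
    · rw [Finset.piecewise_eq_of_mem _ _ _ h]
      simp [Ty, h]
    · rw [Finset.piecewise_eq_of_notMem _ _ _ h]
      simp [Ty, h]
  have hbot : S = ⊥ := by
    refine hQ W.K σ V Γ ρ E ψ n r e e' hee hδ hadj hc hSD S ?_ ?_ ?_ ?_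
    · -- slots
      intro a ha f hf s
      obtain ⟨z, hz, rfl⟩ := (hS f).1 hf
      obtain ⟨γ, hγ, h2⟩ := hE a ha
      obtain ⟨z', hz', h3⟩ := hslot W X P pr hP V j γ hγ a h2 (finSumFinEquiv s) z hz
      refine (hS _).2 ⟨z', hz', ?_⟩
      rw [← h3]
      ext x
      simp only [MultilinearMap.compLinearMap_apply, MultilinearMap.domDomCongr_apply]
      congr 1
      funext i
      by_cases h : i = finSumFinEquiv s
      · subst h
        simp
      · have h' : finSumFinEquiv.symm i ≠ s := by
          intro h'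
          exact h (by rw [← h', Equiv.apply_symm_apply])
        rw [Function.update_of_ne h', Function.update_of_ne h]
    · -- the group
      intro g f hf
      obtain ⟨z, hz, rfl⟩ := (hS f).1 hf
      obtain ⟨c, hc0, h1⟩ := hΓ g
      obtain ⟨z', hz', h3⟩ := hgam W A X P pr hP V j g (ρ g) c hc0 h1 z hz
      refine (hS _).2 ⟨z', hz', ?_⟩
      rw [← h3]
      rfl
    · -- the exchange of the two halves
      intro f hf
      obtain ⟨z, hz, rfl⟩ := (hS f).1 hf
      have h1 := hswap W X P pr hP V j ev od hsum hj0 hj1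
        (finSumFinEquiv.symm.trans ((Equiv.sumComm (Fin r) (Fin r)).trans finSumFinEquiv)) z hz
      have h2 : ∀ g ∈ Submodule.span W.K {f | ∃ z' ∈ W.numTriv P,
          ∃ T : Fin (r + r) → Module.End W.K V,
            (∀ i, T i = ev ∨ T i = od) ∧ f = (frm W pr j z').compLinearMap T},
          ∃ z' ∈ W.numTriv P, g = frm W pr j z' := by
        intro g hg
        induction hg using Submodule.span_induction with
        | mem g hg =>
          obtain ⟨z', hz', T, hT, rfl⟩ := hg
          obtain ⟨z'', hz'', h3⟩ := iter_slot W pr j hslot hP hE T (fun i => by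
            rcases hT i with h | h
            · rw [h]; exact hev
            · rw [h]; exact hod) hz'
          exact ⟨z'', hz'', h3⟩
        | zero => exact ⟨0, Submodule.zero_mem _, (frm_zero W pr j).symm⟩
        | add x y _ _ hx hy =>
          obtain ⟨z1, hz1, rfl⟩ := hx
          obtain ⟨z2, hz2, rfl⟩ := hy
          exact ⟨z1 + z2, Submodule.add_mem _ hz1 hz2, (frm_add W pr j z1 z2).symm⟩
        | smul c x _ hx =>
          obtain ⟨z1, hz1, rfl⟩ := hx
          exact ⟨c • z1, Submodule.smul_mem _ _ hz1, (frm_smul W pr j c z1).symm⟩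
      obtain ⟨z', hz', h3⟩ := h2 _ h1
      refine (hS _).2 ⟨z', hz', ?_⟩
      rw [← h3]
      ext x
      simp only [MultilinearMap.domDomCongr_apply]
      congr 1
      funext i
      exact (congrArg x (Equiv.symm_apply_apply finSumFinEquiv _)).symm
    · -- contractions
      intro l hl f hf π
      have h1 : ∀ t, ∃ z ∈ W.numTriv P, f t = (frm W pr j z).domDomCongr finSumFinEquiv.symm :=
        fun t => (hS _).1 (hf t)
      choose z hz hfz using h1
      have h2 : ∀ t s, ∃ z' ∈ W.numTriv P,
          (frm W pr j (z t)).compLinearMap (Ty s) = frm W pr j z' := fun t s =>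
        iter_slot W pr j hslot hP hE (Ty s) (hTyE s) (hz t)
      choose z' hz' hzz' using h2
      have h3 : ∀ I : Fin l × Fin r → Fin n, ∏ t, f t (Sum.elim (fun s => e (I (π (t, s))))
          (fun s => e' (I (t, s)))) = ∑ q : Fin l → Finset (Fin (r + r)), ∏ t,
            frm W pr j (z' t (q t)) (fun i =>
              Sum.elim (fun s => e (I (π (t, s)))) (fun s => e' (I (t, s)))
                (finSumFinEquiv.symm i)) := by
        intro I
        have h4 := Finset.prod_univ_sum
          (fun _ : Fin l => (Finset.univ : Finset (Finset (Fin (r + r)))))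
          (fun t s => frm W pr j (z' t s) (fun i =>
              Sum.elim (fun s => e (I (π (t, s)))) (fun s => e' (I (t, s)))
                (finSumFinEquiv.symm i)))
        rw [Fintype.piFinset_univ] at h4
        rw [← h4]
        refine Finset.prod_congr rfl (fun t _ => ?_)
        rw [hfz, MultilinearMap.domDomCongr_apply, hdec]
        exact Finset.sum_congr rfl (fun s _ => by rw [hzz'])
      rw [Finset.sum_congr rfl (fun I _ => h3 I), Finset.sum_comm]
      refine Finset.sum_eq_zero (fun q _ => ?_)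
      refine hnull W X P pr hP V j ev od hsum hj0 hj1 n e e' hhom hdiag l hl
        (fun t => z' t (q t)) (fun t => hz' t (q t)) (fun t => Ty (q t)) (fun t => hTy (q t))
        ?_ π
      intro t
      rw [← hzz']
      ext x
      simp only [MultilinearMap.compLinearMap_apply]
      congr 1
      funext i
      exact hTy2 _ _ _
  have h1 : (frm W pr j z).domDomCongr finSumFinEquiv.symm ∈ S := (hS _).2 ⟨z, hz, rfl⟩
  rw [hbot, Submodule.mem_bot] at h1
  ext x
  have h2 := congrArg (fun f => f (fun i => x (finSumFinEquiv i))) h1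
  simp only [MultilinearMap.domDomCongr_apply] at h2
  have h3 : (fun i => x (finSumFinEquiv (finSumFinEquiv.symm i))) = x :=
    funext fun i => congrArg x (Equiv.apply_symm_apply finSumFinEquiv i)
  rw [h3] at h2
  exact h2

end Pool.Agent.Y150.KN
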