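import Pool.Agent.Y150.KN.Stm2

/-!
# Matrices of multilinear forms (project KN, helper150)
-/

set_option autoImplicit false

namespace Pool.Agent.Y150.KN

open Matrix

universe v w

section

variable {K : Type v} [Field K] {V : Type v} [AddCommGroup V] [Module K V] {n r : ℕ}

/-- The matrix of a multilinear form in `r + r` variables. -/
noncomputable def zf (e e' : Module.Basis (Fin n) K V) (f : MultilinearMap K (fun _ : Fin r ⊕ Fin r => V) K) :
    Matrix (Fin r → Fin n) (Fin r → Fin n) K :=
  Matrix.of fun J I => f (Sum.elim (fun s => e (I s)) (fun s => e' (J s)))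

variable {e e' : Module.Basis (Fin n) K V} {f : MultilinearMap K (fun _ : Fin r ⊕ Fin r => V) K}

lemma zf_apply (J I : Fin r → Fin n) :
    zf e e' f J I = f (Sum.elim (fun s => e (I s)) (fun s => e' (J s))) := rfl

lemma zf_add (f g : MultilinearMap K (fun _ : Fin r ⊕ Fin r => V) K) :
    zf e e' (f + g) = zf e e' f + zf e e' g := rfl

lemma zf_smul (c : K) (f : MultilinearMap K (fun _ : Fin r ⊕ Fin r => V) K) :
    zf e e' (c • f) = c • zf e e' f := rfl

/-- Expansion of a multilinear form in coordinates. -/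
lemma expand (X Y : Fin r → V) :
    f (Sum.elim X Y) = ∑ M : Fin r → Fin n, ∑ N : Fin r → Fin n,
      (∏ s, e'.repr (Y s) (M s)) * zf e e' f M N * ∏ s, e.repr (X s) (N s) := by
  classical
  have h1 : Sum.elim X Y = fun i : Fin r ⊕ Fin r => ∑ k : Fin n,
      (Sum.elim (fun s k => e.repr (X s) k) (fun s k => e'.repr (Y s) k) i k : K) •
        (Sum.elim (fun _ => (e : Fin n → V)) (fun _ => (e' : Fin n → V)) i k : V) := by
    funext i
    rcases i with s | s
    · exact (e.sum_repr (X s)).symm
    · exact (e'.sum_repr (Y s)).symm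
  rw [h1, MultilinearMap.map_sum]
  have h2 : ∀ q : Fin r ⊕ Fin r → Fin n,
      f (fun i => (Sum.elim (fun s k => e.repr (X s) k) (fun s k => e'.repr (Y s) k) i (q i) : K) •
        (Sum.elim (fun _ => (e : Fin n → V)) (fun _ => (e' : Fin n → V)) i (q i) : V)) =
      (∏ s, e'.repr (Y s) (q (Sum.inr s))) * zf e e' f (fun s => q (Sum.inr s))
        (fun s => q (Sum.inl s)) * ∏ s, e.repr (X s) (q (Sum.inl s)) := by
    intro q
    rw [MultilinearMap.map_smul_univ, Fintype.prod_sum_type, smul_eq_mul, zf_apply]
    simp only [Sum.elim_inl, Sum.elim_inr]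
    have h3 : (fun i => (Sum.elim (fun _ => (e : Fin n → V)) (fun _ => (e' : Fin n → V)) i (q i) :
        V)) = Sum.elim (fun s => e (q (Sum.inl s))) (fun s => e' (q (Sum.inr s))) := by
      funext i
      rcases i with s | s <;> rfl
    rw [h3]
    ring
  rw [Finset.sum_congr rfl (fun q _ => h2 q)]
  refine (Fintype.sum_equiv (Equiv.sumArrowEquivProdArrow (Fin r) (Fin r) (Fin n)) _
    (fun p => (∏ s, e'.repr (Y s) (p.2 s)) * zf e e' f p.2 p.1 *
      ∏ s, e.repr (X s) (p.1 s)) (fun q => rfl)).trans ?_
  exact Fintype.sum_prod_type_right _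

/-- The matrix of a form after linear substitutions. -/
lemma zf_comp (a a' : Module.End K V) :
    zf e e' (f.compLinearMap (Sum.elim (fun _ => a) (fun _ => a'))) =
      tp (Fin r) (LinearMap.toMatrix e' e' a')ᵀ * zf e e' f * tp (Fin r) (LinearMap.toMatrix e e a)
      := by
  ext J I
  rw [zf_apply, MultilinearMap.compLinearMap_apply]
  have h1 : (fun i : Fin r ⊕ Fin r => (Sum.elim (fun _ => a) (fun _ => a') i : Module.End K V)
      ((Sum.elim (fun s => e (I s)) (fun s => e' (J s)) i : V))) =
      Sum.elim (fun s => a (e (I s))) (fun s => a' (e' (J s))) := by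
    funext i
    rcases i with s | s <;> rfl
  rw [h1, expand (e := e) (e' := e'), Finset.sum_comm]
  simp only [Matrix.mul_apply, tp_apply, Matrix.transpose_apply, LinearMap.toMatrix_apply,
    Finset.sum_mul]

/-- The matrix of a form after the exchange of the two halves. -/
lemma zf_swap : zf e e' (f.domDomCongr (Equiv.sumComm (Fin r) (Fin r))) =
    tp (Fin r) (e.toMatrix e')ᵀ * (zf e e' f)ᵀ * tp (Fin r) (e'.toMatrix e) := by
  ext J I
  rw [zf_apply, MultilinearMap.domDomCongr_apply]
  have h1 : (fun i : Fin r ⊕ Fin r => (Sum.elim (fun s => e (I s)) (fun s => e' (J s))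
      (Equiv.sumComm (Fin r) (Fin r) i) : V)) =
      Sum.elim (fun s => e' (J s)) (fun s => e (I s)) := by
    funext i
    rcases i with s | s <;> rfl
  rw [h1, expand (e := e) (e' := e')]
  simp only [Matrix.mul_apply, tp_apply, Matrix.transpose_apply, Module.Basis.toMatrix_apply,
    Finset.sum_mul]
  refine Finset.sum_congr rfl (fun M _ => Finset.sum_congr rfl (fun N _ => ?_))
  ring

lemma zf_eq_zero (h : zf e e' f = 0) : f = 0 := by
  ext x
  have h1 : x = Sum.elim (fun s => x (Sum.inl s)) (fun s => x (Sum.inr s)) := by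
    funext i
    rcases i with s | s <;> rfl
  rw [h1, expand (e := e) (e' := e'), h]
  simp

end

end Pool.Agent.Y150.KN
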