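import Pool.Agent.Y150.KN.Q2

/-!
# Proof of the theorem on spaces of forms (project KN, helper150)
-/

set_option autoImplicit false

namespace Pool.Agent.Y150.KN

open Matrix

universe v w

section

variable {K : Type v} [Field K] {V : Type v} [AddCommGroup V] [Module K V] {n r : ℕ}
  {e e' : Module.Basis (Fin n) K V} {ψ : V →ₗ[K] V →ₗ[K] K} {L : Type v} [Field L] [Algebra K L]
  {E : Subalgebra K (Module.End K V)}
  {S : Submodule K (MultilinearMap K (fun _ : Fin r ⊕ Fin r => V) K)}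

/-- The unit of the matrix ring over `L` defined by an invertible endomorphism. -/
noncomputable def mu (e : Module.Basis (Fin n) K V) (L : Type v) [Field L] [Algebra K L]
    {a b : Module.End K V} (hab : a * b = 1) (hba : b * a = 1) :
    (Matrix (Fin n) (Fin n) L)ˣ where
  val := (LinearMap.toMatrix e e a).map (algebraMap K L)
  inv := (LinearMap.toMatrix e e b).map (algebraMap K L)
  val_inv := by
    rw [← Matrix.map_mul, ← LinearMap.toMatrix_mul, hab, LinearMap.toMatrix_one,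
      Matrix.map_one _ (map_zero _) (map_one _)]
  inv_val := by
    rw [← Matrix.map_mul, ← LinearMap.toMatrix_mul, hba, LinearMap.toMatrix_one,
      Matrix.map_one _ (map_zero _) (map_one _)]

variable (hee : ∀ i j, ψ (e i) (e' j) = if i = j then 1 else 0)
  (hSE : ∀ a ∈ E, ∀ f ∈ S, ∀ s,
    f.compLinearMap (Function.update (fun _ => LinearMap.id) s a) ∈ S)

include hee

lemma conj_form {a b a' : Module.End K V} (hab : a * b = 1) (hba : b * a = 1)
    (hadj : ∀ x y, ψ (a x) y = ψ x (a' y))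
    (f : MultilinearMap K (fun _ : Fin r ⊕ Fin r => V) K) :
    tp (Fin r) ((mu e L hab hba : (Matrix (Fin n) (Fin n) L)ˣ) : Matrix (Fin n) (Fin n) L) *
      (zf e e' f).map (algebraMap K L) *
      tp (Fin r) (((mu e L hab hba)⁻¹ : (Matrix (Fin n) (Fin n) L)ˣ) :
        Matrix (Fin n) (Fin n) L) =
    (zf e e' (f.compLinearMap (Sum.elim (fun _ => b) (fun _ => a')))).map (algebraMap K L) := by
  rw [zf_comp, toMatrix_adj hee hadj, Matrix.map_mul, Matrix.map_mul, ← tp_map, ← tp_map]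
  rfl

include hSE

/-- Feasibility is preserved by the units of the algebra `E`. -/
lemma feas_E {g : (Matrix (Fin n) (Fin n) L)ˣ} {w : Fin n → ℝ} (h : FeasS e e' L S g w)
    {a b a' : Module.End K V} (hab : a * b = 1) (hba : b * a = 1)
    (hadj : ∀ x y, ψ (a x) y = ψ x (a' y)) (hb : b ∈ E) (ha' : a' ∈ E) :
    FeasS e e' L S (g * mu e L hab hba) w := by
  refine feasS_mul h (fun f hf => ⟨_, ?_, conj_form hee hab hba hadj f⟩)
  apply comp_mem hSE _ hf
  rintro (i | i)
  · exact hb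
  · exact ha'

/-- Feasibility is preserved by the group `Γ`. -/
lemma feas_Γ {Γ : Type w} [Group Γ] {ρ : Representation K Γ V}
    (hc : ∀ g, ∃ c ∈ E, ∀ x y, ψ (ρ g x) (ρ g y) = ψ (c x) y)
    (hadj : ∀ a ∈ E, ∃ a' ∈ E, ∀ x y, ψ (a x) y = ψ x (a' y))
    (hSΓ : ∀ g, ∀ f ∈ S, f.compLinearMap (fun _ => ρ g) ∈ S)
    {g : (Matrix (Fin n) (Fin n) L)ˣ} {w : Fin n → ℝ} (h : FeasS e e' L S g w) (γ : Γ)
    (hab : ρ γ * ρ γ⁻¹ = 1) (hba : ρ γ⁻¹ * ρ γ = 1) :
    FeasS e e' L S (g * mu e L hab hba) w := by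
  obtain ⟨c, hcE, hc⟩ := hc γ
  obtain ⟨c', hc'E, hc'⟩ := hadj c hcE
  have hρ : ∀ x, ρ γ (ρ γ⁻¹ x) = x := fun x => by
    exact congrArg (fun z : Module.End K V => z x) hab
  have hadj' : ∀ x y, ψ (ρ γ x) y = ψ x ((c' * ρ γ⁻¹) y) := by
    intro x y
    rw [Module.End.mul_apply, ← hc', ← hc, hρ]
  refine feasS_mul h (fun f hf => ⟨_, ?_, conj_form hee hab hba hadj' f⟩)
  have h1 : f.compLinearMap (Sum.elim (fun _ => ρ γ⁻¹) (fun _ => c' * ρ γ⁻¹)) =
      (f.compLinearMap (Sum.elim (fun _ => (1 : Module.End K V)) (fun _ => c'))).compLinearMap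
        (fun _ => ρ γ⁻¹) := by
    ext x
    simp only [MultilinearMap.compLinearMap_apply]
    congr 1
    funext i
    rcases i with i | i <;> rfl
  rw [h1]
  apply hSΓ
  apply comp_mem hSE _ hf
  rintro (i | i)
  · exact E.one_mem
  · exact hc'E

omit hSE

/-- The exchange of the two halves of the arguments gives a second feasible pair. -/
lemma feas_swap {g : (Matrix (Fin n) (Fin n) L)ˣ} {w : Fin n → ℝ} (h : FeasS e e' L S g w)
    (hSE : ∀ a ∈ E, ∀ f ∈ S, ∀ s,
      f.compLinearMap (Function.update (fun _ => LinearMap.id) s a) ∈ S)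
    (hSsw : ∀ f ∈ S, f.domDomCongr (Equiv.sumComm (Fin r) (Fin r)) ∈ S)
    {δ δ₁ δ' : Module.End K V} (hδ : ∀ x y, ψ y x = ψ (δ x) y) (hδ₁ : δ₁ * δ = 1)
    (hadj : ∀ x y, ψ (δ₁ x) y = ψ x (δ' y)) (hδ' : δ' ∈ E) :
    ∃ g₂ : (Matrix (Fin n) (Fin n) L)ˣ, FeasS e e' L S g₂ (fun i => - w i) ∧
      (g₂ : Matrix (Fin n) (Fin n) L)ᵀ * (g : Matrix (Fin n) (Fin n) L) =
        (e'.toMatrix e).map (algebraMap K L) := by
  classical
  set Q : Matrix (Fin n) (Fin n) K := e.toMatrix e' with hQ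
  set P : Matrix (Fin n) (Fin n) K := e'.toMatrix e with hP
  have hQP : Q * P = 1 := e.toMatrix_mul_toMatrix_flip e'
  have hPQ : P * Q = 1 := e'.toMatrix_mul_toMatrix_flip e
  set D₁ := LinearMap.toMatrix e e δ₁ with hD₁
  -- the transposed matrix
  have hQT : Qᵀ = LinearMap.toMatrix e e δ * Q := by
    ext i j
    have h1 : (LinearMap.toMatrix e e δ * Q) i j = e.repr (δ (e' j)) i := by
      rw [← LinearMap.toMatrix_mulVec_repr e e δ (e' j)]
      rfl
    rw [h1, Matrix.transpose_apply, hQ, Module.Basis.toMatrix_apply, repr_e hee, repr_e hee, ← hδ]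
  have hQPT : Q * Pᵀ = D₁ := by
    have h1 : LinearMap.toMatrix e e δ * (Q * Pᵀ) = 1 := by
      rw [← Matrix.mul_assoc, ← hQT, ← Matrix.transpose_mul, hPQ, Matrix.transpose_one]
    have h2 : D₁ * LinearMap.toMatrix e e δ = 1 := by
      rw [hD₁, ← LinearMap.toMatrix_mul, hδ₁, LinearMap.toMatrix_one]
    calc Q * Pᵀ = D₁ * LinearMap.toMatrix e e δ * (Q * Pᵀ) := by rw [h2, Matrix.one_mul]
      _ = D₁ := by rw [Matrix.mul_assoc, h1, Matrix.mul_one]
  -- the second pair
  let q : (Matrix (Fin n) (Fin n) L)ˣ :=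
    { val := Q.map (algebraMap K L)
      inv := P.map (algebraMap K L)
      val_inv := by rw [← Matrix.map_mul, hQP, Matrix.map_one _ (map_zero _) (map_one _)]
      inv_val := by rw [← Matrix.map_mul, hPQ, Matrix.map_one _ (map_zero _) (map_one _)] }
  have hgq : ((g * q : (Matrix (Fin n) (Fin n) L)ˣ) : Matrix (Fin n) (Fin n) L) *
      (((g * q)⁻¹ : (Matrix (Fin n) (Fin n) L)ˣ) : Matrix (Fin n) (Fin n) L) = 1 := by
    rw [← Units.val_mul, mul_inv_cancel, Units.val_one]
  have hgq' : (((g * q)⁻¹ : (Matrix (Fin n) (Fin n) L)ˣ) : Matrix (Fin n) (Fin n) L) *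
      ((g * q : (Matrix (Fin n) (Fin n) L)ˣ) : Matrix (Fin n) (Fin n) L) = 1 := by
    rw [← Units.val_mul, inv_mul_cancel, Units.val_one]
  have hinv : (((g * q)⁻¹ : (Matrix (Fin n) (Fin n) L)ˣ) : Matrix (Fin n) (Fin n) L) =
      P.map (algebraMap K L) *
        ((g⁻¹ : (Matrix (Fin n) (Fin n) L)ˣ) : Matrix (Fin n) (Fin n) L) := by
    rw [_root_.mul_inv_rev, Units.val_mul]
    rfl
  refine ⟨
    { val := (((g * q)⁻¹ : (Matrix (Fin n) (Fin n) L)ˣ) : Matrix (Fin n) (Fin n) L)ᵀ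
      inv := ((g * q : (Matrix (Fin n) (Fin n) L)ˣ) : Matrix (Fin n) (Fin n) L)ᵀ
      val_inv := by rw [← Matrix.transpose_mul, hgq, Matrix.transpose_one]
      inv_val := by rw [← Matrix.transpose_mul, hgq', Matrix.transpose_one] }, ?_, ?_⟩
  · intro f hf J I hne
    set f₁ := f.domDomCongr (Equiv.sumComm (Fin r) (Fin r)) with hf₁
    have hf₁S : f₁ ∈ S := hSsw f hf
    have hff : f = f₁.domDomCongr (Equiv.sumComm (Fin r) (Fin r)) := by
      ext x
      rw [hf₁, MultilinearMap.domDomCongr_apply, MultilinearMap.domDomCongr_apply]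
      congr 1
      funext i
      rcases i with i | i <;> rfl
    set f₂ := f₁.compLinearMap (Sum.elim (fun _ => (1 : Module.End K V)) (fun _ => δ')) with hf₂
    have hf₂S : f₂ ∈ S := by
      apply comp_mem hSE _ hf₁S
      rintro (i | i)
      · exact E.one_mem
      · exact hδ'
    have hz : zf e e' f₂ = tp (Fin r) D₁ * zf e e' f₁ := by
      rw [hf₂, zf_comp, toMatrix_adj hee hadj, LinearMap.toMatrix_one, tp_one, Matrix.mul_one]
    have key : tp (Fin r) (((g * q)⁻¹ : (Matrix (Fin n) (Fin n) L)ˣ) :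
        Matrix (Fin n) (Fin n) L)ᵀ * (zf e e' f).map (algebraMap K L) *
        tp (Fin r) ((g * q : (Matrix (Fin n) (Fin n) L)ˣ) : Matrix (Fin n) (Fin n) L)ᵀ =
        (tp (Fin r) (g : Matrix (Fin n) (Fin n) L) * (zf e e' f₂).map (algebraMap K L) *
          tp (Fin r) ((g⁻¹ : (Matrix (Fin n) (Fin n) L)ˣ) : Matrix (Fin n) (Fin n) L))ᵀ := by
      have hzf : (zf e e' f).map (algebraMap K L) = (tp (Fin r) (Q.map (algebraMap K L)))ᵀ *
          ((zf e e' f₁).map (algebraMap K L))ᵀ * tp (Fin r) (P.map (algebraMap K L)) := by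
        conv_lhs => rw [hff, zf_swap]
        rw [← hQ, ← hP, Matrix.map_mul, Matrix.map_mul, tp_map, tp_transpose, tp_map]
        rfl
      have hD : tp (Fin r) (D₁.map (algebraMap K L)) = tp (Fin r) (Q.map (algebraMap K L)) *
          (tp (Fin r) (P.map (algebraMap K L)))ᵀ := by
        rw [← tp_transpose, ← tp_mul, ← hQPT, Matrix.map_mul]
        rfl
      have h1 : tp (Fin r) (Q.map (algebraMap K L)) * tp (Fin r) (P.map (algebraMap K L)) = 1 := by
        rw [← tp_mul, ← Matrix.map_mul, hQP, Matrix.map_one _ (map_zero _) (map_one _), tp_one]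
      have h2 : tp (Fin r) ((g * q : (Matrix (Fin n) (Fin n) L)ˣ) : Matrix (Fin n) (Fin n) L) =
          tp (Fin r) (g : Matrix (Fin n) (Fin n) L) * tp (Fin r) (Q.map (algebraMap K L)) := by
        rw [Units.val_mul, tp_mul]
      apply Matrix.transpose_injective
      rw [Matrix.transpose_transpose, hz, Matrix.map_mul, ← tp_map, hD, tp_transpose,
        tp_transpose, hinv, tp_mul, hzf, h2]
      simp only [Matrix.transpose_mul, Matrix.transpose_transpose]
      calc _ = tp (Fin r) (g : Matrix (Fin n) (Fin n) L) *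
            (tp (Fin r) (Q.map (algebraMap K L)) * (tp (Fin r) (P.map (algebraMap K L)))ᵀ *
            (zf e e' f₁).map (algebraMap K L)) * (tp (Fin r) (Q.map (algebraMap K L)) *
            tp (Fin r) (P.map (algebraMap K L))) *
            tp (Fin r) ((g⁻¹ : (Matrix (Fin n) (Fin n) L)ˣ) : Matrix (Fin n) (Fin n) L) := by
              simp only [Matrix.mul_assoc]
        _ = _ := by rw [h1, Matrix.mul_one]
    change (tp (Fin r) (((g * q)⁻¹ : (Matrix (Fin n) (Fin n) L)ˣ) :
        Matrix (Fin n) (Fin n) L)ᵀ * (zf e e' f).map (algebraMap K L) *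
        tp (Fin r) ((g * q : (Matrix (Fin n) (Fin n) L)ˣ) : Matrix (Fin n) (Fin n) L)ᵀ) J I ≠ 0
      at hne
    rw [key, Matrix.transpose_apply] at hne
    have h2 := h f₂ hf₂S I J hne
    simp only [Finset.sum_neg_distrib]
    linarith
  · change (((((g * q)⁻¹ : (Matrix (Fin n) (Fin n) L)ˣ) : Matrix (Fin n) (Fin n) L)ᵀ)ᵀ) *
      (g : Matrix (Fin n) (Fin n) L) = _
    rw [Matrix.transpose_transpose, hinv, Matrix.mul_assoc, ← Units.val_mul, inv_mul_cancel,
      Units.val_one, Matrix.mul_one]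

end

end Pool.Agent.Y150.KN
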