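import Pool.Agent.Y150.KN.Q3

/-!
# The theorem on spaces of forms (project KN, helper150)
-/

set_option autoImplicit false

namespace Pool.Agent.Y150.KN

open Matrix

universe v w

/-- The general theorem follows from the numerical criterion, Kempf's theorem and Galois descent. -/
theorem q2_of (hm : S_hm.{v}) (kem : S_kem2.{v}) (gal : S_gal.{v}) : S_Q2.{v, w} := by
  classical
  intro K _ _ σ V _ _ Γ _ ρ E ψ n r e e' hee hδ hadj hc hSD S hSE hSΓ hSsw hnull
  let _ : Algebra K ℂ := σ.toAlgebra
  have hfd : FiniteDimensional K V := Module.Finite.of_basis e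
  have j : AlgebraicClosure K →+* ℂ :=
    (IsAlgClosed.lift : AlgebraicClosure K →ₐ[K] ℂ).toRingHom
  set L := AlgebraicClosure K with hL
  have hfree : Module.Free K S := Module.Free.of_divisionRing K S
  let b := Module.finBasis K S
  -- nullity
  have hZ : Null (fun t => (zf e e' (b t : MultilinearMap K (fun _ : Fin r ⊕ Fin r => V) K)).map
      (algebraMap K L)) := by
    intro k hk wt π
    have h1 := hnull k hk (fun t => (b (wt t) : MultilinearMap K (fun _ : Fin r ⊕ Fin r => V) K))
      (fun t => (b (wt t)).2) π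
    have h2 := congrArg (algebraMap K L) h1
    rw [map_zero, map_sum] at h2
    rw [← h2]
    refine Finset.sum_congr rfl (fun I _ => ?_)
    rw [map_prod]
    rfl
  -- the optimal pair
  obtain ⟨g0, w0, h0⟩ := hm L j n r _ _ hZ
  obtain ⟨g, w, hgw, huniq⟩ := kem L n r _ _ ⟨g0, fun i => (w0 i : ℝ), by
    intro t J I hne
    have h1 := h0 t J I hne
    have h2 : ∑ s, w0 (I s) + 1 ≤ ∑ s, w0 (J s) := h1
    have h3 : ∑ s, (w0 (I s) : ℝ) + 1 ≤ ∑ s, (w0 (J s) : ℝ) := by exact_mod_cast h2
    exact h3⟩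
  have hgS : FeasS e e' L S g w := (feas_iff b g w).1 hgw
  -- stability of the filtration
  have hstab : ∀ h : (Matrix (Fin n) (Fin n) L)ˣ, FeasS e e' L S (g * h) w →
      ∀ a, ∀ x ∈ fil g w a, (h : Matrix (Fin n) (Fin n) L) *ᵥ x ∈ fil g w a := by
    intro h hh a x hx
    rw [← mem_fil_mul]
    exact fil_le (fun j i => (huniq _ w ((feas_iff b _ w).2 hh) le_rfl j i).1) hx
  -- the rational part
  let vec : V → Fin n → L := fun y i => algebraMap K L (e.repr y i)
  have hvec_add : ∀ x y, vec (x + y) = vec x + vec y := by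
    intro x y
    funext i
    simp [vec]
  have hvec_smul : ∀ (c : K) x, vec (c • x) = algebraMap K L c • vec x := by
    intro c x
    funext i
    simp [vec]
  have hvec_end : ∀ (a : Module.End K V) x,
      vec (a x) = ((LinearMap.toMatrix e e a).map (algebraMap K L)) *ᵥ vec x := by
    intro a x
    funext i
    have h1 := congrFun (LinearMap.toMatrix_mulVec_repr e e a x) i
    simp only [vec]
    rw [← h1, Matrix.mulVec, Matrix.mulVec, dotProduct, dotProduct, map_sum]
    exact Finset.sum_congr rfl (fun k _ => by rw [map_mul]; rfl)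
  let FV : ℝ → Submodule K V := fun a =>
    { carrier := {y | vec y ∈ fil g w a}
      add_mem' := by
        intro x y hx hy
        change vec (x + y) ∈ fil g w a
        rw [hvec_add]
        exact Submodule.add_mem _ hx hy
      zero_mem' := by
        have h1 : vec 0 = 0 := by
          funext i
          simp [vec]
        change vec 0 ∈ fil g w a
        rw [h1]
        exact Submodule.zero_mem _
      smul_mem' := by
        intro c x hx
        change vec (c • x) ∈ fil g w a
        rw [hvec_smul]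
        exact Submodule.smul_mem _ _ hx }
  have hmemFV : ∀ a y, y ∈ FV a ↔ vec y ∈ fil g w a := fun a y => Iff.rfl
  -- stability under `E`
  have hFE : ∀ a, ∀ x ∈ FV a, ∀ m ∈ E, m x ∈ FV a := by
    intro a x hx m hm
    obtain ⟨s, hs⟩ := exists_shift m
    set m' := m + s • (1 : Module.End K V) with hm'
    have hm'E : m' ∈ E := E.add_mem hm (E.smul_mem E.one_mem s)
    obtain ⟨m₁, hm₁E, h1, h2⟩ := exists_inv hm'E hs
    obtain ⟨a', ha'E, ha'⟩ := hadj m' hm'E
    have h3 := hstab _ (feas_E hee hSE hgS h1 h2 ha' hm₁E ha'E) a (vec x) hx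
    have h4 : m' x ∈ FV a := by
      rw [hmemFV, hvec_end]
      exact h3
    have h5 : m x = m' x - s • x := by
      rw [hm']
      simp
    rw [h5]
    exact Submodule.sub_mem _ h4 (Submodule.smul_mem _ _ hx)
  -- stability under `Γ`
  have hFΓ : ∀ a, Stable ρ (FV a) := by
    intro a γ x hx
    have hab : ρ γ * ρ γ⁻¹ = 1 := by rw [← map_mul, mul_inv_cancel, map_one]
    have hba : ρ γ⁻¹ * ρ γ = 1 := by rw [← map_mul, inv_mul_cancel, map_one]
    have h3 := hstab _ (feas_Γ hee hSE hc hadj hSΓ hgS γ hab hba) a (vec x) hx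
    rw [hmemFV, hvec_end]
    exact h3
  -- stability under the Galois group
  have hFG : ∀ a, ∀ τ : L ≃ₐ[K] L, ∀ x ∈ fil g w a, (fun i => τ (x i)) ∈ fil g w a := by
    intro a τ x hx
    let g₂ : (Matrix (Fin n) (Fin n) L)ˣ :=
      Units.map (τ : L →+* L).mapMatrix.toMonoidHom g
    have hg₂ : (g₂ : Matrix (Fin n) (Fin n) L) = (g : Matrix (Fin n) (Fin n) L).map τ := rfl
    have hg₂' : ((g₂⁻¹ : (Matrix (Fin n) (Fin n) L)ˣ) : Matrix (Fin n) (Fin n) L) =
        ((g⁻¹ : (Matrix (Fin n) (Fin n) L)ˣ) : Matrix (Fin n) (Fin n) L).map τ := rfl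
    have hfe : FeasS e e' L S g₂ w := by
      intro f hf J I hne
      apply hgS f hf J I
      intro h0
      apply hne
      have h1 : tp (Fin r) (g₂ : Matrix (Fin n) (Fin n) L) * (zf e e' f).map (algebraMap K L) *
          tp (Fin r) ((g₂⁻¹ : (Matrix (Fin n) (Fin n) L)ˣ) : Matrix (Fin n) (Fin n) L) =
          (tp (Fin r) (g : Matrix (Fin n) (Fin n) L) * (zf e e' f).map (algebraMap K L) *
          tp (Fin r) ((g⁻¹ : (Matrix (Fin n) (Fin n) L)ˣ) : Matrix (Fin n) (Fin n) L)).map
            (τ : L →+* L) := by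
        rw [Matrix.map_mul, Matrix.map_mul, ← tp_map, ← tp_map]
        have h2 : ((zf e e' f).map (algebraMap K L)).map (τ : L →+* L) =
            (zf e e' f).map (algebraMap K L) := by
          ext J I
          exact τ.commutes _
        rw [h2]
        rfl
      rw [h1, Matrix.map_apply, h0, map_zero]
    have h5 : (fun i => τ (x i)) ∈ fil g₂ w a := by
      intro i hi
      apply hx i
      intro h6
      apply hi
      have h7 : ((g₂ : Matrix (Fin n) (Fin n) L) *ᵥ fun i => τ (x i)) i =
          τ (((g : Matrix (Fin n) (Fin n) L) *ᵥ x) i) := by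
        rw [Matrix.mulVec, Matrix.mulVec, dotProduct, dotProduct, map_sum]
        exact Finset.sum_congr rfl (fun k _ => by rw [map_mul]; rfl)
      rw [h7, h6, map_zero]
    exact fil_le (fun j i => (huniq g₂ w ((feas_iff b _ w).2 hfe) le_rfl j i).2) h5
  -- the exchange of the two halves
  obtain ⟨δ, hδE, hδ⟩ := hδ
  have hδinj : Function.Injective δ := by
    rw [injective_iff_map_eq_zero]
    intro x hx
    apply psi_nondeg hee
    intro y
    rw [hδ, hx, map_zero, LinearMap.zero_apply]
  obtain ⟨δ₁, hδ₁E, -, hδ₁⟩ := exists_inv hδE hδinj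
  obtain ⟨δ', hδ'E, hδ'⟩ := hadj δ₁ hδ₁E
  obtain ⟨g₂, hg₂S, hg₂⟩ := feas_swap hee hgS hSE hSsw hδ hδ₁ hδ' hδ'E
  have hu := huniq g₂ (fun i => - w i) ((feas_iff b _ _).2 hg₂S) (by simp)
  have hfil : ∀ a, fil g w a = fil g₂ (fun i => - w i) a := fun a =>
    le_antisymm (fil_le (fun j i => (hu j i).1)) (fil_le (fun j i => (hu j i).2))
  -- isotropy
  have hiso : ∀ a, 0 < a → ∀ x ∈ FV a, ∀ y ∈ FV a, ψ x y = 0 := by
    intro a ha x hx y hy
    by_contra hne
    have h1 : algebraMap K L (ψ x y) =
        ((g₂ : Matrix (Fin n) (Fin n) L) *ᵥ vec x) ⬝ᵥ ((g : Matrix (Fin n) (Fin n) L) *ᵥ vec y) := by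
      rw [← Matrix.vecMul_transpose, ← Matrix.dotProduct_mulVec, Matrix.mulVec_mulVec, hg₂]
      have h2 : ψ x y = (fun i => e.repr x i) ⬝ᵥ ((e'.toMatrix e) *ᵥ (fun i => e.repr y i)) := by
        have h3 : ∀ i, ((e'.toMatrix e) *ᵥ (fun i => e.repr y i)) i = ψ (e i) y := by
          intro i
          rw [← repr_e' hee, Matrix.mulVec, dotProduct]
          conv_rhs => rw [← e.sum_repr y]
          rw [map_sum, Finsupp.finsetSum_apply]
          refine Finset.sum_congr rfl (fun k _ => ?_)
          rw [map_smul, Finsupp.smul_apply, smul_eq_mul, Module.Basis.toMatrix_apply, mul_comm]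
        rw [dotProduct]
        simp only [h3]
        conv_lhs => rw [← e.sum_repr x]
        rw [map_sum, LinearMap.sum_apply]
        exact Finset.sum_congr rfl (fun k _ => by rw [map_smul, LinearMap.smul_apply, smul_eq_mul])
      rw [h2, dotProduct, dotProduct, map_sum]
      refine Finset.sum_congr rfl (fun i _ => ?_)
      rw [map_mul, Matrix.mulVec, Matrix.mulVec, dotProduct, dotProduct, map_sum]
      congr 1
      exact Finset.sum_congr rfl (fun k _ => by rw [map_mul]; rfl)
    have h2 : algebraMap K L (ψ x y) ≠ 0 := by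
      rwa [Ne, map_eq_zero]
    rw [h1, dotProduct] at h2
    obtain ⟨i, -, hi⟩ := Finset.exists_ne_zero_of_sum_ne_zero h2
    have hx' : vec x ∈ fil g₂ (fun i => - w i) a := by
      rw [← hfil]
      exact hx
    have h3 : a ≤ - w i := hx' i (left_ne_zero_of_mul hi)
    have h4 : a ≤ w i := hy i (right_ne_zero_of_mul hi)
    linarith
  have hFV : ∀ a, 0 < a → FV a = ⊥ := by
    intro a ha
    by_contra hne
    obtain ⟨U, hUF, hUst, hU0, hUirr⟩ := exists_irred ρ (hFΓ a) hne
    obtain ⟨c, hc, x, hx, y, hy, hxy⟩ := hSD U hUst hU0 hUirr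
    exact hxy (hiso a ha _ (hFE a x (hUF hx) c hc) _ (hUF hy))
  have hfil0 : ∀ a, 0 < a → fil g w a = ⊥ := by
    intro a ha
    rw [gal K n (fil g w a) (hFG a), Submodule.span_eq_bot]
    rintro x ⟨hx, y, rfl⟩
    have h1 : e.equivFun.symm y ∈ FV a := by
      rw [hmemFV]
      have h2 : vec (e.equivFun.symm y) = fun i => algebraMap K L (y i) := by
        funext i
        simp only [vec]
        congr 1
        rw [← Module.Basis.equivFun_apply, LinearEquiv.apply_symm_apply]
      rw [h2]
      exact hx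
    rw [hFV a ha, Submodule.mem_bot] at h1
    have h3 : y = 0 := by
      have := congrArg e.equivFun h1
      rwa [LinearEquiv.apply_symm_apply, map_zero] at this
    funext i
    rw [h3, Pi.zero_apply, map_zero]
    rfl
  -- all weights vanish
  have hw : ∀ i, w i = 0 := by
    intro i
    have h1 := weight_le hfil0 i
    have h2 := weight_le (g := g₂) (w := fun i => - w i) (fun a ha => by rw [← hfil, hfil0 a ha]) i
    linarith
  -- conclusion
  rw [Submodule.eq_bot_iff]
  intro f hf
  apply zf_eq_zero (e := e) (e' := e')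
  have h1 : tp (Fin r) (g : Matrix (Fin n) (Fin n) L) * (zf e e' f).map (algebraMap K L) *
      tp (Fin r) ((g⁻¹ : (Matrix (Fin n) (Fin n) L)ˣ) : Matrix (Fin n) (Fin n) L) = 0 := by
    ext J I
    by_contra hne
    have h2 := hgS f hf J I hne
    simp only [hw, Finset.sum_const_zero] at h2
    linarith
  have h2 : tp (Fin r) ((g⁻¹ : (Matrix (Fin n) (Fin n) L)ˣ) : Matrix (Fin n) (Fin n) L) *
      tp (Fin r) (g : Matrix (Fin n) (Fin n) L) = 1 := tp_mul_cancel (by simp)
  have h3 : (zf e e' f).map (algebraMap K L) = 0 := by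
    calc (zf e e' f).map (algebraMap K L) =
        tp (Fin r) ((g⁻¹ : (Matrix (Fin n) (Fin n) L)ˣ) : Matrix (Fin n) (Fin n) L) *
        (tp (Fin r) (g : Matrix (Fin n) (Fin n) L) * (zf e e' f).map (algebraMap K L) *
          tp (Fin r) ((g⁻¹ : (Matrix (Fin n) (Fin n) L)ˣ) : Matrix (Fin n) (Fin n) L)) *
        tp (Fin r) (g : Matrix (Fin n) (Fin n) L) := by
          rw [Matrix.mul_assoc, Matrix.mul_assoc, h2, Matrix.mul_one, ← Matrix.mul_assoc, h2,
            Matrix.one_mul]
      _ = 0 := by rw [h1]; simp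
  ext J I
  have h4 := congrFun (congrFun h3 J) I
  rw [Matrix.map_apply] at h4
  rw [Matrix.zero_apply]
  exact (map_eq_zero (algebraMap K L)).1 h4

end Pool.Agent.Y150.KN
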