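import Pool.Agent.Y150.KN.Stm

/-!
# A stronger form of Kempf's theorem (project KN, helper150)
-/

set_option autoImplicit false

namespace Pool.Agent.Y150.KN

open Matrix

universe v

/-- Kempf's theorem for the general linear group: among the feasible pairs there is one of smallest
norm, and all feasible pairs which are not longer define the same filtration. -/
def S_kem2 : Prop :=
  ∀ (L : Type v) [Field L] (n r : ℕ) (τ : Type) [Finite τ]
    (Z : τ → Matrix (Fin r → Fin n) (Fin r → Fin n) L),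
    (∃ g w, Feas Z g w) →
    ∃ g w, Feas Z g w ∧ ∀ g₂ w₂, Feas Z g₂ w₂ → ∑ i, w₂ i ^ 2 ≤ ∑ i, w i ^ 2 → ∀ j i,
      (((g₂ * g⁻¹ : (Matrix (Fin n) (Fin n) L)ˣ) : Matrix (Fin n) (Fin n) L) j i ≠ 0 →
        w i ≤ w₂ j) ∧
      (((g * g₂⁻¹ : (Matrix (Fin n) (Fin n) L)ˣ) : Matrix (Fin n) (Fin n) L) j i ≠ 0 →
        w₂ i ≤ w j)

/-- The stronger form implies the form `S_kem`. -/
theorem kem_of_kem2 (h : S_kem2.{v}) : S_kem.{v} := by
  intro L _ n r τ _ Z h0
  obtain ⟨g, w, h1, h2⟩ := h L n r τ Z h0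
  exact ⟨g, w, h1, fun g₂ hg₂ => h2 g₂ w hg₂ le_rfl⟩

end Pool.Agent.Y150.KN
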