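import Pool.Agent.Y150.KN.Q4
import Pool.Agent.Y27.KN.Dens
import Pool.Agent.Y535.KN.Sym
import Pool.Agent.Y535.KN.Comm
import Pool.Agent.Y535.KN.Fft
import Pool.Agent.Y535.KN.Avg
import Pool.Agent.Y180.KN.HM
import Pool.Agent.Y359.KN.Kem2
import Pool.Agent.Y112.KN.Gal

/-!
# The theorem on spaces of forms, unconditionally (project KN)
-/

set_option autoImplicit false

namespace Pool.Agent.Y150.KN

universe v w

theorem hm : S_hm.{v} :=
  Pool.Agent.Y180.KN.main (Pool.Agent.Y535.KN.avg (Pool.Agent.Y535.KN.fft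
    Pool.Agent.Y27.KN.Dens.main Pool.Agent.Y535.KN.sym Pool.Agent.Y535.KN.comm))

theorem q2 : S_Q2.{v, w} :=
  q2_of hm Pool.Agent.Y359.KN.main_kem2 Pool.Agent.Y112.KN.Gal.main

end Pool.Agent.Y150.KN
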