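import Pool.Agent.Y150.KN.Tp

/-!
# Statements (project KN, helper150)

The statements `S_…` are proved in other modules.
-/

set_option autoImplicit false

namespace Pool.Agent.Y150.KN

open Matrix

universe u v w

/-- The unitary group is Zariski dense in the space of all complex matrices. -/
def S_dens : Prop :=
  ∀ (n m : ℕ) (F : MvPolynomial (Fin n × Fin n) ℂ), F.IsHomogeneous m →
    (∀ u ∈ Matrix.unitaryGroup (Fin n) ℂ, MvPolynomial.eval (fun p => u p.1 p.2) F = 0) → F = 0

/-- Symmetric tensors are combinations of tensor powers. -/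
def S_sym : Prop :=
  ∀ (n : ℕ) (α : Type) [Fintype α] [DecidableEq α] (T : Matrix (α → Fin n) (α → Fin n) ℂ),
    (∀ (π : Equiv.Perm α) J I, T (J ∘ π) (I ∘ π) = T J I) →
    T ∈ Submodule.span ℂ (Set.range fun g : Matrix (Fin n) (Fin n) ℂ => tp α g)

/-- Schur's commutant theorem: an endomorphism of the tensor power which commutes with all
operators commuting with the permutations is a combination of permutations. -/
def S_comm : Prop :=
  ∀ (n : ℕ) (α : Type) [Fintype α] [DecidableEq α] (q : Matrix (α → Fin n) (α → Fin n) ℂ),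
    (∀ T : Matrix (α → Fin n) (α → Fin n) ℂ,
      (∀ (π : Equiv.Perm α) J I, T (J ∘ π) (I ∘ π) = T J I) → q * T = T * q) →
    q ∈ Submodule.span ℂ (Set.range fun π : Equiv.Perm α => pm ℂ n π)

/-- The first fundamental theorem for the unitary group. -/
def S_fft : Prop :=
  ∀ (n : ℕ) (α : Type) [Fintype α] [DecidableEq α] (q : Matrix (α → Fin n) (α → Fin n) ℂ),
    (∀ u ∈ Matrix.unitaryGroup (Fin n) ℂ, tp α u * q = q * tp α u) →
    q ∈ Submodule.span ℂ (Set.range fun π : Equiv.Perm α => pm ℂ n π)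

/-- A polynomial without constant term in the coordinates of a null family is not constant `1` on
the orbit of the family under the unitary group. -/
def S_avg : Prop :=
  ∀ (n r : ℕ) (τ : Type) (Z : τ → Matrix (Fin r → Fin n) (Fin r → Fin n) ℂ), Null Z →
    ∀ P : MvPolynomial (τ × (Fin r → Fin n) × (Fin r → Fin n)) ℂ,
      MvPolynomial.constantCoeff P = 0 →
      ∃ u ∈ Matrix.unitaryGroup (Fin n) ℂ, MvPolynomial.eval
        (fun x => (tp (Fin r) u * Z x.1 * tp (Fin r) (star u)) x.2.1 x.2.2) P ≠ 1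

/-- The numerical criterion of Hilbert and Mumford for the general linear group. -/
def S_hm : Prop :=
  ∀ (L : Type v) [Field L] [IsAlgClosed L], (L →+* ℂ) → ∀ (n r : ℕ) (τ : Type) [Finite τ]
    (Z : τ → Matrix (Fin r → Fin n) (Fin r → Fin n) L), Null Z →
    ∃ (g : (Matrix (Fin n) (Fin n) L)ˣ) (w : Fin n → ℤ), ∀ t J I,
      (tp (Fin r) (g : Matrix (Fin n) (Fin n) L) * Z t *
        tp (Fin r) ((g⁻¹ : (Matrix (Fin n) (Fin n) L)ˣ) : Matrix (Fin n) (Fin n) L)) J I ≠ 0 →
      ∑ s, w (I s) < ∑ s, w (J s)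

/-- Bruhat decomposition over a field: `b * g * b'` is a permutation matrix for suitable invertible
upper triangular matrices `b`, `b'`. -/
def S_bru : Prop :=
  ∀ (L : Type v) [Field L] (n : ℕ) (g : (Matrix (Fin n) (Fin n) L)ˣ),
    ∃ (b b' : (Matrix (Fin n) (Fin n) L)ˣ) (f : Equiv.Perm (Fin n)),
      (∀ i j, j < i → (b : Matrix (Fin n) (Fin n) L) i j = 0) ∧
      (∀ i j, j < i → (b' : Matrix (Fin n) (Fin n) L) i j = 0) ∧
      ∀ i j, ((b * g * b' : (Matrix (Fin n) (Fin n) L)ˣ) : Matrix (Fin n) (Fin n) L) i j =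
        if i = f j then 1 else 0

/-- Kempf's theorem for the general linear group: among the feasible pairs there is one of smallest
norm, and its filtration is unique. -/
def S_kem : Prop :=
  ∀ (L : Type v) [Field L] (n r : ℕ) (τ : Type) [Finite τ]
    (Z : τ → Matrix (Fin r → Fin n) (Fin r → Fin n) L),
    (∃ g w, Feas Z g w) →
    ∃ g w, Feas Z g w ∧ ∀ g₂, Feas Z g₂ w → ∀ j i,
      (((g₂ * g⁻¹ : (Matrix (Fin n) (Fin n) L)ˣ) : Matrix (Fin n) (Fin n) L) j i ≠ 0 →
        w i ≤ w j) ∧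
      (((g * g₂⁻¹ : (Matrix (Fin n) (Fin n) L)ˣ) : Matrix (Fin n) (Fin n) L) j i ≠ 0 →
        w i ≤ w j)

/-- Feasibility depends only on the filtration. -/
def S_tra : Prop :=
  ∀ (L : Type v) [Field L] (n r : ℕ) (τ : Type)
    (Z : τ → Matrix (Fin r → Fin n) (Fin r → Fin n) L) (g g₂ : (Matrix (Fin n) (Fin n) L)ˣ)
    (w w₂ : Fin n → ℝ), Feas Z g w →
    (∀ j i, ((g₂ * g⁻¹ : (Matrix (Fin n) (Fin n) L)ˣ) : Matrix (Fin n) (Fin n) L) j i ≠ 0 →
      w i ≤ w₂ j) →
    (∀ j i, ((g * g₂⁻¹ : (Matrix (Fin n) (Fin n) L)ˣ) : Matrix (Fin n) (Fin n) L) j i ≠ 0 →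
      w₂ i ≤ w j) → Feas Z g₂ w₂

/-- Galois descent for subspaces of coordinate spaces. -/
def S_gal : Prop :=
  ∀ (K : Type v) [Field K] [CharZero K] (n : ℕ)
    (F : Submodule (AlgebraicClosure K) (Fin n → AlgebraicClosure K)),
    (∀ τ : AlgebraicClosure K ≃ₐ[K] AlgebraicClosure K, ∀ x ∈ F, (fun i => τ (x i)) ∈ F) →
    F = Submodule.span (AlgebraicClosure K)
      {x | x ∈ F ∧ ∃ y : Fin n → K, x = fun i => algebraMap K (AlgebraicClosure K) (y i)}

/-- The subspace `U` is stable under the representation `ρ`. -/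
def Stable {K : Type v} [Field K] {V : Type v} [AddCommGroup V] [Module K V] {Γ : Type w}
    [Group Γ] (ρ : Representation K Γ V) (U : Submodule K V) : Prop :=
  ∀ g, ∀ x ∈ U, ρ g x ∈ U

/-- The theorem in terms of representations: `V` is a semisimple representation of `Γ`, with a
nondegenerate form `ψ` (symmetric or antisymmetric) which is multiplied by `χ g` by `g`, and all
irreducible subrepresentations `U` of `V` are self-dual up to the twist by `χ`. A space `S` of
multilinear forms on `V` which is stable under `Γ`, under the operators commuting with `Γ` acting on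
one argument, and under the exchange of the two halves of the arguments is zero if all complete
contractions of the tensor products of members of `S` vanish (`e'` is the dual basis of `e`). -/
def S_Q : Prop :=
  ∀ (K : Type v) [Field K] [CharZero K], (K →+* ℂ) →
    ∀ (V : Type v) [AddCommGroup V] [Module K V] (Γ : Type w) [Group Γ] (ρ : Representation K Γ V)
      (χ : Γ → K) (ψ : V →ₗ[K] V →ₗ[K] K) (n r : ℕ) (e e' : Module.Basis (Fin n) K V) (ε : K),
      (∀ i j, ψ (e i) (e' j) = if i = j then 1 else 0) →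
      (∀ x y, ψ y x = ε * ψ x y) →
      (∀ g x y, ψ (ρ g x) (ρ g y) = χ g * ψ x y) →
      (∀ U, Stable ρ U → ∃ U', Stable ρ U' ∧ IsCompl U U') →
      (∀ U, Stable ρ U → U ≠ ⊥ → (∀ U' ≤ U, Stable ρ U' → U' = ⊥ ∨ U' = U) →
        ∃ b : V →ₗ[K] V →ₗ[K] K, (∃ x ∈ U, ∃ y ∈ U, b x y ≠ 0) ∧
          ∀ g, ∀ x ∈ U, ∀ y ∈ U, b (ρ g x) (ρ g y) = χ g * b x y) →
      ∀ S : Submodule K (MultilinearMap K (fun _ : Fin r ⊕ Fin r => V) K),
        (∀ a : V →ₗ[K] V, (∀ g x, a (ρ g x) = ρ g (a x)) → ∀ f ∈ S, ∀ s,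
          f.compLinearMap (Function.update (fun _ => LinearMap.id) s a) ∈ S) →
        (∀ g, ∀ f ∈ S, f.compLinearMap (fun _ => ρ g) ∈ S) →
        (∀ f ∈ S, f.domDomCongr (Equiv.sumComm (Fin r) (Fin r)) ∈ S) →
        (∀ k : ℕ, 0 < k → ∀ f : Fin k → MultilinearMap K (fun _ : Fin r ⊕ Fin r => V) K,
          (∀ t, f t ∈ S) → ∀ π : Equiv.Perm (Fin k × Fin r),
          ∑ I : Fin k × Fin r → Fin n,
            ∏ t, f t (Sum.elim (fun s => e (I (π (t, s)))) (fun s => e' (I (t, s)))) = 0) →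
        S = ⊥

end Pool.Agent.Y150.KN
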