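import Pool.Agent.Y150.KN.Coh
import Mathlib.AlgebraicGeometry.Group.Abelian

/-!
# Statements for the geometric part (project KN, helper150)
-/

set_option autoImplicit false

open CategoryTheory AlgebraicGeometry

namespace Pool.Agent.Y150.KN

universe u v w

open Pool.Agent.H914 VarClass Obj

/-- The part of the cohomology in degrees `2 i + ε`. -/
def par {k : Type u} [Field k] {𝒱 : VarClass k} {ops : CycleOps 𝒱} (W : Coh.{u, v} ops)
    (X : 𝒱.Obj) (ε : ℕ) : Submodule W.K (W.H X) :=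
  ⨆ i, W.gr X (2 * i + ε)

/-- An action of the group `Γ` on the cohomology by algebra automorphisms which commute with
pull-backs, multiply the orientations by a power of the character `χ` and multiply the classes of
the cycles of codimension `p` by `χ ^ p`. -/
structure GalAction {k : Type u} [Field k] {𝒱 : VarClass k} {ops : CycleOps 𝒱}
    (W : Coh.{u, v} ops) (Γ : Type w) [Group Γ] where
  /-- the action -/
  act : ∀ X : 𝒱.Obj, Γ →* (W.H X ≃ₐ[W.K] W.H X)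
  /-- the character -/
  χ : Γ →* W.Kˣ
  act_mem : ∀ {X : 𝒱.Obj} (g : Γ) {i : ℕ} {a : W.H X}, a ∈ W.gr X i → act X g a ∈ W.gr X i
  act_map : ∀ {X Y : 𝒱.Obj} (f : X ⟶ Y) (g : Γ) (a : W.H Y),
    act X g (W.map f a) = W.map f (act Y g a)
  tr_act : ∀ (X : 𝒱.Obj) (g : Γ) (a : W.H X), W.tr X (act X g a) = (χ g : W.K) ^ X.dim * W.tr X a
  act_cl : ∀ {X : 𝒱.Obj} (g : Γ) {p : ℕ} {z : X.Cycles}, X.IsCyc p z →
    act X g (W.cl X z) = (χ g : W.K) ^ p • W.cl X z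

/-- Powers exist. -/
def S_pw : Prop :=
  ∀ {k : Type u} [Field k] {𝒱 : VarClass k} (X : 𝒱.Obj) (m : ℕ), 0 < m →
    ∃ (P : 𝒱.Obj) (pr : Fin m → (P ⟶ X)),
      ∀ (ops : CycleOps 𝒱) (W : Coh.{u, v} ops), IsPw W X P pr

/-- The sign rule for products of homogeneous elements in two orders. -/
def S_sgn : Prop :=
  ∀ {ι : Type w} {L L' : List ι}, L.Perm L' → ∀ ε : ι → ℕ,
    ∃ s : ℤ, (s = 1 ∨ s = -1) ∧ ∀ (A : Type v) [Ring A] (y : ι → A),
      (∀ a b, a ≠ b → y a * y b = ((-1 : ℤ) ^ (ε a * ε b)) • (y b * y a)) →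
      (L.map y).prod = s • (L'.map y).prod

/-- Correspondences act on one factor of a power. -/
def S_slot : Prop :=
  ∀ {k : Type u} [Field k] {𝒱 : VarClass k} {ops : CycleOps 𝒱} (W : Coh.{u, v} ops)
    (X P : 𝒱.Obj) {m : ℕ} (pr : Fin m → (P ⟶ X)), IsPw W X P pr →
    ∀ (V : Type v) [AddCommGroup V] [Module W.K V] (j : V →ₗ[W.K] W.H X)
      (γ : W.H (X.prod X)), γ ∈ W.algSpan (X.prod X) → ∀ a : Module.End W.K V,
      (∀ x, W.push (fst X X) (γ * W.map (snd X X) (j x)) = j (a x)) →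
      ∀ (s : Fin m), ∀ z ∈ W.numTriv P, ∃ z' ∈ W.numTriv P,
        (frm W pr j z).compLinearMap (Function.update (fun _ => LinearMap.id) s a) =
          frm W pr j z'

/-- The group `Γ` acts on the numerically trivial forms. -/
def S_gam : Prop :=
  ∀ {k : Type u} [Field k] {𝒱 : VarClass k} {ops : CycleOps 𝒱} (W : Coh.{u, v} ops)
    {Γ : Type w} [Group Γ] (A : GalAction W Γ)
    (X P : 𝒱.Obj) {m : ℕ} (pr : Fin m → (P ⟶ X)), IsPw W X P pr →
    ∀ (V : Type v) [AddCommGroup V] [Module W.K V] (j : V →ₗ[W.K] W.H X) (g : Γ)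
      (a : Module.End W.K V) (c : W.K), c ≠ 0 → (∀ x, A.act X g (j x) = c • j (a x)) →
      ∀ z ∈ W.numTriv P, ∃ z' ∈ W.numTriv P,
        (frm W pr j z).compLinearMap (fun _ => a) = frm W pr j z'

/-- Permutations of the factors; `ev` and `od` are the projections to the parts of `V` of even and
of odd degree. -/
def S_swap : Prop :=
  ∀ {k : Type u} [Field k] {𝒱 : VarClass k} {ops : CycleOps 𝒱} (W : Coh.{u, v} ops)
    (X P : 𝒱.Obj) {m : ℕ} (pr : Fin m → (P ⟶ X)), IsPw W X P pr →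
    ∀ (V : Type v) [AddCommGroup V] [Module W.K V] (j : V →ₗ[W.K] W.H X)
      (ev od : Module.End W.K V), ev + od = 1 → (∀ x, j (ev x) ∈ par W X 0) →
      (∀ x, j (od x) ∈ par W X 1) →
      ∀ (σ : Equiv.Perm (Fin m)), ∀ z ∈ W.numTriv P,
        (frm W pr j z).domDomCongr σ ∈ Submodule.span W.K
          {f | ∃ z' ∈ W.numTriv P, ∃ T : Fin m → Module.End W.K V,
            (∀ i, T i = ev ∨ T i = od) ∧ f = (frm W pr j z').compLinearMap T}

/-- Complete contractions of homogeneous numerically trivial forms vanish. -/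
def S_null : Prop :=
  ∀ {k : Type u} [Field k] {𝒱 : VarClass k} {ops : CycleOps 𝒱} (W : Coh.{u, v} ops)
    (X P : 𝒱.Obj) {r : ℕ} (pr : Fin (r + r) → (P ⟶ X)), IsPw W X P pr →
    ∀ (V : Type v) [AddCommGroup V] [Module W.K V] (j : V →ₗ[W.K] W.H X)
      (ev od : Module.End W.K V), ev + od = 1 → (∀ x, j (ev x) ∈ par W X 0) →
      (∀ x, j (od x) ∈ par W X 1) →
      ∀ (n : ℕ) (e e' : Fin n → V),
        (∀ i, (ev (e i) = e i ∧ od (e i) = 0 ∧ ev (e' i) = e' i ∧ od (e' i) = 0) ∨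
          (ev (e i) = 0 ∧ od (e i) = e i ∧ ev (e' i) = 0 ∧ od (e' i) = e' i)) →
        ∑ i, W.map (fst X X) (j (e i)) * W.map (snd X X) (j (e' i)) ∈ W.algSpan (X.prod X) →
        ∀ (l : ℕ), 0 < l → ∀ z : Fin l → W.H P, (∀ t, z t ∈ W.numTriv P) →
          ∀ T : Fin l → Fin (r + r) → Module.End W.K V, (∀ t i, T t i = ev ∨ T t i = od) →
          (∀ t, (frm W pr j (z t)).compLinearMap (T t) = frm W pr j (z t)) →
          ∀ π : Equiv.Perm (Fin l × Fin r),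
            ∑ I : Fin l × Fin r → Fin n, ∏ t, frm W pr j (z t) (fun i =>
              Sum.elim (fun s => e (I (π (t, s)))) (fun s => e' (I (t, s)))
                (finSumFinEquiv.symm i)) = 0

/-! ## Abelian varieties -/

/-- The group law of a group scheme in terms of the varieties of the class. -/
def S_grp : Prop :=
  ∀ {k : Type u} [Field k] {𝒱 : VarClass k} (X : 𝒱.Obj), GrpObj (Over.mk X.V.str) →
    ∃ (m : X.prod X ⟶ X) (o : X ⟶ X), fst X X ≫ o = snd X X ≫ o ∧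
      Obj.lift (𝟙 X) o ≫ m = 𝟙 X ∧ Obj.lift o (𝟙 X) ≫ m = 𝟙 X

/-- The comultiplication on the first cohomology. -/
def S_av1 : Prop :=
  ∀ {k : Type u} [Field k] {𝒱 : VarClass k} {ops : CycleOps 𝒱} (W : Coh.{u, v} ops)
    (X : 𝒱.Obj) (m : X.prod X ⟶ X) (o : X ⟶ X), fst X X ≫ o = snd X X ≫ o →
      Obj.lift (𝟙 X) o ≫ m = 𝟙 X → Obj.lift o (𝟙 X) ≫ m = 𝟙 X →
      ∀ v ∈ W.gr X 1, W.map m v = W.map (fst X X) v + W.map (snd X X) v

/-- Sums of morphisms. -/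
def S_sum : Prop :=
  ∀ {k : Type u} [Field k] {𝒱 : VarClass k} {ops : CycleOps 𝒱} (W : Coh.{u, v} ops)
    (X : 𝒱.Obj) (m : X.prod X ⟶ X),
      (∀ v ∈ W.gr X 1, W.map m v = W.map (fst X X) v + W.map (snd X X) v) →
      ∀ (P : 𝒱.Obj) (n : ℕ) (f : Fin (n + 1) → (P ⟶ X)), ∃ F : P ⟶ X,
        ∀ v ∈ W.gr X 1, W.map F v = ∑ i, W.map (f i) v

/-- The polarization. -/
def S_av2 : Prop :=
  ∀ {k : Type u} [Field k] {𝒱 : VarClass k} {ops : CycleOps 𝒱} (W : Coh.{u, v} ops)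
    (X : 𝒱.Obj) (m : X.prod X ⟶ X), 0 < X.dim →
      (∀ v ∈ W.gr X 1, W.map m v = W.map (fst X X) v + W.map (snd X X) v) →
      Algebra.adjoin W.K (W.gr X 1 : Set (W.H X)) = ⊤ →
      ∀ ξ ∈ W.gr X 2, W.tr X (ξ ^ X.dim) ≠ 0 →
      (∀ x ∈ W.gr X 1, (∀ y ∈ W.gr X 1, W.tr X (x * y * ξ ^ (X.dim - 1)) = 0) → x = 0) ∧
      ∃ (n : ℕ) (e e' : Module.Basis (Fin n) W.K (W.gr X 1))
        (ψ : W.gr X 1 →ₗ[W.K] W.gr X 1 →ₗ[W.K] W.K),
        (∀ i j, ψ (e i) (e' j) = if i = j then 1 else 0) ∧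
        (∀ x y, ψ y x = - ψ x y) ∧
        W.map m ξ - W.map (fst X X) ξ - W.map (snd X X) ξ =
          ∑ i, W.map (fst X X) (e i : W.H X) * W.map (snd X X) (e' i : W.H X) ∧
        ∀ (B : W.H X →ₐ[W.K] W.H X) (B₂ : W.H (X.prod X) →ₐ[W.K] W.H (X.prod X)) (c : W.K)
          (b : Module.End W.K (W.gr X 1)), (∀ a, B₂ (W.map (fst X X) a) = W.map (fst X X) (B a)) →
          (∀ a, B₂ (W.map (snd X X) a) = W.map (snd X X) (B a)) →
          (∀ a, B₂ (W.map m a) = W.map m (B a)) → B ξ = c • ξ →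
          (∀ x : W.gr X 1, B x = (b x : W.H X)) → Function.Surjective b →
          ∀ x y, ψ (b x) (b y) = c * ψ x y

/-- Linear combinations of the operators given by endomorphisms act through algebraic
correspondences. -/
def S_av4 : Prop :=
  ∀ {k : Type u} [Field k] {𝒱 : VarClass k} {ops : CycleOps 𝒱} (W : Coh.{u, v} ops)
    (X : 𝒱.Obj) (ζ : W.H X), ζ ∈ W.gr X (2 * (X.dim - 1)) → 0 < X.dim →
      ∀ a a' : Module.End W.K (W.gr X 1),
        (∀ x y : W.gr X 1, W.tr X ((a x : W.H X) * (y : W.H X) * ζ) =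
          W.tr X ((x : W.H X) * (a' y : W.H X) * ζ)) →
        a' ∈ Submodule.span W.K {b : Module.End W.K (W.gr X 1) |
          ∃ h : X ⟶ X, ∀ x : W.gr X 1, (b x : W.H X) = W.map h (x : W.H X)} →
        ∃ γ ∈ W.algSpan (X.prod X), ∀ x : W.gr X 1,
          W.push (fst X X) (γ * W.map (snd X X) ((x : W.H X) * ζ)) = (a x : W.H X) * ζ

/-- From forms to classes. -/
def S_av3 : Prop :=
  ∀ {k : Type u} [Field k] {𝒱 : VarClass k} {ops : CycleOps 𝒱} (W : Coh.{u, v} ops)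
    (X P : 𝒱.Obj) {n : ℕ} (pr : Fin n → (P ⟶ X)), IsPw W X P pr → 0 < n → 0 < X.dim →
      Algebra.adjoin W.K (W.gr X 1 : Set (W.H X)) = ⊤ →
      ∀ ζ ∈ W.gr X (2 * (X.dim - 1)),
      (∀ x ∈ W.gr X 1, (∀ y ∈ W.gr X 1, W.tr X (x * y * ζ) = 0) → x = 0) →
      ∀ F : P ⟶ X, (∀ v ∈ W.gr X 1, W.map F v = ∑ i, W.map (pr i) v) →
      ∀ z ∈ W.gr X n, (∀ x : Fin n → W.H X, (∀ i, x i ∈ W.gr X 1) →
        W.tr P (W.map F z * (List.ofFn fun i => W.map (pr i) (x i * ζ)).prod) = 0) → z = 0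

end Pool.Agent.Y150.KN
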