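import Pool.Agent.Y150.KN.Stm3
import Pool.Agent.Y150.KN.Stm

/-!
# Statements on correspondences (project KN, helper150)
-/

set_option autoImplicit false

open CategoryTheory AlgebraicGeometry

namespace Pool.Agent.Y150.KN

universe u v w

open Pool.Agent.H914 VarClass Obj

/-- The operator on the cohomology of `X` defined by a class on `X × X`. -/
noncomputable def op {k : Type u} [Field k] {𝒱 : VarClass k} {ops : CycleOps 𝒱}
    (W : Coh.{u, v} ops) {X : 𝒱.Obj} (γ : W.H (X.prod X)) : Module.End W.K (W.H X) :=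
  W.push (fst X X) ∘ₗ LinearMap.mulLeft W.K γ ∘ₗ (W.map (snd X X)).toLinearMap

lemma op_apply {k : Type u} [Field k] {𝒱 : VarClass k} {ops : CycleOps 𝒱}
    (W : Coh.{u, v} ops) {X : 𝒱.Obj} (γ : W.H (X.prod X)) (x : W.H X) :
    op W γ x = W.push (fst X X) (γ * W.map (snd X X) x) := rfl

/-- Every operator is given by a unique class. -/
def S_op1 : Prop :=
  ∀ {k : Type u} [Field k] {𝒱 : VarClass k} {ops : CycleOps 𝒱} (W : Coh.{u, v} ops)
    (X : 𝒱.Obj), Function.Bijective (fun γ : W.H (X.prod X) => op W γ)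

/-- The degree of the class of a homogeneous operator. -/
def S_op2 : Prop :=
  ∀ {k : Type u} [Field k] {𝒱 : VarClass k} {ops : CycleOps 𝒱} (W : Coh.{u, v} ops)
    (X : 𝒱.Obj) (γ : W.H (X.prod X)) (p : ℕ),
    (∀ i l, ∀ x ∈ W.gr X i, ∀ y ∈ W.gr X l, i + l + 2 * p ≠ 4 * X.dim →
      W.tr X (y * op W γ x) = 0) → γ ∈ W.gr (X.prod X) (2 * p)

/-- The action of the group on operators. -/
def S_op3 : Prop :=
  ∀ {k : Type u} [Field k] {𝒱 : VarClass k} {ops : CycleOps 𝒱} (W : Coh.{u, v} ops)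
    {Γ : Type w} [Group Γ] (A : GalAction W Γ) (X : 𝒱.Obj) (γ : W.H (X.prod X)) (g : Γ)
    (x : W.H X), op W (A.act (X.prod X) g γ) (A.act X g x) =
      (A.χ g : W.K) ^ X.dim • A.act X g (op W γ x)

/-- Algebraic operators are closed under composition. -/
def S_op4 : Prop :=
  ∀ {k : Type u} [Field k] {𝒱 : VarClass k} {ops : CycleOps 𝒱} (W : Coh.{u, v} ops)
    (X : 𝒱.Obj), ∀ γ ∈ W.algSpan (X.prod X), ∀ γ' ∈ W.algSpan (X.prod X),
      ∃ γ'' ∈ W.algSpan (X.prod X), op W γ'' = op W γ * op W γ'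

/-- The identity operator is algebraic, and algebraic operators are closed under adjunction. -/
def S_op5 : Prop :=
  ∀ {k : Type u} [Field k] {𝒱 : VarClass k} {ops : CycleOps 𝒱} (W : Coh.{u, v} ops)
    (X : 𝒱.Obj), (∃ γ ∈ W.algSpan (X.prod X), op W γ = 1) ∧
      ∀ γ ∈ W.algSpan (X.prod X), ∃ γ' ∈ W.algSpan (X.prod X),
        ∀ x y, W.tr X (op W γ x * y) = W.tr X (x * op W γ' y)

/-- Dual homogeneous bases. -/
def S_bas : Prop :=
  ∀ {k : Type u} [Field k] {𝒱 : VarClass k} {ops : CycleOps 𝒱} (W : Coh.{u, v} ops)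
    (X : 𝒱.Obj), ∃ (n : ℕ) (e e' : Module.Basis (Fin n) W.K (W.H X)),
      (∀ i j, W.tr X (e i * e' j) = if i = j then 1 else 0) ∧
      ∀ i, ∃ l, l ≤ 2 * X.dim ∧ e i ∈ W.gr X l ∧ e' i ∈ W.gr X (2 * X.dim - l)

/-- Products of powers are powers. -/
def S_pwprod : Prop :=
  ∀ {k : Type u} [Field k] {𝒱 : VarClass k} {ops : CycleOps 𝒱} (W : Coh.{u, v} ops)
    (X P Q : 𝒱.Obj) {m n : ℕ} (pr : Fin m → (P ⟶ X)) (qr : Fin n → (Q ⟶ X)),
    IsPw W X P pr → IsPw W X Q qr →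
      IsPw W X (P.prod Q)
        (Fin.append (fun i => fst P Q ≫ pr i) (fun i => snd P Q ≫ qr i))

end Pool.Agent.Y150.KN
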