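import Pool.Agent.Y150.KN.AV2
import Pool.Agent.Y150.KN.Stm4

/-!
# Statements for the specialization theorem (project KN, helper150)
-/

set_option autoImplicit false

open CategoryTheory AlgebraicGeometry

namespace Pool.Agent.Y150.KN

universe u v w

open Pool.Agent.H914 VarClass Obj

/-- Every family of members of `T` which is linearly independent over `ℚ` is linearly independent
over `K`. -/
def QK (K : Type*) [Field K] {M : Type*} [AddCommGroup M] [Module K M] (T : Set M) : Prop :=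
  ∀ (N : ℕ) (f : Fin N → M), (∀ i, f i ∈ T) →
    (∀ q : Fin N → ℚ, ∑ i, (q i : K) • f i = 0 → q = 0) →
      ∀ c : Fin N → K, ∑ i, c i • f i = 0 → c = 0

/-! ## Linear algebra -/

/-- Commutative algebras with positive involution acting on spaces of multilinear forms. -/
def S_ann : Prop :=
  ∀ (K : Type v) [Field K] [CharZero K] (V : Type v) [AddCommGroup V] [Module K V] (n m : ℕ)
    (e e' : Module.Basis (Fin n) K V) (ψ : V →ₗ[K] V →ₗ[K] K),
    (∀ i j, ψ (e i) (e' j) = if i = j then 1 else 0) → (∀ x y, ψ y x = - ψ x y) →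
    ∀ C : Subring (Module.End K V), (∀ a ∈ C, ∀ b ∈ C, a * b = b * a) →
    (∀ q : ℚ, ∀ a ∈ C, (q : K) • a ∈ C) →
    (∀ a ∈ C, ∃ a' ∈ C, (∀ x y, ψ (a x) y = ψ x (a' y)) ∧
      ∃ q : ℚ, LinearMap.trace K V (a * a') = (q : K) ∧ (a ≠ 0 → 0 < q)) →
    ∀ F : AddSubgroup (MultilinearMap K (fun _ : Fin m => V) K),
    (∀ q : ℚ, ∀ f ∈ F, (q : K) • f ∈ F) →
    (∀ a ∈ C, ∀ f ∈ F, ∀ s,
      f.compLinearMap (Function.update (fun _ => LinearMap.id) s a) ∈ F) →
    QK K (F : Set (MultilinearMap K (fun _ : Fin m => V) K)) →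
    ∀ a a' : Fin m → Module.End K V,
      (∀ s, a s ∈ Submodule.span K (C : Set (Module.End K V))) →
      (∀ s x y, ψ (a s x) y = ψ x (a' s y)) →
      ∀ f ∈ F, f.compLinearMap a = 0 → f.compLinearMap a' = 0

/-- A subspace of a semisimple representation which is stable under the group and its commutant is
the image of a central projector. -/
def S_cent : Prop :=
  ∀ (K : Type v) [Field K] (V : Type v) [AddCommGroup V] [Module K V] [FiniteDimensional K V]
    (Γ : Type w) [Group Γ] (ρ : Representation K Γ V),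
    (∀ U, Stable ρ U → ∃ U', Stable ρ U' ∧ IsCompl U U') →
    ∀ F : Submodule K V, Stable ρ F → (∀ a ∈ commAlg ρ, ∀ x ∈ F, a x ∈ F) →
      ∃ p ∈ commAlg ρ, (∀ a ∈ commAlg ρ, p * a = a * p) ∧ (∀ x, p x ∈ F) ∧ ∀ x ∈ F, p x = x

/-- The centralizer of a `ℚ`-algebra in its linear hull over `K` is the linear hull of the
center. -/
def S_zen : Prop :=
  ∀ (K : Type v) [Field K] [CharZero K] (V : Type v) [AddCommGroup V] [Module K V]
    [FiniteDimensional K V] (O : Subring (Module.End K V)), (∀ q : ℚ, ∀ a ∈ O, (q : K) • a ∈ O) →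
    QK K (O : Set (Module.End K V)) →
    ∀ z ∈ Submodule.span K (O : Set (Module.End K V)), (∀ a ∈ O, z * a = a * z) →
      z ∈ Submodule.span K {c | c ∈ O ∧ ∀ a ∈ O, c * a = a * c}

/-- Transport of independence. -/
def S_qk : Prop :=
  ∀ (K K' : Type v) [Field K] [CharZero K] [Field K'] [CharZero K'] (M M' : Type v)
    [AddCommGroup M] [Module K M] [AddCommGroup M'] [Module K' M'] (ι : K →+* K') (s : M →+ M'),
    Function.Injective s → (∀ (c : K) x, s (c • x) = ι c • s x) → ∀ (T : Set M) (T' : Set M'),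
    (∀ x ∈ T, s x ∈ T') → QK K' T' → QK K T

/-! ## Rational classes -/

/-- The classes of the cycles of codimension `p` (with rational coefficients). -/
def ratCl {k : Type u} [Field k] {𝒱 : VarClass k} {ops : CycleOps 𝒱} (W : Coh.{u, v} ops)
    (X : 𝒱.Obj) (p : ℕ) : AddSubgroup (W.H X) where
  carrier := {x | ∃ z, X.IsCyc p z ∧ W.cl X z = x}
  add_mem' := by
    rintro _ _ ⟨z, hz, rfl⟩ ⟨w, hw, rfl⟩
    exact ⟨z + w, hz.add hw, _root_.map_add _ _ _⟩
  zero_mem' := ⟨0, SmVar.IsCyc.zero _ _, _root_.map_zero _⟩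
  neg_mem' := by
    rintro _ ⟨z, hz, rfl⟩
    refine ⟨(-1 : ℚ) • z, hz.smul _, ?_⟩
    rw [W.cl_smul]
    simp

/-- The `ℚ`-algebra of operators on the first cohomology generated by the pull-backs along the
endomorphisms of the variety. -/
def ratEnd {k : Type u} [Field k] {𝒱 : VarClass k} {ops : CycleOps 𝒱} (W : Coh.{u, v} ops)
    (X : 𝒱.Obj) : Subring (Module.End W.K (W.gr X 1)) :=
  Subring.closure {b | ∃ (q : ℚ) (h : X ⟶ X), ∀ x : W.gr X 1,
    (b x : W.H X) = (q : W.K) • W.map h (x : W.H X)}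

/-- The adjoints of the operators of `ratEnd` act on the arguments of the forms defined by classes
of cycles. -/
def S_rslot : Prop :=
  ∀ {k : Type u} [Field k] {𝒱 : VarClass k} {ops : CycleOps 𝒱} (W : Coh.{u, v} ops)
    (X P : 𝒱.Obj) {m : ℕ} (pr : Fin m → (P ⟶ X)), IsPw W X P pr → 0 < X.dim →
      ∀ ζ ∈ W.gr X (2 * (X.dim - 1)),
      (∀ x ∈ W.gr X 1, (∀ y ∈ W.gr X 1, W.tr X (x * y * ζ) = 0) → x = 0) →
      ∀ j : W.gr X 1 →ₗ[W.K] W.H X, (∀ x, j x = (x : W.H X) * ζ) →
      ∀ a a' : Module.End W.K (W.gr X 1),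
        (∀ x y : W.gr X 1, W.tr X ((a x : W.H X) * (y : W.H X) * ζ) =
          W.tr X ((x : W.H X) * (a' y : W.H X) * ζ)) → a' ∈ ratEnd W X →
        ∀ (s : Fin m) (p : ℕ), ∀ z ∈ ratCl W P p, ∃ z' ∈ ratCl W P p,
          (frm W pr j z).compLinearMap (Function.update (fun _ => LinearMap.id) s a) =
            frm W pr j z'

/-- The projector to the part of multidegree `(1, …, 1)`. -/
def S_pure : Prop :=
  ∀ {k : Type u} [Field k] {𝒱 : VarClass k} {ops : CycleOps 𝒱} (W : Coh.{u, v} ops)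
    (X P : 𝒱.Obj) {n : ℕ} (pr : Fin n → (P ⟶ X)), IsPw W X P pr → 0 < X.dim →
      ∀ m : X.prod X ⟶ X,
      (∀ v ∈ W.gr X 1, W.map m v = W.map (fst X X) v + W.map (snd X X) v) →
      Algebra.adjoin W.K (W.gr X 1 : Set (W.H X)) = ⊤ →
      ∀ ζ ∈ W.gr X (2 * (X.dim - 1)),
      (∀ x ∈ W.gr X 1, (∀ y ∈ W.gr X 1, W.tr X (x * y * ζ) = 0) → x = 0) →
      ∀ j : W.gr X 1 →ₗ[W.K] W.H X, (∀ x, j x = (x : W.H X) * ζ) →
      ∃ T : Module.End W.K (W.H P), (∀ p, ∀ z ∈ ratCl W P p, T z ∈ ratCl W P p) ∧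
        (∀ z, frm W pr j (T z) = frm W pr j z) ∧ ∀ z, frm W pr j z = 0 → T z = 0

/-- The form defined by an exterior product. -/
def S_fprod : Prop :=
  ∀ {k : Type u} [Field k] {𝒱 : VarClass k} {ops : CycleOps 𝒱} (W : Coh.{u, v} ops)
    (X P : 𝒱.Obj) {m : ℕ} (pr : Fin m → (P ⟶ X)) (V : Type v) [AddCommGroup V] [Module W.K V]
    (j : V →ₗ[W.K] W.H X) (z : W.H P), ∀ y ∈ W.algSpan P, ∀ x x' : Fin m → V,
      frm W (Fin.append (fun i => fst P P ≫ pr i) (fun i => snd P P ≫ pr i)) j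
        (W.map (fst P P) z * W.map (snd P P) y) (Fin.append x x') =
          frm W pr j z x * frm W pr j y x'

/-- From forms on powers to classes on powers. -/
def S_av5 : Prop :=
  ∀ {k : Type u} [Field k] {𝒱 : VarClass k} {ops : CycleOps 𝒱} (W : Coh.{u, v} ops)
    (X : 𝒱.Obj) (m : X.prod X ⟶ X), 0 < X.dim →
      (∀ v ∈ W.gr X 1, W.map m v = W.map (fst X X) v + W.map (snd X X) v) →
      Algebra.adjoin W.K (W.gr X 1 : Set (W.H X)) = ⊤ →
      ∀ ξ ∈ W.gr X 2, ξ ∈ W.algSpan X → W.tr X (ξ ^ X.dim) ≠ 0 →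
      (∀ x ∈ W.gr X 1, (∀ y ∈ W.gr X 1, W.tr X (x * y * ξ ^ (X.dim - 1)) = 0) → x = 0) →
      ∀ j : W.gr X 1 →ₗ[W.K] W.H X, (∀ x, j x = (x : W.H X) * ξ ^ (X.dim - 1)) →
      (∀ p : ℕ, 0 < p → ∀ (P : 𝒱.Obj) (pr : Fin (p + p) → (P ⟶ X)), IsPw W X P pr →
        ∀ z ∈ W.numTriv P, frm W pr j z = 0) →
      ∀ n : ℕ, 0 < n → ∀ (Y : 𝒱.Obj) (qr : Fin n → (Y ⟶ X)), IsPw W X Y qr →
        ∀ p, ∀ z ∈ W.gr Y (2 * p), z ∈ W.numTriv Y → z = 0

/-! ## Theories with degrees of zero-cycles -/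

/-- The degree over `k` of the residue field of a point of a variety over `k`. -/
noncomputable def resDeg {k : Type u} [Field k] (X : SmVar k) (x : X.X) : ℕ :=
  letI : Algebra k (X.X.residueField x) :=
    (Spec.preimage (X.X.fromSpecResidueField x ≫ X.str)).hom.toAlgebra
  Module.finrank k (X.X.residueField x)

/-- The degree of a zero-cycle on a variety over `k`: the sum of its coefficients, multiplied with
the degrees of the residue fields over `k`. -/
noncomputable def degOver {k : Type u} [Field k] (X : SmVar k) (z : X.Cycles) : ℚ :=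
  Finsupp.sum (z : X.X →₀ ℚ) (fun x c => c * resDeg X x)

/-- A cohomology theory with the axiom on the degrees of zero-cycles: the orientation of the class
of a zero-cycle is its degree. -/
structure ArithCoh {k : Type u} [Field k] {𝒱 : VarClass k} (ops : CycleOps 𝒱) extends
    Coh.{u, v} ops where
  tr_cl : ∀ {X : 𝒱.Obj} {z : X.Cycles}, X.IsCyc X.dim z → tr X (cl X z) = (degOver X.V z : K)

/-- Numerical and homological equivalence coincide on `X`: if all intersection numbers of a cycle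
of codimension `p` with the cycles of complementary codimension vanish, then so does its class. -/
def NumEqHom {k : Type u} [Field k] {𝒱 : VarClass k} {ops : CycleOps 𝒱} (W : ArithCoh.{u, v} ops)
    (X : 𝒱.Obj) : Prop :=
  ∀ (p : ℕ) (z : X.Cycles), X.IsCyc p z →
    (∀ (q : ℕ) (w : X.Cycles), p + q = X.dim → X.IsCyc q w → degOver X.V (ops.mul z w) = 0) →
      W.cl X z = 0

/-- If numerical and homological equivalence coincide then independent classes of cycles stay
independent over the field of coefficients. -/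
def S_dinj : Prop :=
  ∀ {k : Type u} [Field k] {𝒱 : VarClass k} {ops : CycleOps 𝒱} (W : ArithCoh.{u, v} ops)
    (Y : 𝒱.Obj), NumEqHom W Y → ∀ p, QK W.K (ratCl W.toCoh Y p : Set (W.H Y))

/-- The powers of a variety: `pw X n` is the power with `n + 1` factors. -/
noncomputable def pw {k : Type u} [Field k] {𝒱 : VarClass k} (X : 𝒱.Obj) : ℕ → 𝒱.Obj
  | 0 => X
  | n + 1 => X.prod (pw X n)

/-- The powers are powers. -/
def S_pws : Prop :=
  ∀ {k : Type u} [Field k] {𝒱 : VarClass k} {ops : CycleOps 𝒱} (W : Coh.{u, v} ops) (X : 𝒱.Obj)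
    (n : ℕ), ∃ pr : Fin (n + 1) → (pw X n ⟶ X), IsPw W X (pw X n) pr

end Pool.Agent.Y150.KN
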