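import Mathlib

/-!
# Tensor powers of matrices, in coordinates
-/

set_option autoImplicit false

namespace Pool.Agent.Y150.KN

open Matrix

universe u v

section Tp

variable {R : Type u} [CommRing R] {n : ℕ} {α : Type} [Fintype α]

/-- The tensor power `M ⊗ ⋯ ⊗ M`, with factors indexed by `α`, of a square matrix `M`. -/
def tp (α : Type) [Fintype α] (M : Matrix (Fin n) (Fin n) R) :
    Matrix (α → Fin n) (α → Fin n) R :=
  Matrix.of fun J I => ∏ a, M (J a) (I a)

@[simp] lemma tp_apply (M : Matrix (Fin n) (Fin n) R) (J I : α → Fin n) :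
    tp α M J I = ∏ a, M (J a) (I a) := rfl

lemma tp_mul [DecidableEq α] (M N : Matrix (Fin n) (Fin n) R) :
    tp α (M * N) = tp α M * tp α N := by
  ext J I
  simp only [tp_apply, Matrix.mul_apply]
  rw [Finset.prod_univ_sum]
  simp only [Fintype.piFinset_univ, Finset.prod_mul_distrib]

lemma tp_one [DecidableEq α] : tp α (1 : Matrix (Fin n) (Fin n) R) = 1 := by
  ext J I
  simp only [tp_apply, Matrix.one_apply]
  by_cases h : J = I
  · subst h
    simp
  · rw [if_neg h]
    obtain ⟨a, ha⟩ := Function.ne_iff.1 h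
    exact Finset.prod_eq_zero (Finset.mem_univ a) (if_neg ha)

lemma tp_map {S : Type v} [CommRing S] (f : R →+* S) (M : Matrix (Fin n) (Fin n) R) :
    tp α (M.map f) = (tp α M).map f := by
  ext J I
  simp

lemma tp_diagonal [DecidableEq α] (d : Fin n → R) :
    tp α (Matrix.diagonal d) = Matrix.diagonal fun J : α → Fin n => ∏ a, d (J a) := by
  ext J I
  simp only [tp_apply, Matrix.diagonal_apply]
  by_cases h : J = I
  · subst h
    simp
  · rw [if_neg h]
    obtain ⟨a, ha⟩ := Function.ne_iff.1 h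
    exact Finset.prod_eq_zero (Finset.mem_univ a) (if_neg ha)

lemma tp_transpose (M : Matrix (Fin n) (Fin n) R) : tp α Mᵀ = (tp α M)ᵀ := by
  ext J I
  simp

lemma tp_conjTranspose (M : Matrix (Fin n) (Fin n) ℂ) : tp α Mᴴ = (tp α M)ᴴ := by
  ext J I
  simp [Matrix.conjTranspose_apply]

lemma tp_mul_cancel [DecidableEq α] {M N : Matrix (Fin n) (Fin n) R} (h : M * N = 1) :
    tp α M * tp α N = 1 := by
  rw [← tp_mul, h, tp_one]

/-- The action of a permutation of the factors. -/
def pm (R : Type u) [CommRing R] (n : ℕ) {α : Type} [Fintype α] [DecidableEq α]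
    (π : Equiv.Perm α) : Matrix (α → Fin n) (α → Fin n) R :=
  Matrix.of fun J I => if J = I ∘ π then 1 else 0

@[simp] lemma pm_apply [DecidableEq α] (π : Equiv.Perm α) (J I : α → Fin n) :
    pm R n π J I = if J = I ∘ π then 1 else 0 := rfl

lemma mul_pm [DecidableEq α] (A : Matrix (α → Fin n) (α → Fin n) R) (π : Equiv.Perm α)
    (J I : α → Fin n) : (A * pm R n π) J I = A J (I ∘ π) := by
  simp [Matrix.mul_apply]

lemma pm_mul [DecidableEq α] (A : Matrix (α → Fin n) (α → Fin n) R) (π : Equiv.Perm α)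
    (J I : α → Fin n) : (pm R n π * A) J I = A (J ∘ π.symm) I := by
  rw [Matrix.mul_apply, Finset.sum_eq_single (J ∘ π.symm)]
  · rw [pm_apply, if_pos (by ext a; simp), one_mul]
  · intro K _ hK
    rw [pm_apply, if_neg, zero_mul]
    intro h
    exact hK (by rw [h]; ext a; simp)
  · intro h
    exact absurd (Finset.mem_univ _) h

lemma tp_comm_pm [DecidableEq α] (M : Matrix (Fin n) (Fin n) R) (π : Equiv.Perm α) :
    tp α M * pm R n π = pm R n π * tp α M := by
  ext J I
  rw [mul_pm, pm_mul, tp_apply, tp_apply]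
  exact Fintype.prod_equiv π _ _ fun a => by simp

end Tp

section Null

variable {R : Type u} [CommRing R] {n r : ℕ}

/-- The matrices `Z t`, endomorphisms of the tensor power `V ⊗ ⋯ ⊗ V` with `r` factors, are a null
family: for all `k > 0`, all `Z (w 1), …, Z (w k)` and all permutations `π` of the `k r` factors the
trace of the composition of the tensor product of the `Z (w t)` with `π` vanishes. -/
def Null {τ : Type} (Z : τ → Matrix (Fin r → Fin n) (Fin r → Fin n) R) : Prop :=
  ∀ k : ℕ, 0 < k → ∀ (w : Fin k → τ) (π : Equiv.Perm (Fin k × Fin r)),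
    ∑ I : Fin k × Fin r → Fin n,
      ∏ t, Z (w t) (fun s => I (t, s)) (fun s => I (π (t, s))) = 0

/-- The weights `w` and the basis change `g` are feasible for the family `Z`: every nonzero entry
of `g Z g⁻¹` raises the weight by at least one. -/
def Feas {τ : Type} (Z : τ → Matrix (Fin r → Fin n) (Fin r → Fin n) R)
    (g : (Matrix (Fin n) (Fin n) R)ˣ) (w : Fin n → ℝ) : Prop :=
  ∀ t J I, (tp (Fin r) (g : Matrix (Fin n) (Fin n) R) * Z t *
    tp (Fin r) ((g⁻¹ : (Matrix (Fin n) (Fin n) R)ˣ) : Matrix (Fin n) (Fin n) R)) J I ≠ 0 →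
      ∑ s, w (I s) + 1 ≤ ∑ s, w (J s)

end Null

end Pool.Agent.Y150.KN
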