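import Pool.Agent.Y150.KN.Stm5

/-!
# Filtrations and systems of central projectors (project KN, helper150)
-/

set_option autoImplicit false

namespace Pool.Agent.Y150.KN

universe v w

/-- A finite system of central projectors of a representation, indexed by real numbers, which is
symmetric with respect to the form `ψ`. -/
structure WSys {K : Type v} [Field K] {V : Type v} [AddCommGroup V] [Module K V] {Γ : Type w}
    [Group Γ] (ρ : Representation K Γ V) (ψ : V →ₗ[K] V →ₗ[K] K) (T : Finset ℝ)
    (π : ℝ → Module.End K V) : Prop where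
  mem : ∀ b, π b ∈ commAlg ρ
  cent : ∀ b, ∀ a ∈ commAlg ρ, π b * a = a * π b
  idem : ∀ b, π b * π b = π b
  sum : ∑ b ∈ T, π b = 1
  adj : ∀ b x y, ψ (π b x) y = ψ x (π (-b) y)

/-- The structure theorem: the weights of the members of a space of forms with vanishing
contractions. -/
def S_Q3 : Prop :=
  ∀ (K : Type v) [Field K] [CharZero K], (K →+* ℂ) →
    ∀ (V : Type v) [AddCommGroup V] [Module K V] (Γ : Type w) [Group Γ] (ρ : Representation K Γ V)
      (ψ : V →ₗ[K] V →ₗ[K] K) (n r : ℕ) (e e' : Module.Basis (Fin n) K V) (χ : Γ → K),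
      (∀ i j, ψ (e i) (e' j) = if i = j then 1 else 0) →
      (∀ x y, ψ y x = - ψ x y) →
      (∀ g x y, ψ (ρ g x) (ρ g y) = χ g * ψ x y) →
      (∀ U, Stable ρ U → ∃ U', Stable ρ U' ∧ IsCompl U U') →
      ∀ S : Submodule K (MultilinearMap K (fun _ : Fin r ⊕ Fin r => V) K),
        (∀ a ∈ commAlg ρ, ∀ f ∈ S, ∀ s,
          f.compLinearMap (Function.update (fun _ => LinearMap.id) s a) ∈ S) →
        (∀ g, ∀ f ∈ S, f.compLinearMap (fun _ => ρ g) ∈ S) →
        (∀ f ∈ S, f.domDomCongr (Equiv.sumComm (Fin r) (Fin r)) ∈ S) →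
        (∀ k : ℕ, 0 < k → ∀ f : Fin k → MultilinearMap K (fun _ : Fin r ⊕ Fin r => V) K,
          (∀ t, f t ∈ S) → ∀ π : Equiv.Perm (Fin k × Fin r),
          ∑ I : Fin k × Fin r → Fin n,
            ∏ t, f t (Sum.elim (fun s => e (I (π (t, s)))) (fun s => e' (I (t, s)))) = 0) →
        ∃ (T : Finset ℝ) (π : ℝ → Module.End K V), WSys ρ ψ T π ∧
          ∀ f ∈ S, ∀ b : Fin r ⊕ Fin r → ℝ,
            f.compLinearMap (fun s => π (b s)) ≠ 0 → ∑ s, b s ≤ -1

lemma exists_next (T : Finset ℝ) (b : ℝ) : ∃ c, b < c ∧ ∀ t ∈ T, b < t → c ≤ t := by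
  induction T using Finset.induction_on with
  | empty => exact ⟨b + 1, by linarith, by simp⟩
  | insert t T _ ih =>
    obtain ⟨c, hc, h⟩ := ih
    by_cases hbt : b < t
    · refine ⟨min c t, lt_min hc hbt, ?_⟩
      intro s hs hbs
      rcases Finset.mem_insert.1 hs with rfl | hs
      · exact min_le_right _ _
      · exact (min_le_left _ _).trans (h s hs hbs)
    · refine ⟨c, hc, ?_⟩
      intro s hs hbs
      rcases Finset.mem_insert.1 hs with rfl | hs
      · exact absurd hbs hbt
      · exact h s hs hbs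

section

variable {K : Type v} [Field K] {V : Type v} [AddCommGroup V] [Module K V] {Γ : Type w} [Group Γ]
  {ρ : Representation K Γ V} {ψ : V →ₗ[K] V →ₗ[K] K} {n : ℕ} {e e' : Module.Basis (Fin n) K V}
  {χ : Γ → K}

/-- Central projectors with the same image agree. -/
lemma proj_unique {p q : Module.End K V} {F : Submodule K V} (hpq : p * q = q * p)
    (hp1 : ∀ x, p x ∈ F) (hp2 : ∀ x ∈ F, p x = x) (hq1 : ∀ x, q x ∈ F) (hq2 : ∀ x ∈ F, q x = x) :
    p = q := by
  ext x
  have h1 : p (q x) = q (p x) := congrArg (fun f : Module.End K V => f x) hpq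
  rw [hp2 _ (hq1 x), hq2 _ (hp1 x)] at h1
  exact h1.symm

/-- The adjoint of a central projector. -/
lemma adj_proj (hee : ∀ i j, ψ (e i) (e' j) = if i = j then 1 else 0)
    (hanti : ∀ x y, ψ y x = - ψ x y) (hρ : ∀ g x y, ψ (ρ g x) (ρ g y) = χ g * ψ x y)
    {p q : Module.End K V} {F G : Submodule K V} (hp : p ∈ commAlg ρ)
    (hpc : ∀ a ∈ commAlg ρ, p * a = a * p) (hp1 : ∀ x, p x ∈ F) (hp2 : ∀ x ∈ F, p x = x)
    (hq : q ∈ commAlg ρ) (hq1 : ∀ x, q x ∈ G) (hq2 : ∀ x ∈ G, q x = x)
    (hFG : ∀ y, y ∈ G ↔ ∀ x ∈ F, ψ x y = 0) (x y : V) : ψ (p x) y = ψ x y - ψ x (q y) := by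
  obtain ⟨p', hp'⟩ := exists_adj hee p
  obtain ⟨q', hq'⟩ := exists_adj hee q
  have hq'E : q' ∈ commAlg ρ := adj_mem hee ρ χ hρ hq hq'
  have hq'' : ∀ x y, ψ (q' x) y = ψ x (q y) := by
    intro x y
    rw [hanti, ← hq', ← hanti]
  -- `p'` commutes with `q`
  have hcomm : p' * q = q * p' := by
    ext y
    rw [← sub_eq_zero]
    apply psi_nondeg hee
    intro x
    rw [Module.End.mul_apply, Module.End.mul_apply, map_sub, ← hp', ← hq'', ← hq'', ← hp',
      sub_eq_zero]
    have h1 := congrArg (fun f : Module.End K V => f x) (hpc q' hq'E)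
    simp only [Module.End.mul_apply] at h1
    rw [h1]
  have hkey : (1 : Module.End K V) - p' = q := by
    refine proj_unique (F := G) ?_ ?_ ?_ hq1 hq2
    · rw [sub_mul, mul_sub, one_mul, mul_one, hcomm]
    · intro y
      rw [hFG]
      intro x hx
      rw [LinearMap.sub_apply, Module.End.one_apply, map_sub, ← hp', hp2 x hx, sub_self]
    · intro y hy
      rw [LinearMap.sub_apply, Module.End.one_apply, sub_eq_self]
      apply psi_nondeg hee
      intro x
      rw [← hp']
      exact (hFG y).1 hy _ (hp1 x)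
  rw [hp', ← hkey, LinearMap.sub_apply, Module.End.one_apply, map_sub]
  ring

/-- A self-dual filtration by subspaces stable under the group and its commutant defines a system
of projectors. -/
theorem exists_wsys [FiniteDimensional K V] (cent : S_cent.{v, w})
    (hee : ∀ i j, ψ (e i) (e' j) = if i = j then 1 else 0)
    (hanti : ∀ x y, ψ y x = - ψ x y) (hρ : ∀ g x y, ψ (ρ g x) (ρ g y) = χ g * ψ x y)
    (hss : ∀ U, Stable ρ U → ∃ U', Stable ρ U' ∧ IsCompl U U')
    (T : Finset ℝ) (hT : ∀ t ∈ T, -t ∈ T) (F : ℝ → Submodule K V)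
    (h1 : ∀ a b, a ≤ b → F b ≤ F a)
    (h2 : ∀ a b, (∀ t ∈ T, a ≤ t → b ≤ t) → F a ≤ F b)
    (h3 : ∀ a, (∀ t ∈ T, t < a) → F a = ⊥)
    (h3' : ∀ a, (∀ t ∈ T, a ≤ t) → F a = ⊤)
    (h4 : ∀ a, Stable ρ (F a)) (h4' : ∀ a, ∀ m ∈ commAlg ρ, ∀ x ∈ F a, m x ∈ F a)
    (h5 : ∀ a c, (∀ t ∈ T, t < a ↔ c ≤ -t) → ∀ y, y ∈ F c ↔ ∀ x ∈ F a, ψ x y = 0) :
    ∃ π : ℝ → Module.End K V, WSys ρ ψ T π ∧ ∀ b x, π b x ∈ F b := by
  classical
  choose p hpE hpc hp1 hp2 using fun a => cent K V Γ ρ hss (F a) (h4 a) (h4' a)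
  choose nx hnx1 hnx2 using exists_next T
  have hle : ∀ a b, a ≤ b → p a * p b = p b := by
    intro a b hab
    ext x
    rw [Module.End.mul_apply]
    exact hp2 a _ (h1 a b hab (hp1 b x))
  have hle' : ∀ a b, a ≤ b → p b * p a = p b := by
    intro a b hab
    rw [hpc b _ (hpE a), hle a b hab]
  have heq : ∀ a b, F a = F b → p a = p b := by
    intro a b hab
    exact proj_unique (hpc a _ (hpE b)) (hp1 a) (hp2 a) (fun x => hab ▸ hp1 b x)
      (fun x hx => hp2 b x (hab ▸ hx))
  let π : ℝ → Module.End K V := fun b => p b - p (nx b)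
  refine ⟨π, ⟨?_, ?_, ?_, ?_, ?_⟩, ?_⟩
  · intro b
    exact (commAlg ρ).sub_mem (hpE b) (hpE _)
  · intro b a ha
    simp only [π, sub_mul, mul_sub, hpc _ a ha]
  · intro b
    have hb := (hnx1 b).le
    simp only [π, sub_mul, mul_sub, hle b b le_rfl, hle b _ hb, hle' b _ hb,
      hle _ _ (le_refl (nx b))]
    simp
  · -- the sum
    have key : ∀ (m : ℕ) (a : ℝ), (T.filter (fun t => a ≤ t)).card = m →
        ∑ b ∈ T.filter (fun t => a ≤ t), π b = p a := by
      intro m
      induction m with
      | zero =>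
        intro a ha
        rw [Finset.card_eq_zero] at ha
        rw [ha, Finset.sum_empty]
        have h6 : F a = ⊥ := by
          apply h3
          intro t ht
          by_contra hcon
          push Not at hcon
          have : t ∈ T.filter (fun t => a ≤ t) := Finset.mem_filter.2 ⟨ht, hcon⟩
          rw [ha] at this
          simp at this
        ext x
        have h7 := hp1 a x
        rw [h6, Submodule.mem_bot] at h7
        rw [h7, LinearMap.zero_apply]
      | succ m ih =>
        intro a ha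
        have hne : (T.filter (fun t => a ≤ t)).Nonempty := by
          rw [← Finset.card_pos, ha]
          omega
        set c := (T.filter (fun t => a ≤ t)).min' hne with hc
        have hcmem := Finset.min'_mem _ hne
        rw [← hc, Finset.mem_filter] at hcmem
        have hcle : ∀ t ∈ T, a ≤ t → c ≤ t := fun t ht hat =>
          Finset.min'_le _ _ (Finset.mem_filter.2 ⟨ht, hat⟩)
        have hpac : p a = p c := heq a c (le_antisymm (h2 a c hcle) (h1 a c hcmem.2))
        have hfil : T.filter (fun t => a ≤ t) = insert c (T.filter (fun t => nx c ≤ t)) := by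
          ext t
          rw [Finset.mem_insert, Finset.mem_filter, Finset.mem_filter]
          constructor
          · rintro ⟨ht, hat⟩
            rcases (hcle t ht hat).eq_or_lt with h | h
            · exact Or.inl h.symm
            · exact Or.inr ⟨ht, hnx2 c t ht h⟩
          · rintro (rfl | ⟨ht, h⟩)
            · exact hcmem
            · exact ⟨ht, hcmem.2.trans ((hnx1 c).le.trans h)⟩
        have hnot : c ∉ T.filter (fun t => nx c ≤ t) := by
          rw [Finset.mem_filter]
          rintro ⟨-, h⟩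
          exact absurd (hnx1 c) (not_lt.2 h)
        have hcard : (T.filter (fun t => nx c ≤ t)).card = m := by
          rw [hfil, Finset.card_insert_of_notMem hnot] at ha
          omega
        rw [hfil, Finset.sum_insert hnot, ih _ hcard, hpac]
        simp [π]
    obtain ⟨a, ha⟩ : ∃ a : ℝ, ∀ t ∈ T, a ≤ t := by
      obtain ⟨a, ha⟩ := T.bddBelow
      exact ⟨a, fun t ht => ha ht⟩
    have h6 := key _ a rfl
    rw [Finset.filter_true_of_mem ha] at h6
    rw [h6]
    ext x
    exact hp2 a x (by rw [h3' a ha]; trivial)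
  · intro b x y
    have h6 : ψ (p b x) y = ψ x y - ψ x (p (nx (-b)) y) := by
      refine adj_proj hee hanti hρ (hpE b) (hpc b) (hp1 b) (hp2 b) (hpE _) (hp1 _) (hp2 _)
        (h5 b (nx (-b)) ?_) x y
      intro t ht
      constructor
      · intro h
        exact hnx2 (-b) (-t) (hT t ht) (by linarith)
      · intro h
        have := hnx1 (-b)
        linarith
    have h7 : ψ (p (nx b) x) y = ψ x y - ψ x (p (-b) y) := by
      refine adj_proj hee hanti hρ (hpE _) (hpc _) (hp1 _) (hp2 _) (hpE _) (hp1 _) (hp2 _)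
        (h5 (nx b) (-b) ?_) x y
      intro t ht
      constructor
      · intro h
        by_contra hcon
        push Not at hcon
        have := hnx2 b t ht (by linarith)
        linarith
      · intro h
        have := hnx1 b
        linarith
    simp only [π, LinearMap.sub_apply, map_sub, h6, h7]
    ring
  · intro b x
    exact (F b).sub_mem (hp1 b x) (h1 _ _ (hnx1 b).le (hp1 _ x))

end

end Pool.Agent.Y150.KN
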