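import Pool.Agent.Y150.KN.W1
import Pool.Agent.Y150.KN.Q4

/-!
# The structure theorem on spaces of forms (project KN, helper150)
-/

set_option autoImplicit false

namespace Pool.Agent.Y150.KN

open Matrix

universe v w

/-- The filtration on the coordinate space is determined by its rational part. -/
theorem q3_of (hm : S_hm.{v}) (kem : S_kem2.{v}) (gal : S_gal.{v}) (cent : S_cent.{v, w}) :
    S_Q3.{v, w} := by
  classical
  intro K _ _ σ V _ _ Γ _ ρ ψ n r e e' χ hee hanti hρ hss S hSE hSΓ hSsw hnull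
  set E := commAlg ρ with hEdef
  have hδ : ∃ δ ∈ E, ∀ x y, ψ y x = ψ (δ x) y :=
    ⟨(-1 : K) • 1, E.smul_mem E.one_mem _, fun x y => by
      rw [hanti, LinearMap.smul_apply, Module.End.one_apply, map_smul, LinearMap.smul_apply,
        neg_smul, one_smul]⟩
  have hadj : ∀ a ∈ E, ∃ a' ∈ E, ∀ x y, ψ (a x) y = ψ x (a' y) := by
    intro a ha
    obtain ⟨a', ha'⟩ := exists_adj hee a
    exact ⟨a', adj_mem hee ρ _ hρ ha ha', ha'⟩
  have hc : ∀ g, ∃ c ∈ E, ∀ x y, ψ (ρ g x) (ρ g y) = ψ (c x) y := by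
    intro g
    refine ⟨χ g • 1, E.smul_mem E.one_mem _, fun x y => ?_⟩
    rw [hρ, LinearMap.smul_apply, Module.End.one_apply, map_smul, LinearMap.smul_apply,
      smul_eq_mul]
  let _ : Algebra K ℂ := σ.toAlgebra
  have hfd : FiniteDimensional K V := Module.Finite.of_basis e
  have j : AlgebraicClosure K →+* ℂ :=
    (IsAlgClosed.lift : AlgebraicClosure K →ₐ[K] ℂ).toRingHom
  set L := AlgebraicClosure K with hL
  have hfree : Module.Free K S := Module.Free.of_divisionRing K S
  let b := Module.finBasis K S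
  -- nullity
  have hZ : Null (fun t => (zf e e' (b t : MultilinearMap K (fun _ : Fin r ⊕ Fin r => V) K)).map
      (algebraMap K L)) := by
    intro k hk wt π
    have h1 := hnull k hk (fun t => (b (wt t) : MultilinearMap K (fun _ : Fin r ⊕ Fin r => V) K))
      (fun t => (b (wt t)).2) π
    have h2 := congrArg (algebraMap K L) h1
    rw [map_zero, map_sum] at h2
    rw [← h2]
    refine Finset.sum_congr rfl (fun I _ => ?_)
    rw [map_prod]
    rfl
  -- the optimal pair
  obtain ⟨g0, w0, h0⟩ := hm L j n r _ _ hZ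
  obtain ⟨g, w, hgw, huniq⟩ := kem L n r _ _ ⟨g0, fun i => (w0 i : ℝ), by
    intro t J I hne
    have h1 := h0 t J I hne
    have h2 : ∑ s, w0 (I s) + 1 ≤ ∑ s, w0 (J s) := h1
    have h3 : ∑ s, (w0 (I s) : ℝ) + 1 ≤ ∑ s, (w0 (J s) : ℝ) := by exact_mod_cast h2
    exact h3⟩
  have hgS : FeasS e e' L S g w := (feas_iff b g w).1 hgw
  -- stability of the filtration
  have hstab : ∀ h : (Matrix (Fin n) (Fin n) L)ˣ, FeasS e e' L S (g * h) w →
      ∀ a, ∀ x ∈ fil g w a, (h : Matrix (Fin n) (Fin n) L) *ᵥ x ∈ fil g w a := by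
    intro h hh a x hx
    rw [← mem_fil_mul]
    exact fil_le (fun j i => (huniq _ w ((feas_iff b _ w).2 hh) le_rfl j i).1) hx
  -- the rational part
  let vec : V → Fin n → L := fun y i => algebraMap K L (e.repr y i)
  have hvec_add : ∀ x y, vec (x + y) = vec x + vec y := by
    intro x y
    funext i
    simp [vec]
  have hvec_smul : ∀ (c : K) x, vec (c • x) = algebraMap K L c • vec x := by
    intro c x
    funext i
    simp [vec]
  have hvec_end : ∀ (a : Module.End K V) x,
      vec (a x) = ((LinearMap.toMatrix e e a).map (algebraMap K L)) *ᵥ vec x := by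
    intro a x
    funext i
    have h1 := congrFun (LinearMap.toMatrix_mulVec_repr e e a x) i
    simp only [vec]
    rw [← h1, Matrix.mulVec, Matrix.mulVec, dotProduct, dotProduct, map_sum]
    exact Finset.sum_congr rfl (fun k _ => by rw [map_mul]; rfl)
  let FV : ℝ → Submodule K V := fun a =>
    { carrier := {y | vec y ∈ fil g w a}
      add_mem' := by
        intro x y hx hy
        change vec (x + y) ∈ fil g w a
        rw [hvec_add]
        exact Submodule.add_mem _ hx hy
      zero_mem' := by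
        have h1 : vec 0 = 0 := by
          funext i
          simp [vec]
        change vec 0 ∈ fil g w a
        rw [h1]
        exact Submodule.zero_mem _
      smul_mem' := by
        intro c x hx
        change vec (c • x) ∈ fil g w a
        rw [hvec_smul]
        exact Submodule.smul_mem _ _ hx }
  have hmemFV : ∀ a y, y ∈ FV a ↔ vec y ∈ fil g w a := fun a y => Iff.rfl
  -- stability under `E`
  have hFE : ∀ a, ∀ x ∈ FV a, ∀ m ∈ E, m x ∈ FV a := by
    intro a x hx m hm
    obtain ⟨s, hs⟩ := exists_shift m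
    set m' := m + s • (1 : Module.End K V) with hm'
    have hm'E : m' ∈ E := E.add_mem hm (E.smul_mem E.one_mem s)
    obtain ⟨m₁, hm₁E, h1, h2⟩ := exists_inv hm'E hs
    obtain ⟨a', ha'E, ha'⟩ := hadj m' hm'E
    have h3 := hstab _ (feas_E hee hSE hgS h1 h2 ha' hm₁E ha'E) a (vec x) hx
    have h4 : m' x ∈ FV a := by
      rw [hmemFV, hvec_end]
      exact h3
    have h5 : m x = m' x - s • x := by
      rw [hm']
      simp
    rw [h5]
    exact Submodule.sub_mem _ h4 (Submodule.smul_mem _ _ hx)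
  -- stability under `Γ`
  have hFΓ : ∀ a, Stable ρ (FV a) := by
    intro a γ x hx
    have hab : ρ γ * ρ γ⁻¹ = 1 := by rw [← map_mul, mul_inv_cancel, map_one]
    have hba : ρ γ⁻¹ * ρ γ = 1 := by rw [← map_mul, inv_mul_cancel, map_one]
    have h3 := hstab _ (feas_Γ hee hSE hc hadj hSΓ hgS γ hab hba) a (vec x) hx
    rw [hmemFV, hvec_end]
    exact h3
  -- stability under the Galois group
  have hFG : ∀ a, ∀ τ : L ≃ₐ[K] L, ∀ x ∈ fil g w a, (fun i => τ (x i)) ∈ fil g w a := by
    intro a τ x hx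
    let g₂ : (Matrix (Fin n) (Fin n) L)ˣ :=
      Units.map (τ : L →+* L).mapMatrix.toMonoidHom g
    have hg₂ : (g₂ : Matrix (Fin n) (Fin n) L) = (g : Matrix (Fin n) (Fin n) L).map τ := rfl
    have hg₂' : ((g₂⁻¹ : (Matrix (Fin n) (Fin n) L)ˣ) : Matrix (Fin n) (Fin n) L) =
        ((g⁻¹ : (Matrix (Fin n) (Fin n) L)ˣ) : Matrix (Fin n) (Fin n) L).map τ := rfl
    have hfe : FeasS e e' L S g₂ w := by
      intro f hf J I hne
      apply hgS f hf J I
      intro h0
      apply hne
      have h1 : tp (Fin r) (g₂ : Matrix (Fin n) (Fin n) L) * (zf e e' f).map (algebraMap K L) *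
          tp (Fin r) ((g₂⁻¹ : (Matrix (Fin n) (Fin n) L)ˣ) : Matrix (Fin n) (Fin n) L) =
          (tp (Fin r) (g : Matrix (Fin n) (Fin n) L) * (zf e e' f).map (algebraMap K L) *
          tp (Fin r) ((g⁻¹ : (Matrix (Fin n) (Fin n) L)ˣ) : Matrix (Fin n) (Fin n) L)).map
            (τ : L →+* L) := by
        rw [Matrix.map_mul, Matrix.map_mul, ← tp_map, ← tp_map]
        have h2 : ((zf e e' f).map (algebraMap K L)).map (τ : L →+* L) =
            (zf e e' f).map (algebraMap K L) := by
          ext J I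
          exact τ.commutes _
        rw [h2]
        rfl
      rw [h1, Matrix.map_apply, h0, map_zero]
    have h5 : (fun i => τ (x i)) ∈ fil g₂ w a := by
      intro i hi
      apply hx i
      intro h6
      apply hi
      have h7 : ((g₂ : Matrix (Fin n) (Fin n) L) *ᵥ fun i => τ (x i)) i =
          τ (((g : Matrix (Fin n) (Fin n) L) *ᵥ x) i) := by
        rw [Matrix.mulVec, Matrix.mulVec, dotProduct, dotProduct, map_sum]
        exact Finset.sum_congr rfl (fun k _ => by rw [map_mul]; rfl)
      rw [h7, h6, map_zero]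
    exact fil_le (fun j i => (huniq g₂ w ((feas_iff b _ w).2 hfe) le_rfl j i).2) h5
  -- the exchange of the two halves
  obtain ⟨δ, hδE, hδ⟩ := hδ
  have hδinj : Function.Injective δ := by
    rw [injective_iff_map_eq_zero]
    intro x hx
    apply psi_nondeg hee
    intro y
    rw [hδ, hx, map_zero, LinearMap.zero_apply]
  obtain ⟨δ₁, hδ₁E, -, hδ₁⟩ := exists_inv hδE hδinj
  obtain ⟨δ', hδ'E, hδ'⟩ := hadj δ₁ hδ₁E
  obtain ⟨g₂, hg₂S, hg₂⟩ := feas_swap hee hgS hSE hSsw hδ hδ₁ hδ' hδ'E
  have hu := huniq g₂ (fun i => - w i) ((feas_iff b _ _).2 hg₂S) (by simp)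
  have hfil : ∀ a, fil g w a = fil g₂ (fun i => - w i) a := fun a =>
    le_antisymm (fil_le (fun j i => (hu j i).1)) (fil_le (fun j i => (hu j i).2))
  -- the coordinates with respect to the second pair
  have hψ : ∀ x y : V, algebraMap K L (ψ x y) =
      ((g₂ : Matrix (Fin n) (Fin n) L) *ᵥ vec x) ⬝ᵥ ((g : Matrix (Fin n) (Fin n) L) *ᵥ vec y) := by
    intro x y
    rw [← Matrix.vecMul_transpose, ← Matrix.dotProduct_mulVec, Matrix.mulVec_mulVec, hg₂]
    have h2 : ψ x y = (fun i => e.repr x i) ⬝ᵥ ((e'.toMatrix e) *ᵥ (fun i => e.repr y i)) := by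
      have h3 : ∀ i, ((e'.toMatrix e) *ᵥ (fun i => e.repr y i)) i = ψ (e i) y := by
        intro i
        rw [← repr_e' hee, Matrix.mulVec, dotProduct]
        conv_rhs => rw [← e.sum_repr y]
        rw [map_sum, Finsupp.finsetSum_apply]
        refine Finset.sum_congr rfl (fun k _ => ?_)
        rw [map_smul, Finsupp.smul_apply, smul_eq_mul, Module.Basis.toMatrix_apply, mul_comm]
      rw [dotProduct]
      simp only [h3]
      conv_lhs => rw [← e.sum_repr x]
      rw [map_sum, LinearMap.sum_apply]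
      exact Finset.sum_congr rfl (fun k _ => by rw [map_smul, LinearMap.smul_apply, smul_eq_mul])
    rw [h2, dotProduct, dotProduct, map_sum]
    refine Finset.sum_congr rfl (fun i _ => ?_)
    rw [map_mul, Matrix.mulVec, Matrix.mulVec, dotProduct, dotProduct, map_sum]
    congr 1
    exact Finset.sum_congr rfl (fun k _ => by rw [map_mul]; rfl)
  -- descent
  have hvecsymm : ∀ y : Fin n → K, vec (e.equivFun.symm y) = fun i => algebraMap K L (y i) := by
    intro y
    funext i
    simp only [vec]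
    congr 1
    rw [← Module.Basis.equivFun_apply, LinearEquiv.apply_symm_apply]
  have hvec0 : ∀ x, vec x = 0 → x = 0 := by
    intro x hx
    apply e.repr.injective
    ext i
    have h1 := congrFun hx i
    rw [map_zero, Finsupp.zero_apply]
    exact (map_eq_zero (algebraMap K L)).1 h1
  have hdesc : ∀ a, ∀ y : V, (∀ x ∈ FV a, ψ y x = 0) → ∀ X ∈ fil g w a,
      ((g₂ : Matrix (Fin n) (Fin n) L) *ᵥ vec y) ⬝ᵥ ((g : Matrix (Fin n) (Fin n) L) *ᵥ X) = 0 := by
    intro a y hy X hX
    rw [gal K n (fil g w a) (hFG a)] at hX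
    induction hX using Submodule.span_induction with
    | mem X hX =>
      obtain ⟨hX, y', rfl⟩ := hX
      rw [← hvecsymm y', ← hψ, hy, map_zero]
      rw [hmemFV, hvecsymm]
      exact hX
    | zero => rw [Matrix.mulVec_zero, dotProduct_zero]
    | add x y _ _ hx hy => rw [Matrix.mulVec_add, dotProduct_add, hx, hy, add_zero]
    | smul c x _ hx => rw [Matrix.mulVec_smul, dotProduct_smul, hx, smul_zero]
  let T : Finset ℝ := Finset.univ.image w ∪ Finset.univ.image (fun i => - w i)
  have hwT : ∀ i, w i ∈ T := fun i =>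
    Finset.mem_union_left _ (Finset.mem_image_of_mem w (Finset.mem_univ i))
  have hT : ∀ t ∈ T, -t ∈ T := by
    intro t ht
    rcases Finset.mem_union.1 ht with h | h
    · obtain ⟨i, -, rfl⟩ := Finset.mem_image.1 h
      exact Finset.mem_union_right _ (Finset.mem_image.2 ⟨i, Finset.mem_univ i, rfl⟩)
    · obtain ⟨i, -, rfl⟩ := Finset.mem_image.1 h
      rw [neg_neg]
      exact hwT i
  have hgi : ∀ x : Fin n → L, ((g⁻¹ : (Matrix (Fin n) (Fin n) L)ˣ) : Matrix (Fin n) (Fin n) L) *ᵥ
      ((g : Matrix (Fin n) (Fin n) L) *ᵥ x) = x := by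
    intro x
    rw [Matrix.mulVec_mulVec, ← Units.val_mul, inv_mul_cancel, Units.val_one, Matrix.one_mulVec]
  have hginj : ∀ x : Fin n → L, (g : Matrix (Fin n) (Fin n) L) *ᵥ x = 0 → x = 0 := by
    intro x hx
    rw [← hgi x, hx, Matrix.mulVec_zero]
  have hgcol : ∀ j, (g : Matrix (Fin n) (Fin n) L) *ᵥ
      (((g⁻¹ : (Matrix (Fin n) (Fin n) L)ˣ) : Matrix (Fin n) (Fin n) L) *ᵥ Pi.single j 1) =
        Pi.single j 1 := by
    intro j
    rw [Matrix.mulVec_mulVec, ← Units.val_mul, mul_inv_cancel, Units.val_one, Matrix.one_mulVec]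
  obtain ⟨π, hπ, hπF⟩ := exists_wsys (F := FV) cent hee hanti hρ hss T hT
    (by
      intro a b hab x hx i hi
      exact hab.trans (hx i hi))
    (by
      intro a b hab x hx i hi
      exact hab _ (hwT i) (hx i hi))
    (by
      intro a ha
      rw [Submodule.eq_bot_iff]
      intro x hx
      apply hvec0
      apply hginj
      funext i
      by_contra hne
      exact absurd (hx i hne) (not_le.2 (ha _ (hwT i))))
    (by
      intro a ha
      rw [Submodule.eq_top_iff']
      intro x i _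
      exact ha _ (hwT i))
    hFΓ (fun a m hm x hx => hFE a x hx m hm)
    (by
      intro a c hac y
      constructor
      · intro hy x hx
        rw [hanti, neg_eq_zero]
        rw [hmemFV, hfil] at hy
        have h1 : algebraMap K L (ψ y x) = 0 := by
          rw [hψ, dotProduct]
          refine Finset.sum_eq_zero (fun j _ => ?_)
          by_contra hne
          have h2 := hy j (left_ne_zero_of_mul hne)
          have h3 := hx j (right_ne_zero_of_mul hne)
          exact absurd ((hac _ (hwT j)).2 h2) (not_lt.2 h3)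
        exact (map_eq_zero (algebraMap K L)).1 h1
      · intro hy
        rw [hmemFV, hfil]
        intro j hj
        refine (hac _ (hwT j)).1 ?_
        by_contra hcon
        push Not at hcon
        apply hj
        have h1 := hdesc a y (fun x hx => by rw [hanti, hy x hx, neg_zero])
          (((g⁻¹ : (Matrix (Fin n) (Fin n) L)ˣ) : Matrix (Fin n) (Fin n) L) *ᵥ Pi.single j 1)
          (by
            intro i hi
            exact hcon.trans (col_mem j i hi))
        rw [hgcol, dotProduct_single, mul_one] at h1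
        exact h1)
  refine ⟨T, π, hπ, ?_⟩
  -- the weights
  intro f hf b hne
  obtain ⟨x, hx⟩ : ∃ x, f.compLinearMap (fun s => π (b s)) x ≠ 0 := by
    by_contra hcon
    push Not at hcon
    exact hne (by ext x; exact hcon x)
  rw [MultilinearMap.compLinearMap_apply] at hx
  set X : Fin r → V := fun s => π (b (Sum.inl s)) (x (Sum.inl s)) with hX
  set Y : Fin r → V := fun s => π (b (Sum.inr s)) (x (Sum.inr s)) with hY
  have hXF : ∀ s, X s ∈ FV (b (Sum.inl s)) := fun s => hπF _ _
  have hYF : ∀ s, Y s ∈ FV (b (Sum.inr s)) := fun s => hπF _ _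
  have hxy : (fun s => π (b s) (x s)) = Sum.elim X Y := by
    funext s
    rcases s with s | s <;> rfl
  rw [hxy] at hx
  set Z := tp (Fin r) (g : Matrix (Fin n) (Fin n) L) * (zf e e' f).map (algebraMap K L) *
    tp (Fin r) ((g⁻¹ : (Matrix (Fin n) (Fin n) L)ˣ) : Matrix (Fin n) (Fin n) L) with hZdef
  have hgg : tp (Fin r) ((g⁻¹ : (Matrix (Fin n) (Fin n) L)ˣ) : Matrix (Fin n) (Fin n) L) *
      tp (Fin r) (g : Matrix (Fin n) (Fin n) L) = 1 := tp_mul_cancel (by simp)
  have hzf : (zf e e' f).map (algebraMap K L) =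
      tp (Fin r) ((g⁻¹ : (Matrix (Fin n) (Fin n) L)ˣ) : Matrix (Fin n) (Fin n) L) * Z *
        tp (Fin r) (g : Matrix (Fin n) (Fin n) L) := by
    rw [hZdef, Matrix.mul_assoc, Matrix.mul_assoc, hgg, Matrix.mul_one, ← Matrix.mul_assoc, hgg,
      Matrix.one_mul]
  -- vectors
  let A : (Fin r → Fin n) → L := fun M => ∏ s, algebraMap K L (e'.repr (Y s) (M s))
  let Bv : (Fin r → Fin n) → L := fun N => ∏ s, vec (X s) (N s)
  have hexp : algebraMap K L (f (Sum.elim X Y)) =
      A ⬝ᵥ ((zf e e' f).map (algebraMap K L) *ᵥ Bv) := by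
    rw [expand (e := e) (e' := e'), map_sum, dotProduct]
    refine Finset.sum_congr rfl (fun M _ => ?_)
    rw [map_sum, Matrix.mulVec, dotProduct, Finset.mul_sum]
    refine Finset.sum_congr rfl (fun N _ => ?_)
    rw [map_mul, map_mul, map_prod, map_prod, Matrix.map_apply, mul_assoc]
  have hB : ∀ I, (tp (Fin r) (g : Matrix (Fin n) (Fin n) L) *ᵥ Bv) I =
      ∏ s, ((g : Matrix (Fin n) (Fin n) L) *ᵥ vec (X s)) (I s) := by
    intro I
    simp only [Matrix.mulVec, dotProduct, tp_apply, Bv]
    rw [Finset.prod_univ_sum]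
    simp only [Fintype.piFinset_univ, Finset.prod_mul_distrib]
  have hvec' : ∀ (y : V) (J : Fin n), ((fun i => algebraMap K L (e'.repr y i)) ᵥ*
      ((g⁻¹ : (Matrix (Fin n) (Fin n) L)ˣ) : Matrix (Fin n) (Fin n) L)) J =
        - ((g₂ : Matrix (Fin n) (Fin n) L) *ᵥ vec y) J := by
    intro y J
    have h1 : (fun i => algebraMap K L (e'.repr y i)) =
        (- ((g₂ : Matrix (Fin n) (Fin n) L) *ᵥ vec y)) ᵥ* (g : Matrix (Fin n) (Fin n) L) := by
      funext i
      rw [repr_e' hee, hanti, map_neg, hψ, Matrix.neg_vecMul, Pi.neg_apply]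
      congr 1
      rw [Matrix.vecMul]
      congr 1
      funext l
      have h2 : vec (e i) = Pi.single i 1 := by
        funext l
        simp only [vec, Module.Basis.repr_self]
        rw [Finsupp.single_apply, Pi.single_apply]
        by_cases h : i = l
        · subst h
          simp
        · rw [if_neg h, if_neg (fun h' => h h'.symm), map_zero]
      rw [h2, Matrix.mulVec_single_one]
      rfl
    rw [h1, Matrix.vecMul_vecMul, ← Units.val_mul, mul_inv_cancel, Units.val_one,
      Matrix.vecMul_one]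
    rfl
  have hA : ∀ J, (A ᵥ* tp (Fin r)
      ((g⁻¹ : (Matrix (Fin n) (Fin n) L)ˣ) : Matrix (Fin n) (Fin n) L)) J =
        ∏ s, (- ((g₂ : Matrix (Fin n) (Fin n) L) *ᵥ vec (Y s)) (J s)) := by
    intro J
    have h1 : ∀ s, - ((g₂ : Matrix (Fin n) (Fin n) L) *ᵥ vec (Y s)) (J s) =
        ((fun i => algebraMap K L (e'.repr (Y s) i)) ᵥ*
          ((g⁻¹ : (Matrix (Fin n) (Fin n) L)ˣ) : Matrix (Fin n) (Fin n) L)) (J s) :=
      fun s => (hvec' (Y s) (J s)).symm
    rw [Finset.prod_congr rfl (fun s _ => h1 s)]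
    simp only [Matrix.vecMul, dotProduct, tp_apply, A]
    rw [Finset.prod_univ_sum]
    simp only [Fintype.piFinset_univ, Finset.prod_mul_distrib]
  have h0 : algebraMap K L (f (Sum.elim X Y)) ≠ 0 := by
    rwa [Ne, map_eq_zero]
  rw [hexp, hzf, ← Matrix.mulVec_mulVec, ← Matrix.mulVec_mulVec, Matrix.dotProduct_mulVec,
    dotProduct] at h0
  obtain ⟨J, -, hJ⟩ := Finset.exists_ne_zero_of_sum_ne_zero h0
  have hJ1 := left_ne_zero_of_mul hJ
  have hJ2 := right_ne_zero_of_mul hJ
  rw [Matrix.mulVec, dotProduct] at hJ2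
  obtain ⟨I, -, hI⟩ := Finset.exists_ne_zero_of_sum_ne_zero hJ2
  have hI1 := left_ne_zero_of_mul hI
  have hI2 := right_ne_zero_of_mul hI
  rw [hA, Finset.prod_ne_zero_iff] at hJ1
  rw [hB, Finset.prod_ne_zero_iff] at hI2
  have h1 := hgS f hf J I hI1
  have h2 : ∀ s, b (Sum.inl s) ≤ w (I s) := fun s => hXF s _ (hI2 s (Finset.mem_univ s))
  have h3 : ∀ s, b (Sum.inr s) ≤ - w (J s) := by
    intro s
    have h4 := hYF s
    rw [hmemFV, hfil] at h4
    exact h4 _ (neg_ne_zero.1 (hJ1 s (Finset.mem_univ s)))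
  rw [Fintype.sum_sum_type]
  have h4 : ∑ s, b (Sum.inl s) ≤ ∑ s, w (I s) := Finset.sum_le_sum (fun s _ => h2 s)
  have h5 : ∑ s, b (Sum.inr s) ≤ ∑ s, - w (J s) := Finset.sum_le_sum (fun s _ => h3 s)
  rw [Finset.sum_neg_distrib] at h5
  linarith

end Pool.Agent.Y150.KN
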